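import Pool.Agent.Helper2.RO.Trans

/-!
# Block RO-G1: transvections generate `SL(n, K)`

Let `G` be the subgroup generated by the transvections `tv u k h`. `Matrix.Pivot` (see
`Matrix.Pivot.exists_list_transvec_mul_diagonal_mul_list_transvec`; `TransvectionStruct.toMatrix`, `transvection i j c` is
`1 + single i j c = 1 + vecMulVec (Pi.single i c) (Pi.single j 1)`) writes `A` as a product of transvections, a
diagonal matrix `diagonal d` and transvections; so `∏ d i = 1`, and it is enough that `diagonal d` is in `G`.
For `i ≠ j`, `t ≠ 0` let `h i j t` be the diagonal matrix with `t` at `i`, `t⁻¹` at `j`, `1` elsewhere. It is in `G`: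
`h i j t = x(t) y(-t⁻¹) x(t) x(-1) y(1) x(-1)` with `x(a) = 1 + a E i j`, `y(a) = 1 + a E j i`.
Fix `j`. If `d i = 1` for all `i` outside a finite set `s` and `i ≠ j`, then `diagonal d` is in `G`: induction on `s`
(not containing `j`), the product of `diagonal d` and `h i j (d i)⁻¹` has `1` at `i`; for `s` empty, `d j = 1`
because the product of the `d i` is `1`.
-/

set_option autoImplicit false

open Matrix

namespace Pool.Agent.Helper2.RO

variable {K : Type*} [Field K] {ι : Type*} [Fintype ι] [DecidableEq ι]

private def G99 (K : Type*) [Field K] (ι : Type*) [Fintype ι] [DecidableEq ι] :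
    Subgroup (SpecialLinearGroup ι K) :=
  Subgroup.closure {T : SpecialLinearGroup ι K | ∃ u k h, T = tv u k h}

private theorem mc99 (X Y : SpecialLinearGroup ι K) :
    (X * Y : SpecialLinearGroup ι K).1 = X.1 * Y.1 := rfl

private theorem trans_mem99 {i j : ι} (hij : i ≠ j) (c : K) :
    ∃ B ∈ G99 K ι, (B : Matrix ι ι K) = transvection i j c := by
  have h : (Pi.single j (1 : K) : ι → K) ⬝ᵥ Pi.single i c = 0 := by
    rw [single_dotProduct]
    simp [Pi.single_eq_of_ne hij.symm]
  refine ⟨tv (Pi.single i c) (Pi.single j 1) h, Subgroup.subset_closure ⟨_, _, _, rfl⟩, ?_⟩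
  show 1 + vecMulVec (Pi.single i c) (Pi.single j 1) = 1 + Matrix.single i j c
  congr 1
  ext p q
  rw [vecMulVec_apply, Matrix.single_apply]
  by_cases hp : i = p
  · subst hp
    by_cases hq : j = q
    · subst hq
      simp
    · simp [hq, Pi.single_eq_of_ne (Ne.symm hq)]
  · simp [hp, Pi.single_eq_of_ne (Ne.symm hp)]

private theorem listmem99 (L : List (TransvectionStruct ι K)) :
    ∃ B ∈ G99 K ι, (B : Matrix ι ι K) = (L.map TransvectionStruct.toMatrix).prod := by
  induction L with
  | nil => exact ⟨1, Subgroup.one_mem _, by simp⟩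
  | cons t L ih =>
    obtain ⟨B, hB, hB2⟩ := ih
    obtain ⟨C, hC, hC2⟩ := trans_mem99 (K := K) t.hij t.c
    refine ⟨C * B, Subgroup.mul_mem _ hC hB, ?_⟩
    rw [mc99, hB2, hC2]
    rfl

private theorem hmat99 {i j : ι} (hij : i ≠ j) {t : K} (ht : t ≠ 0) :
    transvection i j t * transvection j i (-t⁻¹) * transvection i j t =
      1 - Matrix.single i i 1 - Matrix.single j j 1 + Matrix.single i j t -
        Matrix.single j i t⁻¹ := by
  have e1 : (Matrix.single i j t : Matrix ι ι K) * Matrix.single j i (-t⁻¹) =
      - Matrix.single i i 1 := by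
    rw [Matrix.single_mul_single_same, mul_neg, mul_inv_cancel₀ ht, Matrix.single_neg]
  have e2 : (Matrix.single j i (-t⁻¹) : Matrix ι ι K) * Matrix.single i j t =
      - Matrix.single j j 1 := by
    rw [Matrix.single_mul_single_same, neg_mul, inv_mul_cancel₀ ht, Matrix.single_neg]
  have e3 : (Matrix.single i j t : Matrix ι ι K) * Matrix.single i j t = 0 :=
    Matrix.single_mul_single_of_ne _ _ _ _ hij.symm _
  have e4 : (Matrix.single i i (1 : K) : Matrix ι ι K) * Matrix.single i j t =
      Matrix.single i j t := by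
    rw [Matrix.single_mul_single_same, one_mul]
  have e5 : (Matrix.single j i (-t⁻¹) : Matrix ι ι K) = - Matrix.single j i t⁻¹ := by
    rw [Matrix.single_neg]
  unfold transvection
  have e6 : (1 + Matrix.single i j t : Matrix ι ι K) * (1 + Matrix.single j i (-t⁻¹)) =
      1 + Matrix.single i j t + Matrix.single j i (-t⁻¹) - Matrix.single i i 1 := by
    rw [mul_add, mul_one, add_mul, one_mul, e1]
    abel
  rw [e6, mul_add, mul_one, sub_mul, add_mul, add_mul, one_mul, e2, e3, e4, e5]
  abel

private theorem hdiag99 {i j : ι} (hij : i ≠ j) {t : K} (ht : t ≠ 0) :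
    ∃ B ∈ G99 K ι, (B : Matrix ι ι K) =
      diagonal (Function.update (Function.update (1 : ι → K) i t) j t⁻¹) := by
  obtain ⟨B1, h1, g1⟩ := trans_mem99 (K := K) hij t
  obtain ⟨B2, h2, g2⟩ := trans_mem99 (K := K) hij.symm (-t⁻¹)
  obtain ⟨B3, h3, g3⟩ := trans_mem99 (K := K) hij (-1)
  obtain ⟨B4, h4, g4⟩ := trans_mem99 (K := K) hij.symm 1
  refine ⟨B1 * B2 * B1 * (B3 * B4 * B3), Subgroup.mul_mem _ (Subgroup.mul_mem _
    (Subgroup.mul_mem _ h1 h2) h1) (Subgroup.mul_mem _ (Subgroup.mul_mem _ h3 h4) h3), ?_⟩
  rw [mc99, mc99, mc99, mc99, mc99, g1, g2, g3, g4, hmat99 hij ht]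
  have hm := hmat99 hij (neg_ne_zero.2 (one_ne_zero (α := K)))
  have hm1 : -(-1 : K)⁻¹ = 1 := by rw [inv_neg, inv_one, neg_neg]
  rw [hm1] at hm
  rw [hm]
  have hm2 : (-1 : K)⁻¹ = -1 := by rw [inv_neg, inv_one]
  rw [hm2]
  have p1 : (Matrix.single i i (1 : K) : Matrix ι ι K) * Matrix.single i i 1 =
      Matrix.single i i 1 := by rw [Matrix.single_mul_single_same, one_mul]
  have p2 : (Matrix.single i i (1 : K) : Matrix ι ι K) * Matrix.single j j 1 = 0 :=
    Matrix.single_mul_single_of_ne _ _ _ _ hij _
  have p3 : (Matrix.single j j (1 : K) : Matrix ι ι K) * Matrix.single i i 1 = 0 :=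
    Matrix.single_mul_single_of_ne _ _ _ _ hij.symm _
  have p4 : (Matrix.single j j (1 : K) : Matrix ι ι K) * Matrix.single j j 1 =
      Matrix.single j j 1 := by rw [Matrix.single_mul_single_same, one_mul]
  have p5 : (Matrix.single i i (1 : K) : Matrix ι ι K) * Matrix.single i j (-1) =
      Matrix.single i j (-1) := by rw [Matrix.single_mul_single_same, one_mul]
  have p6 : (Matrix.single j j (1 : K) : Matrix ι ι K) * Matrix.single i j (-1) = 0 :=
    Matrix.single_mul_single_of_ne _ _ _ _ hij.symm _
  have p7 : (Matrix.single i i (1 : K) : Matrix ι ι K) * Matrix.single j i (-1) = 0 :=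
    Matrix.single_mul_single_of_ne _ _ _ _ hij _
  have p8 : (Matrix.single j j (1 : K) : Matrix ι ι K) * Matrix.single j i (-1) =
      Matrix.single j i (-1) := by rw [Matrix.single_mul_single_same, one_mul]
  have p9 : (Matrix.single i j t : Matrix ι ι K) * Matrix.single i i 1 = 0 :=
    Matrix.single_mul_single_of_ne _ _ _ _ hij.symm _
  have p10 : (Matrix.single i j t : Matrix ι ι K) * Matrix.single j j 1 =
      Matrix.single i j t := by rw [Matrix.single_mul_single_same, mul_one]
  have p11 : (Matrix.single i j t : Matrix ι ι K) * Matrix.single i j (-1) = 0 :=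
    Matrix.single_mul_single_of_ne _ _ _ _ hij.symm _
  have p12 : (Matrix.single i j t : Matrix ι ι K) * Matrix.single j i (-1) =
      - Matrix.single i i t := by
    rw [Matrix.single_mul_single_same, mul_neg, mul_one, Matrix.single_neg]
  have p13 : (Matrix.single j i t⁻¹ : Matrix ι ι K) * Matrix.single i i 1 =
      Matrix.single j i t⁻¹ := by rw [Matrix.single_mul_single_same, mul_one]
  have p14 : (Matrix.single j i t⁻¹ : Matrix ι ι K) * Matrix.single j j 1 = 0 :=
    Matrix.single_mul_single_of_ne _ _ _ _ hij _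
  have p15 : (Matrix.single j i t⁻¹ : Matrix ι ι K) * Matrix.single i j (-1) =
      - Matrix.single j j t⁻¹ := by
    rw [Matrix.single_mul_single_same, mul_neg, mul_one, Matrix.single_neg]
  have p16 : (Matrix.single j i t⁻¹ : Matrix ι ι K) * Matrix.single j i (-1) = 0 :=
    Matrix.single_mul_single_of_ne _ _ _ _ hij _
  have key : (1 - Matrix.single i i 1 - Matrix.single j j 1 + Matrix.single i j t -
        Matrix.single j i t⁻¹ : Matrix ι ι K) *
      (1 - Matrix.single i i 1 - Matrix.single j j 1 + Matrix.single i j (-1) -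
        Matrix.single j i (-1)) =
      1 - Matrix.single i i 1 - Matrix.single j j 1 + Matrix.single i i t +
        Matrix.single j j t⁻¹ := by
    simp only [mul_add, mul_sub, add_mul, sub_mul, one_mul, mul_one, p1, p2, p3, p4, p5, p6, p7,
      p8, p9, p10, p11, p12, p13, p14, p15, p16]
    abel
  rw [key]
  ext p q
  rw [Matrix.diagonal_apply]
  simp only [Matrix.add_apply, Matrix.sub_apply, Matrix.one_apply, Matrix.single_apply]
  by_cases hpq : p = q
  · subst hpq
    by_cases hpj : j = p
    · subst hpj
      have : ¬ (i = j) := hij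
      simp [this]
    · by_cases hpi : i = p
      · subst hpi
        simp [hpj, Function.update_of_ne hij]
      · simp [hpj, hpi, Function.update_of_ne (Ne.symm hpj), Function.update_of_ne (Ne.symm hpi)]
  · have h1 : ¬ (i = p ∧ i = q) := fun h => hpq (h.1.symm.trans h.2)
    have h2 : ¬ (j = p ∧ j = q) := fun h => hpq (h.1.symm.trans h.2)
    simp [hpq, h1, h2]

private theorem diag99 (j : ι) (s : Finset ι) : j ∉ s → ∀ d : ι → K, ∏ i, d i = 1 →
    (∀ i, i ∉ s → i ≠ j → d i = 1) → ∃ B ∈ G99 K ι, (B : Matrix ι ι K) = diagonal d := by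
  induction s using Finset.induction_on with
  | empty =>
    intro _ d hd h
    have hj : d j = 1 := by
      rw [← hd, ← Finset.prod_subset (Finset.subset_univ {j})]
      · simp
      · intro x _ hx
        exact h x (Finset.notMem_empty _) (by simpa using hx)
    refine ⟨1, Subgroup.one_mem _, ?_⟩
    have : d = fun _ => 1 := by
      funext x
      by_cases hx : x = j
      · rw [hx, hj]
      · exact h x (Finset.notMem_empty _) hx
    rw [this]
    exact (diagonal_one (n := ι) (α := K)).symm
  | insert a s ha ih =>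
    intro hj d hd h
    have haj : a ≠ j := by
      rintro rfl
      exact hj (Finset.mem_insert_self _ _)
    have hjs : j ∉ s := fun hh => hj (Finset.mem_insert_of_mem hh)
    have hda : d a ≠ 0 := by
      intro h0
      have := Finset.prod_eq_zero (Finset.mem_univ a) h0
      rw [this] at hd
      exact zero_ne_one hd
    obtain ⟨H, hH, hH2⟩ := hdiag99 haj (inv_ne_zero hda)
    obtain ⟨H', hH', hH2'⟩ := hdiag99 haj hda
    set w : ι → K := Function.update (Function.update (1 : ι → K) a (d a)⁻¹) j (d a)⁻¹⁻¹ with hw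
    set w' : ι → K := Function.update (Function.update (1 : ι → K) a (d a)) j (d a)⁻¹ with hw'
    have hww : ∀ x, w x * w' x = 1 := by
      intro x
      by_cases hx : x = j
      · subst hx
        simp only [hw, hw', Function.update_self]
        rw [inv_inv, mul_inv_cancel₀ hda]
      · by_cases hxa : x = a
        · subst hxa
          simp only [hw, hw', Function.update_of_ne hx, Function.update_self]
          rw [inv_mul_cancel₀ hda]
        · simp [hw, hw', Function.update_of_ne hx, Function.update_of_ne hxa]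
    have hwp : ∏ i, w i = 1 := by
      have := congrArg Matrix.det hH2
      rw [det_diagonal] at this
      exact this.symm.trans H.2
    obtain ⟨B, hB, hB2⟩ := ih hjs (fun x => d x * w x) (by
      rw [Finset.prod_mul_distrib, hd, hwp, mul_one]) (by
      intro x hx hxj
      by_cases hxa : x = a
      · subst hxa
        simp only [hw, Function.update_of_ne hxj, Function.update_self]
        exact mul_inv_cancel₀ hda
      · rw [h x (by simp [hxa, hx]) hxj]
        simp [hw, Function.update_of_ne hxj, Function.update_of_ne hxa])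
    refine ⟨B * H', Subgroup.mul_mem _ hB hH', ?_⟩
    rw [mc99, hB2, hH2', diagonal_mul_diagonal]
    congr 1
    funext x
    rw [mul_assoc, hww, mul_one]

theorem tv_generate (A : SpecialLinearGroup ι K) :
    A ∈ Subgroup.closure {T : SpecialLinearGroup ι K | ∃ u k h, T = tv u k h} := by
  obtain ⟨L, L', D, h⟩ := Matrix.Pivot.exists_list_transvec_mul_diagonal_mul_list_transvec
    (A : Matrix ι ι K)
  obtain ⟨B, hB, hB2⟩ := listmem99 L
  obtain ⟨B', hB', hB2'⟩ := listmem99 L'
  have hD : ∏ i, D i = 1 := by
    have := congrArg Matrix.det h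
    rw [det_mul, det_mul, TransvectionStruct.det_toMatrix_prod,
      TransvectionStruct.det_toMatrix_prod, det_diagonal, one_mul, mul_one] at this
    exact this.symm.trans A.2
  have hd : ∃ C ∈ G99 K ι, (C : Matrix ι ι K) = diagonal D := by
    rcases isEmpty_or_nonempty ι with he | ⟨⟨j⟩⟩
    · exact ⟨1, Subgroup.one_mem _, by ext x; exact (he.false x).elim⟩
    · exact diag99 j (Finset.univ.erase j) (Finset.notMem_erase _ _) D hD (by
        intro i hi hij
        exact (hi (Finset.mem_erase.2 ⟨hij, Finset.mem_univ _⟩)).elim)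
  obtain ⟨C, hC, hC2⟩ := hd
  have : A = B * C * B' := by
    apply Subtype.ext
    rw [mc99, mc99, hB2, hB2', hC2, h]
  rw [this]
  exact Subgroup.mul_mem _ (Subgroup.mul_mem _ hB hC) hB'

end Pool.Agent.Helper2.RO
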