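import Mathlib

/-!
# Project RO: permutations of a generating class which respect conjugation extend to the group
-/

set_option autoImplicit false

namespace Pool.Agent.Helper2.RO

variable {L : Type*} [Group L] {D : Type*}

/-- `ρ : D → L` an injective family, closed under conjugation, which generates the finite group `L` and on
which `L` acts faithfully; `T` a permutation of `D` which respects the conjugation of members by members. -/
theorem extend [Finite L] (ρ : D → L) (hinj : Function.Injective ρ)
    (hconj : ∀ g : L, ∀ x : D, ∃ y : D, g * ρ x * g⁻¹ = ρ y)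
    (hgen : Subgroup.closure (Set.range ρ) = ⊤)
    (hfaith : ∀ g : L, (∀ x, g * ρ x * g⁻¹ = ρ x) → g = 1)
    (T : Equiv.Perm D)
    (hT : ∀ x y z : D, ρ x * ρ y * (ρ x)⁻¹ = ρ z → ρ (T x) * ρ (T y) * (ρ (T x))⁻¹ = ρ (T z)) :
    ∃ φ : MulAut L, ∀ x : D, φ (ρ x) = ρ (T x) := by
  classical
  -- the action on the index set
  choose c hc using hconj
  have hc_mul : ∀ g h x, c (g * h) x = c g (c h x) := by
    intro g h x
    apply hinj
    rw [← hc, ← hc, ← hc]
    group
  have hc_one : ∀ x, c 1 x = x := by
    intro x
    apply hinj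
    rw [← hc]
    simp
  let A : L →* Equiv.Perm D :=
    { toFun := fun g =>
        { toFun := c g
          invFun := c g⁻¹
          left_inv := fun x => by rw [← hc_mul, inv_mul_cancel, hc_one]
          right_inv := fun x => by rw [← hc_mul, mul_inv_cancel, hc_one] }
      map_one' := by
        ext1 x
        exact hc_one x
      map_mul' := by
        intro g h
        ext1 x
        exact hc_mul g h x }
  have hA : ∀ g x, A g x = c g x := fun _ _ => rfl
  have hAinj : Function.Injective A := by
    rw [injective_iff_map_eq_one]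
    intro g hg
    apply hfaith
    intro x
    rw [hc]
    congr 1
    rw [← hA, hg]
    rfl
  have hTA : ∀ x, A (ρ (T x)) = T * A (ρ x) * T⁻¹ := by
    intro x
    rw [eq_mul_inv_iff_mul_eq]
    ext1 y
    show c (ρ (T x)) (T y) = T (c (ρ x) y)
    apply hinj
    rw [← hc]
    exact hT x y _ (hc (ρ x) y)
  have hex : ∀ g : L, ∃ g' : L, A g' = T * A g * T⁻¹ := by
    intro g
    have hg : g ∈ Subgroup.closure (Set.range ρ) := by
      rw [hgen]
      exact Subgroup.mem_top g
    induction hg using Subgroup.closure_induction with
    | mem x hx =>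
      obtain ⟨d, rfl⟩ := hx
      exact ⟨ρ (T d), hTA d⟩
    | one => exact ⟨1, by simp⟩
    | mul u v _ _ h1 h2 =>
      obtain ⟨u', hu⟩ := h1
      obtain ⟨v', hv⟩ := h2
      refine ⟨u' * v', ?_⟩
      rw [map_mul, map_mul, hu, hv]
      group
    | inv u _ h1 =>
      obtain ⟨u', hu⟩ := h1
      refine ⟨u'⁻¹, ?_⟩
      rw [map_inv, map_inv, hu]
      group
  choose f hf using hex
  have hmul : ∀ x y, f (x * y) = f x * f y := by
    intro x y
    apply hAinj
    rw [map_mul, hf, hf, hf, map_mul]
    group
  have hfi : Function.Injective f := by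
    intro x y hxy
    apply hAinj
    have h1 := hf x
    rw [hxy, hf y] at h1
    exact (mul_left_cancel (mul_right_cancel h1)).symm
  let F : L →* L := MonoidHom.mk' f hmul
  refine ⟨MulEquiv.ofBijective F (Finite.injective_iff_bijective.1 hfi), fun a => ?_⟩
  show f (ρ a) = ρ (T a)
  apply hAinj
  rw [hf, hTA]

end Pool.Agent.Helper2.RO
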