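import Pool.Agent.Helper2.RO.One5

/-!
# Block RO-S6: the core theorem for rank one idempotents

`all_fixed`: an element of `RK 1` is `w gᵀ`; if `w` is in the span of `v`, `w = s v`, it is `v (s g)ᵀ` and `same_fst`
applies; if `g` is in the span of `f`, `same_snd`; otherwise `general_fixed`.
`core_one`: write `a = v fᵀ` and put `Q X = (1 - 2 a) (P X) (1 - 2 a)`. `Q` is again `Pres 1` (`(1 - 2 a)² = 1`, the
conjugate of `w gᵀ` is `(w - 2 (f · w) v) (g - 2 (g · v) f)ᵀ`), fixes `a` and the `Y` commuting with `a`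
(`(1 - 2 a) Y (1 - 2 a) = Y`). If `2 trace (a X) = 1`, `X = w gᵀ`, then `(f · w) (g · v) = 1/2`, `w` is not in the
span of `v` (`w = s v` gives `f · w = s`, `g · v = 1/s`) and `g` not in the span of `f`, so by `step_one`
`P X = (w + β v) (g + γ f)ᵀ` and by `hS` `0 = g · (w + β v) = 1 + β (g · v)`, `0 = (g + γ f) · w = 1 + γ (f · w)`, so
`β = - 2 (f · w)`, `γ = - 2 (g · v)`, and `P X` is the conjugate of `X`, that is `Q X = X`. By `all_fixed`
`Q = 1` on `RK 1`, so `P X = (1 - 2 a) X (1 - 2 a)`.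
-/

set_option autoImplicit false

open Matrix

namespace Pool.Agent.Helper2.RO

variable {K : Type*} [Field K] {ι : Type*} [Fintype ι] [DecidableEq ι]

theorem all_fixed (hn : 3 ≤ Fintype.card ι) (h2 : (2 : K) ≠ 0)
    {P : Matrix ι ι K → Matrix ι ι K} (hP : Pres 1 P) {v f : ι → K} (hvf : f ⬝ᵥ v = 1)
    (ha : P (vecMulVec v f) = vecMulVec v f)
    (hfix : ∀ Y ∈ RK (1 : K), vecMulVec v f * Y = 0 → Y * vecMulVec v f = 0 → P Y = Y)
    (hS : ∀ Y ∈ RK (1 : K), 2 * trace (vecMulVec v f * Y) = 1 → P Y = Y) :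
    ∀ X ∈ RK (1 : K), P X = X := by
  rintro X ⟨w, g, -, -, hwg, rfl⟩
  by_cases hw : w ∈ Submodule.span K {v}
  · obtain ⟨s, rfl⟩ := Submodule.mem_span_singleton.1 hw
    have h1 : vecMulVec (s • v) g = vecMulVec v (s • g) := by
      ext i j
      simp only [vecMulVec_apply, Pi.smul_apply, smul_eq_mul]
      ring
    rw [h1]
    refine same_fst hn h2 hP hvf ha hfix hS ?_
    rw [smul_dotProduct, ← dotProduct_smul, hwg]
  by_cases hg : g ∈ Submodule.span K {f}
  · obtain ⟨s, rfl⟩ := Submodule.mem_span_singleton.1 hg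
    have h1 : vecMulVec w (s • f) = vecMulVec (s • w) f := by
      ext i j
      simp only [vecMulVec_apply, Pi.smul_apply, smul_eq_mul]
      ring
    rw [h1]
    refine same_snd hn h2 hP hvf ha hfix hS ?_
    rw [dotProduct_smul, ← smul_dotProduct, hwg]
  exact general_fixed hn h2 hP hvf hfix hS hwg hw hg

omit [DecidableEq ι] in
private theorem mulVec_h30 (v f u : ι → K) : vecMulVec v f *ᵥ u = (f ⬝ᵥ u) • v := by
  ext i
  simp only [mulVec, dotProduct, vecMulVec_apply, Pi.smul_apply, smul_eq_mul, Finset.sum_mul]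
  exact Finset.sum_congr rfl fun k _ => by ring

omit [DecidableEq ι] in
private theorem vecMul_h30 (v f u : ι → K) : u ᵥ* vecMulVec v f = (u ⬝ᵥ v) • f := by
  ext i
  simp only [vecMul, dotProduct, vecMulVec_apply, Pi.smul_apply, smul_eq_mul, Finset.sum_mul]
  exact Finset.sum_congr rfl fun k _ => by ring

/-- conjugation by an involution preserves `Pres 1` -/
private theorem conj_pres_h30 {R : Matrix ι ι K} (hR : R * R = 1) {P : Matrix ι ι K → Matrix ι ι K}
    (hP : Pres 1 P) : Pres 1 (fun X => R * P X * R) := by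
  have hprod : ∀ A B : Matrix ι ι K, R * A * R * (R * B * R) = R * (A * B) * R := by
    intro A B
    calc R * A * R * (R * B * R) = R * A * (R * R) * B * R := by simp only [Matrix.mul_assoc]
      _ = R * (A * B) * R := by rw [hR, Matrix.mul_one]; simp only [Matrix.mul_assoc]
  have htr : ∀ A B : Matrix ι ι K, trace (R * A * R * (R * B * R)) = trace (A * B) := by
    intro A B
    rw [hprod, trace_mul_comm, ← Matrix.mul_assoc, hR, Matrix.one_mul]
  have hz : ∀ A : Matrix ι ι K, R * A * R = 0 ↔ A = 0 := by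
    intro A
    constructor
    · intro h
      have h1 : R * (R * A * R) * R = A := by
        calc R * (R * A * R) * R = (R * R) * A * (R * R) := by simp only [Matrix.mul_assoc]
          _ = A := by rw [hR, Matrix.mul_one, Matrix.one_mul]
      rw [← h1, h, Matrix.mul_zero, Matrix.zero_mul]
    · rintro rfl
      rw [Matrix.mul_zero, Matrix.zero_mul]
  refine ⟨?_, ?_, ?_, ?_⟩
  · intro X hX
    obtain ⟨w, g, -, -, hwg, hPX⟩ := hP.mem X hX
    show R * P X * R ∈ RK (1 : K)
    rw [hPX, mul_vecMulVec, vecMulVec_mul]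
    refine mk_mem_one ?_
    rw [dotProduct_mulVec, vecMul_vecMul, hR, vecMul_one, hwg]
  · intro X hX Y hY
    show trace (R * P X * R * (R * P Y * R)) = 0 ↔ _
    rw [htr, hP.zero X hX Y hY]
  · intro X hX Y hY
    show trace (R * P X * R * (R * P Y * R)) = 1 ↔ _
    rw [htr, hP.one X hX Y hY]
  · intro X hX Y hY
    show (R * P X * R * (R * P Y * R) = 0 ∧ R * P Y * R * (R * P X * R) = 0) ↔ _
    rw [hprod, hprod, hz, hz, hP.comm X hX Y hY]

/-- The core theorem for rank one idempotents. -/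
theorem core_one (hn : 3 ≤ Fintype.card ι) (h2 : (2 : K) ≠ 0)
    {P : Matrix ι ι K → Matrix ι ι K} (hP : Pres 1 P) {a : Matrix ι ι K} (ha : a ∈ RK (1 : K))
    (hPa : P a = a) (hfix : ∀ Y ∈ RK (1 : K), a * Y = 0 → Y * a = 0 → P Y = Y)
    (hS : ∀ X ∈ RK (1 : K), 2 * trace (a * X) = 1 → X * P X = 0 ∧ P X * X = 0) :
    ∀ X ∈ RK (1 : K), P X = (1 - (2 : K) • a) * X * (1 - (2 : K) • a) := by
  have haa : a * a = a := by
    have h1 := (mem_cases ha).2.2
    rwa [one_smul] at h1
  obtain ⟨R, hRdef⟩ : ∃ R : Matrix ι ι K, R = 1 - (2 : K) • a := ⟨_, rfl⟩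
  have hRa : R * a = -a := by
    rw [hRdef, Matrix.sub_mul, Matrix.one_mul, Matrix.smul_mul, haa, two_smul]
    abel
  have haR : a * R = -a := by
    rw [hRdef, Matrix.mul_sub, Matrix.mul_one, Matrix.mul_smul, haa, two_smul]
    abel
  have hR : R * R = 1 := by
    conv_lhs => rw [hRdef]
    rw [Matrix.sub_mul, Matrix.one_mul, Matrix.smul_mul, ← hRdef, haR, hRdef, two_smul, two_smul]
    abel
  rw [← hRdef]
  have hQ := conj_pres_h30 hR hP
  obtain ⟨v, f, hv, hf, hvf, rfl⟩ := ha
  have key : ∀ X ∈ RK (1 : K), R * P X * R = X := by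
    refine all_fixed hn h2 hQ hvf ?_ ?_ ?_
    · show R * P (vecMulVec v f) * R = vecMulVec v f
      rw [hPa, hRa, Matrix.neg_mul, haR, neg_neg]
    · intro Y hY h3 h4
      show R * P Y * R = Y
      rw [hfix Y hY h3 h4, hRdef, Matrix.sub_mul, Matrix.one_mul, Matrix.smul_mul, h3, smul_zero,
        sub_zero, Matrix.mul_sub, Matrix.mul_one, Matrix.mul_smul, h4, smul_zero, sub_zero]
    · intro Y hY h3
      have h5 := hS Y hY h3
      obtain ⟨w, g, hw0, hg0, hwg, rfl⟩ := hY
      show R * P (vecMulVec w g) * R = vecMulVec w g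
      rw [trace_mul_eq] at h3
      have hw : w ∉ Submodule.span K {v} := by
        intro hw
        obtain ⟨s, rfl⟩ := Submodule.mem_span_singleton.1 hw
        rw [dotProduct_smul, smul_eq_mul] at hwg
        rw [dotProduct_smul, hvf, smul_eq_mul, mul_one, hwg, mul_one] at h3
        have h6 : (1 : K) + 1 = 1 := by rw [one_add_one_eq_two]; exact h3
        exact one_ne_zero (add_eq_left.1 h6)
      have hg : g ∉ Submodule.span K {f} := by
        intro hg
        obtain ⟨s, rfl⟩ := Submodule.mem_span_singleton.1 hg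
        rw [smul_dotProduct, smul_eq_mul] at hwg
        rw [smul_dotProduct, hvf, smul_eq_mul, mul_one, mul_comm (f ⬝ᵥ w) s, hwg, mul_one] at h3
        have h6 : (1 : K) + 1 = 1 := by rw [one_add_one_eq_two]; exact h3
        exact one_ne_zero (add_eq_left.1 h6)
      obtain ⟨β, γ, h6, -⟩ := step_one hn hP hvf hfix hwg hw hg
      rw [h6] at h5 ⊢
      have hw1 : w + β • v ≠ 0 := by
        intro h7
        apply hw
        rw [Submodule.mem_span_singleton]
        exact ⟨-β, by rw [neg_smul, eq_comm]; exact eq_neg_of_add_eq_zero_left h7⟩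
      have hg1 : g + γ • f ≠ 0 := by
        intro h7
        apply hg
        rw [Submodule.mem_span_singleton]
        exact ⟨-γ, by rw [neg_smul, eq_comm]; exact eq_neg_of_add_eq_zero_left h7⟩
      have h8 : g ⬝ᵥ (w + β • v) = 0 := (mul_eq_zero_iff hw0 hg1).1 h5.1
      have h9 : (g + γ • f) ⬝ᵥ w = 0 := (mul_eq_zero_iff hw1 hg0).1 h5.2
      rw [dotProduct_add, dotProduct_smul, hwg, smul_eq_mul] at h8
      rw [add_dotProduct, smul_dotProduct, hwg, smul_eq_mul] at h9
      have hβ : β = -(2 * (f ⬝ᵥ w)) := by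
        linear_combination (2 * (f ⬝ᵥ w)) * h8 - β * h3
      have hγ : γ = -(2 * (g ⬝ᵥ v)) := by
        linear_combination (2 * (g ⬝ᵥ v)) * h9 - γ * h3
      rw [mul_vecMulVec, vecMulVec_mul]
      have e1 : R *ᵥ (w + β • v) = w := by
        rw [hRdef, sub_mulVec, one_mulVec, smul_mulVec, mulVec_h30, dotProduct_add, dotProduct_smul,
          hvf, smul_smul, hβ]
        ext i
        simp only [Pi.add_apply, Pi.sub_apply, Pi.smul_apply, smul_eq_mul]
        ring
      have e2 : (g + γ • f) ᵥ* R = g := by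
        rw [hRdef, vecMul_sub, vecMul_one, vecMul_smul, vecMul_h30, add_dotProduct, smul_dotProduct,
          hvf, smul_smul, hγ]
        ext i
        simp only [Pi.add_apply, Pi.sub_apply, Pi.smul_apply, smul_eq_mul]
        ring
      rw [e1, e2]
  intro X hX
  have h1 := key X hX
  calc P X = (R * R) * P X * (R * R) := by rw [hR, Matrix.mul_one, Matrix.one_mul]
    _ = R * (R * P X * R) * R := by simp only [Matrix.mul_assoc]
    _ = R * X * R := by rw [h1]

end Pool.Agent.Helper2.RO
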