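import Pool.Agent.Helper2.RO.Defs

/-!
# Block RO-O2: orders of products of two reflections, part 2

Let `X ≠ Y` be rank one idempotents, `t = trace (X Y)`, `u = (1 - 2 X) (1 - 2 Y)`, `p` the odd characteristic,
`m = u - 1 = - 2 X - 2 Y + 4 X Y`. One has `X X = X`, `Y Y = Y` (`mem_cases`), `X Y X = t X`, `Y X Y = t Y` (`xyx`,
`trace_mul_comm`), and `u ≠ 1` (else `1 - 2 X = 1 - 2 Y` because `(1 - 2 X)² = 1`).
`odd_one`: if `t = 1` then `m * m = 4 (X Y + Y X - X - Y)` and `m * (m * m) = 0`, so (`3 ≤ p`)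
`u^p - 1 = (u - 1)^p = 0` (`sub_pow_char_of_commute`) and the order is the prime `p`. Conversely, if the order is `p` then
`(u - 1)^p = 0`, so `u - 1` is nilpotent and has trace `0` (`Matrix.isNilpotent_trace_of_isNilpotent`), and its
trace is `4 t - 4`.
`odd_four`: for `2 t = 1` one has `m * m = 4 (Y X - X Y)` and `m * (2 + 2 m + m²) = 0`, that is
`(u - 1) (u² + 1) = 0`, so `u⁴ = 1`. And `u² ≠ 1`: else `u = u⁻¹ = (1 - 2 Y) (1 - 2 X)`, `X Y = Y X`,
`X Y = X Y X = t X` and `X Y = Y X Y = t Y`, so `t X = t Y` and `X = Y`.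
-/

set_option autoImplicit false

open Matrix

namespace Pool.Agent.Helper2.RO

variable {K : Type*} [Field K] {ι : Type*} [Fintype ι] [DecidableEq ι]

omit [DecidableEq ι] in
private theorem basics_h54 {X Y : Matrix ι ι K} (hX : X ∈ RK (1 : K)) (hY : Y ∈ RK (1 : K)) :
    X * X = X ∧ Y * Y = Y ∧ X * (Y * X) = trace (X * Y) • X ∧ Y * (X * Y) = trace (X * Y) • Y := by
  refine ⟨?_, ?_, ?_, ?_⟩
  · rw [(mem_cases hX).2.2, one_smul]
  · rw [(mem_cases hY).2.2, one_smul]
  · rw [← mul_assoc, xyx hX hY]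
  · rw [← mul_assoc, xyx hY hX, trace_mul_comm]

private theorem u_eq_h54 (X Y : Matrix ι ι K) :
    (1 - (2 : K) • X) * (1 - (2 : K) • Y) = 1 + ((-2 : K) • X + (-2 : K) • Y + (4 : K) • (X * Y)) := by
  simp only [sub_mul, mul_sub, mul_one, one_mul, smul_mul_assoc, mul_smul_comm]
  module

private theorem sq_h54 {X Y : Matrix ι ι K} (hX : X ∈ RK (1 : K)) (hY : Y ∈ RK (1 : K)) :
    ((-2 : K) • X + (-2 : K) • Y + (4 : K) • (X * Y)) * ((-2 : K) • X + (-2 : K) • Y + (4 : K) • (X * Y)) =
      (4 - 8 * trace (X * Y)) • X + (4 - 8 * trace (X * Y)) • Y +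
        (16 * trace (X * Y) - 12) • (X * Y) + (4 : K) • (Y * X) := by
  obtain ⟨h1, h2, h3, h4⟩ := basics_h54 hX hY
  generalize trace (X * Y) = t at h3 h4 ⊢
  have h5 : X * (X * Y) = X * Y := by rw [← mul_assoc, h1]
  simp only [add_mul, mul_add, smul_mul_assoc, mul_smul_comm, mul_assoc, h1, h2, h3, h4, h5]
  module

private theorem ne_one_h54 (h2 : (2 : K) ≠ 0) {X Y : Matrix ι ι K}
    (hX : X ∈ RK (1 : K)) (hY : Y ∈ RK (1 : K)) (hXY : X ≠ Y) :
    (1 - (2 : K) • X) * (1 - (2 : K) • Y) ≠ 1 := by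
  intro h
  apply hXY
  obtain ⟨h1, h3, -, -⟩ := basics_h54 hX hY
  have h5 : X * (X * Y) = X * Y := by rw [← mul_assoc, h1]
  rw [u_eq_h54] at h
  have h6 : (-2 : K) • X + (-2 : K) • Y + (4 : K) • (X * Y) = 0 := by
    have := congrArg (fun z => z - 1) h
    simpa using this
  have h7 : X = X * Y := by
    have h8 := congrArg (fun z => X * z) h6
    simp only [mul_add, mul_smul_comm, h1, h5, mul_zero] at h8
    have h9 : (2 : K) • X = (2 : K) • (X * Y) := by
      rw [← sub_eq_zero]
      rw [← neg_eq_zero, ← h8]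
      module
    exact smul_right_injective _ h2 h9
  have h7' : Y = X * Y := by
    have h8 := congrArg (fun z => z * Y) h6
    simp only [add_mul, smul_mul_assoc, mul_assoc, h3, zero_mul] at h8
    have h9 : (2 : K) • Y = (2 : K) • (X * Y) := by
      rw [← sub_eq_zero]
      rw [← neg_eq_zero, ← h8]
      module
    exact smul_right_injective _ h2 h9
  rw [h7]
  exact h7'.symm

theorem odd_one (p : ℕ) [Fact p.Prime] [CharP K p] (h2 : (2 : K) ≠ 0) {X Y : Matrix ι ι K}
    (hX : X ∈ RK (1 : K)) (hY : Y ∈ RK (1 : K)) (hXY : X ≠ Y) :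
    orderOf ((1 - (2 : K) • X) * (1 - (2 : K) • Y)) = p ↔ trace (X * Y) = 1 := by
  have hne : Nonempty ι := by
    by_contra hemp
    rw [not_nonempty_iff] at hemp
    exact hXY (Matrix.ext fun i => (hemp.false i).elim)
  have hp : p.Prime := Fact.out
  have hp2 : p ≠ 2 := by
    rintro rfl
    apply h2
    exact_mod_cast CharP.cast_eq_zero K 2
  have hp3 : 3 ≤ p := by
    have := hp.two_le
    omega
  constructor
  · intro h
    have h3 : ((1 - (2 : K) • X) * (1 - (2 : K) • Y)) ^ p = 1 := by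
      conv_lhs => rw [← h]
      exact pow_orderOf_eq_one _
    have h4 : ((1 - (2 : K) • X) * (1 - (2 : K) • Y) - 1) ^ p = 0 := by
      rw [sub_pow_char_of_commute p (Commute.one_right _), h3, one_pow, sub_self]
    have h5 : IsNilpotent (trace ((1 - (2 : K) • X) * (1 - (2 : K) • Y) - 1)) :=
      Matrix.isNilpotent_trace_of_isNilpotent ⟨p, h4⟩
    have h6 := h5.eq_zero
    rw [u_eq_h54, add_sub_cancel_left, trace_add, trace_add, trace_smul, trace_smul, trace_smul,
      (mem_cases hX).2.1, (mem_cases hY).2.1] at h6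
    simp only [smul_eq_mul] at h6
    have h7 : (2 : K) * 2 * (trace (X * Y) - 1) = 0 := by linear_combination h6
    have h8 := (mul_eq_zero.1 h7).resolve_left (mul_ne_zero h2 h2)
    exact sub_eq_zero.1 h8
  · intro h
    apply orderOf_eq_prime
    · have h3 : ((1 - (2 : K) • X) * (1 - (2 : K) • Y) - 1) ^ 3 = 0 := by
        rw [u_eq_h54, add_sub_cancel_left, pow_succ, pow_two, sq_h54 hX hY]
        obtain ⟨h1, h2, h3, h4⟩ := basics_h54 hX hY
        rw [h] at h3 h4 ⊢
        rw [one_smul] at h3 h4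
        have h5 : X * (X * Y) = X * Y := by rw [← mul_assoc, h1]
        simp only [add_mul, mul_add, smul_mul_assoc, mul_smul_comm, mul_assoc, h1, h2, h3, h4, h5]
        module
      have h4 : ((1 - (2 : K) • X) * (1 - (2 : K) • Y) - 1) ^ p = 0 := pow_eq_zero_of_le hp3 h3
      rw [sub_pow_char_of_commute p (Commute.one_right _), one_pow, sub_eq_zero] at h4
      exact h4
    · exact ne_one_h54 h2 hX hY hXY

theorem odd_four (h2 : (2 : K) ≠ 0) {X Y : Matrix ι ι K} (hX : X ∈ RK (1 : K))
    (hY : Y ∈ RK (1 : K)) (h : 2 * trace (X * Y) = 1) :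
    orderOf ((1 - (2 : K) • X) * (1 - (2 : K) • Y)) = 4 := by
  have hm := sq_h54 hX hY
  obtain ⟨h1, h3, h4, h5⟩ := basics_h54 hX hY
  have h6 : X * (X * Y) = X * Y := by rw [← mul_assoc, h1]
  have h7 : Y * (Y * X) = Y * X := by rw [← mul_assoc, h3]
  rw [u_eq_h54]
  have hm2 : ((-2 : K) • X + (-2 : K) • Y + (4 : K) • (X * Y)) *
      ((-2 : K) • X + (-2 : K) • Y + (4 : K) • (X * Y)) = (-4 : K) • (X * Y) + (4 : K) • (Y * X) := by
    rw [hm]
    have e1 : (4 - 8 * trace (X * Y) : K) = 0 := by linear_combination (-4) * h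
    have e2 : (16 * trace (X * Y) - 12 : K) = -4 := by linear_combination 8 * h
    rw [e1, e2]
    module
  generalize hM : (-2 : K) • X + (-2 : K) • Y + (4 : K) • (X * Y) = m at hm2 ⊢
  have hm3 : m * (m * m) + (2 : K) • (m * m) + (2 : K) • m = 0 := by
    rw [hm2]
    rw [← hM]
    simp only [add_mul, mul_add, smul_mul_assoc, mul_smul_comm, mul_assoc, h4, h5, h6, h7]
    have e1 : trace (X * Y) • X = ((2 : K)⁻¹) • X := by
      congr 1
      field_simp
      linear_combination h
    have e2 : trace (X * Y) • Y = ((2 : K)⁻¹) • Y := by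
      congr 1
      field_simp
      linear_combination h
    have e3 : trace (X * Y) • (X * Y) = ((2 : K)⁻¹) • (X * Y) := by
      congr 1
      field_simp
      linear_combination h
    simp only [e1, e2, e3]
    match_scalars <;> field_simp <;> ring
  have h44 : orderOf (1 + m) = 2 ^ (1 + 1) := by
    apply orderOf_eq_prime_pow
    · intro h8
      rw [pow_one] at h8
      have h9 : m * m + (2 : K) • m = 0 := by
        have : (1 + m) ^ 2 = 1 + (m * m + (2 : K) • m) := by
          rw [pow_two, two_smul]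
          noncomm_ring
        rw [this] at h8
        exact add_eq_left.1 h8
      rw [hm2, ← hM] at h9
      have h10 := congrArg (fun z => X * z) h9
      simp only [mul_add, mul_smul_comm, h1, h4, h6, mul_zero] at h10
      have h11 : (4 * trace (X * Y) - 4 : K) • X = 0 := by
        rw [← h10]
        module
      rcases smul_eq_zero.1 h11 with h12 | h12
      · have h13 : (2 : K) = 0 := by linear_combination 2 * h - h12
        exact h2 h13
      · exact (mem_cases hX).1 h12
    · have h8 : (1 + m) ^ (2 ^ (1 + 1)) - 1 = (m + (1 + 1)) * (m * (m * m) + (2 : K) • (m * m) + (2 : K) • m) := by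
        rw [two_smul, two_smul]
        norm_num only [pow_succ, pow_zero]
        noncomm_ring
      rw [hm3, mul_zero, sub_eq_zero] at h8
      exact h8
  rw [h44]
  norm_num

end Pool.Agent.Helper2.RO
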