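import Pool.Agent.Helper2.RO.Defs

/-!
# Project RO: the elements of `PSL(n, K)` defined by rank one matrices

For `X` in `RK c` the matrix `κ (1 + s X)` has determinant `κ^n (1 + s c)`. `Par` collects the conditions on
`c`, `s`, `κ` under which it is in `SL(n, K)` and squares to a scalar: `c = 1`, `s = -2`, `κ^n = -1` or
`2 = 0`, `c = 0`, `s = 1`, `κ^n = 1`.
-/

set_option autoImplicit false

open Matrix

namespace Pool.Agent.Helper2.RO

variable {K : Type*} [Field K] {ι : Type*} [Fintype ι] [DecidableEq ι]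

/-- The matrix `κ (1 + s X)`. -/
def el (κ s : K) (X : Matrix ι ι K) : Matrix ι ι K := κ • (1 + s • X)

theorem det_el (κ s : K) {c : K} {X : Matrix ι ι K} (hX : X ∈ RK c) :
    det (el κ s X) = κ ^ Fintype.card ι * (1 + s * c) := by
  obtain ⟨w, g, -, -, h, rfl⟩ := hX
  rw [el, det_smul]
  congr 1
  have h1 : s • vecMulVec w g = replicateCol (Fin 1) (s • w) * replicateRow (Fin 1) g := by
    ext i j
    simp [vecMulVec_apply, mul_apply, mul_assoc]
  rw [h1, det_one_add_mul_comm, det_fin_one, Matrix.add_apply, Matrix.one_apply_eq,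
    replicateRow_mul_replicateCol_apply, dotProduct_smul, h, smul_eq_mul]

variable (ι) in
/-- The conditions on the parameters. -/
structure Par (c s κ : K) : Prop where
  hs : s ≠ 0
  hc : 2 + s * c = 0
  hdet : κ ^ Fintype.card ι * (1 + s * c) = 1

/-- The element of `SL(n, K)`. -/
def rho {c s κ : K} (h : Par ι c s κ) (X : RK (ι := ι) c) : SpecialLinearGroup ι K :=
  ⟨el κ s X, by rw [det_el κ s X.2, h.hdet]⟩

/-- The element of `PSL(n, K)`. -/
def rh {c s κ : K} (h : Par ι c s κ) (X : RK (ι := ι) c) : ProjectiveSpecialLinearGroup ι K :=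
  QuotientGroup.mk (rho h X)

theorem rho_val {c s κ : K} (h : Par ι c s κ) (X : RK (ι := ι) c) :
    (rho h X : Matrix ι ι K) = κ • (1 + s • (X : Matrix ι ι K)) := rfl

theorem sq_one {c s κ : K} (h : Par ι c s κ) {X : Matrix ι ι K} (hX : X ∈ RK c) :
    (1 + s • X) * (1 + s • X) = 1 := by
  obtain ⟨-, -, h1⟩ := mem_cases hX
  have h2 : (1 + s • X) * (1 + s • X) = 1 + (s * (2 + s * c)) • X := by
    rw [mul_add, mul_one, add_mul, one_mul, smul_mul_smul_comm, h1, smul_smul]
    module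
  rw [h2, h.hc, mul_zero, zero_smul, add_zero]

/-- Conjugates by invertible matrices. -/
theorem conj_mem {c : K} {X : Matrix ι ι K} (hX : X ∈ RK c) {A B : Matrix ι ι K} (h : B * A = 1) :
    A * X * B ∈ RK c := by
  obtain ⟨w, g, hw, hg, hgw, rfl⟩ := hX
  have hAB : A * B = 1 := mul_eq_one_comm.1 h
  refine ⟨A *ᵥ w, g ᵥ* B, ?_, ?_, ?_, ?_⟩
  · intro h0
    apply hw
    have : B *ᵥ (A *ᵥ w) = w := by rw [mulVec_mulVec, h, one_mulVec]
    rw [← this, h0, mulVec_zero]
  · intro h0
    apply hg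
    have : (g ᵥ* B) ᵥ* A = g := by rw [vecMul_vecMul, h, vecMul_one]
    rw [← this, h0, zero_vecMul]
  · rw [← dotProduct_mulVec, mulVec_mulVec, h, one_mulVec, hgw]
  · rw [mul_vecMulVec, vecMulVec_mul]

theorem refl_conj_mem {c s κ : K} (h : Par ι c s κ) {X Y : Matrix ι ι K} (hX : X ∈ RK c)
    (hY : Y ∈ RK c) : (1 + s • X) * Y * (1 + s • X) ∈ RK c :=
  conj_mem hY (sq_one h hX)

end Pool.Agent.Helper2.RO
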