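import Pool.Agent.Helper2.RO.OrdA
import Pool.Agent.Helper2.RO.OrdB
import Pool.Agent.Helper2.RO.One6
import Pool.Agent.Helper2.RO.Psl

/-!
# Block RO-C1: permutations of the reflections which preserve the orders commute with conjugation

`1 + (-2) X = 1 - 2 X`. Let `p` be the characteristic of the finite field `K` (`CharP.exists`,
`CharP.char_is_prime_or_zero`); `p ≠ 2`. By `odd_two`, `odd_zero`, `odd_one` and `hT`, `T` and `T.symm` preserve the relations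
`X Y = Y X = 0`, `trace (X Y) = 0`, `trace (X Y) = 1` (for `X = Y` all are clear: `X X = X ≠ 0`, `trace X = 1 ≠ 0`).
Fix `X` and put `P Z = T ((1 - 2 X) (T⁻¹ Z) (1 - 2 X))` for `Z` in `RK 1` and `P Z = Z` for all other matrices `Z`. It is
`Pres 1` (conjugation by `1 - 2 X` preserves the relations: `(1 - 2 X)² = 1`). Put `a = T X`. `P a = a`, as
`(1 - 2 X) X (1 - 2 X) = X`. If `a Z = Z a = 0` then `X (T⁻¹ Z) = (T⁻¹ Z) X = 0`, so `(1 - 2 X) (T⁻¹ Z) (1 - 2 X) = T⁻¹ Z` and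
`P Z = Z`. If `2 trace (a Z) = 1` then (`odd_four`) the order of `(1 - 2 a) (1 - 2 Z)` is `4` (`a ≠ Z`, because
`trace (a a) = 1`), so with `W = T⁻¹ Z` the order of `(1 - 2 X) (1 - 2 W)` is `4`, hence, with
`W' = (1 - 2 X) W (1 - 2 X)`, `(1 - 2 W) (1 - 2 W') = ((1 - 2 W) (1 - 2 X))²` has order `2` (and `W ≠ W'`); so has
`(1 - 2 Z) (1 - 2 P Z)`, and `Z (P Z) = (P Z) Z = 0` by `odd_two`. By `core_one` `P Z = (1 - 2 a) Z (1 - 2 a)`; take
`Z = T Y`.
-/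

set_option autoImplicit false

open Matrix

namespace Pool.Agent.Helper2.RO

variable {K : Type*} [Field K] {ι : Type*} [Fintype ι] [DecidableEq ι]

/-- the relations are preserved -/
private def Gd24 (F : RK (ι := ι) (1 : K) → RK (ι := ι) (1 : K)) : Prop :=
  ∀ Z W : RK (ι := ι) (1 : K),
    (trace ((F Z : Matrix ι ι K) * (F W : Matrix ι ι K)) = 0 ↔
      trace ((Z : Matrix ι ι K) * (W : Matrix ι ι K)) = 0) ∧
    (trace ((F Z : Matrix ι ι K) * (F W : Matrix ι ι K)) = 1 ↔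
      trace ((Z : Matrix ι ι K) * (W : Matrix ι ι K)) = 1) ∧
    (((F Z : Matrix ι ι K) * (F W : Matrix ι ι K) = 0 ∧ (F W : Matrix ι ι K) * (F Z : Matrix ι ι K) = 0) ↔
      ((Z : Matrix ι ι K) * (W : Matrix ι ι K) = 0 ∧ (W : Matrix ι ι K) * (Z : Matrix ι ι K) = 0))

omit [DecidableEq ι] in
private theorem gd_comp24 {F G : RK (ι := ι) (1 : K) → RK (ι := ι) (1 : K)} (hF : Gd24 F)
    (hG : Gd24 G) : Gd24 (fun Z => F (G Z)) := by
  intro Z W
  obtain ⟨a1, a2, a3⟩ := hF (G Z) (G W)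
  obtain ⟨b1, b2, b3⟩ := hG Z W
  exact ⟨a1.trans b1, a2.trans b2, a3.trans b3⟩

omit [DecidableEq ι] in
private theorem gd_symm24 {T : Equiv.Perm (RK (ι := ι) (1 : K))} (hT : Gd24 (fun Z => T Z)) :
    Gd24 (fun Z => T.symm Z) := by
  intro Z W
  have h1 := hT (T.symm Z) (T.symm W)
  simp only [Equiv.apply_symm_apply] at h1
  obtain ⟨a1, a2, a3⟩ := h1
  exact ⟨a1.symm, a2.symm, a3.symm⟩

omit [DecidableEq ι] in
private theorem sq_ne24 {X : Matrix ι ι K} (hX : X ∈ RK (1 : K)) : X * X = X ∧ X ≠ 0 ∧ trace X = 1 := by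
  obtain ⟨h1, h2, h3⟩ := mem_cases hX
  rw [one_smul] at h3
  exact ⟨h3, h1, h2⟩

private theorem eq24 (X Y : Matrix ι ι K) :
    (1 + (-2 : K) • X) * (1 + (-2 : K) • Y) = (1 - (2 : K) • X) * (1 - (2 : K) • Y) := by
  rw [neg_smul, neg_smul, ← sub_eq_add_neg, ← sub_eq_add_neg]

/-- an order preserving permutation preserves the relations -/
private theorem gd_T24 [Finite K] (h2 : (2 : K) ≠ 0) (T : Equiv.Perm (RK (ι := ι) (1 : K)))
    (hT : ∀ X Y : RK (ι := ι) (1 : K), X ≠ Y →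
      orderOf ((1 - (2 : K) • (T X : Matrix ι ι K)) * (1 - (2 : K) • (T Y : Matrix ι ι K))) =
      orderOf ((1 - (2 : K) • (X : Matrix ι ι K)) * (1 - (2 : K) • (Y : Matrix ι ι K)))) :
    Gd24 (fun Z => T Z) := by
  obtain ⟨p, hp⟩ := CharP.exists K
  have hp0 : p ≠ 0 := by
    rintro rfl
    have := CharP.charP_to_charZero K
    exact not_finite K
  have hpp : Fact p.Prime := ⟨(CharP.char_is_prime_or_zero K p).resolve_right hp0⟩
  intro Z W
  by_cases hZW : Z = W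
  · subst hZW
    obtain ⟨a1, a2, a3⟩ := sq_ne24 (T Z).2
    obtain ⟨b1, b2, b3⟩ := sq_ne24 Z.2
    show (trace ((T Z : Matrix ι ι K) * (T Z : Matrix ι ι K)) = 0 ↔ _) ∧
      (trace ((T Z : Matrix ι ι K) * (T Z : Matrix ι ι K)) = 1 ↔ _) ∧
      ((((T Z : Matrix ι ι K) * (T Z : Matrix ι ι K)) = 0 ∧ ((T Z : Matrix ι ι K) * (T Z : Matrix ι ι K)) = 0) ↔ _)
    rw [a1, a3, b1, b3]
    exact ⟨Iff.rfl, Iff.rfl, ⟨fun h => absurd h.1 a2, fun h => absurd h.1 b2⟩⟩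
  · have hTZW : (T Z : Matrix ι ι K) ≠ (T W : Matrix ι ι K) := fun h =>
      hZW (T.injective (Subtype.ext h))
    have hZW' : (Z : Matrix ι ι K) ≠ (W : Matrix ι ι K) := fun h => hZW (Subtype.ext h)
    have h3 := hT Z W hZW
    refine ⟨?_, ?_, ?_⟩
    · rw [← odd_zero p h2 (T Z).2 (T W).2 hTZW, ← odd_zero p h2 Z.2 W.2 hZW', h3]
    · rw [← odd_one p h2 (T Z).2 (T W).2 hTZW, ← odd_one p h2 Z.2 W.2 hZW', h3]
    · rw [← odd_two h2 (T Z).2 (T W).2 hTZW, ← odd_two h2 Z.2 W.2 hZW', h3]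

private theorem conj_zero24 {R : Matrix ι ι K} (hR : R * R = 1) (A : Matrix ι ι K) :
    R * A * R = 0 ↔ A = 0 := by
  constructor
  · intro h
    have h1 : R * (R * A * R) * R = A := by
      calc R * (R * A * R) * R = (R * R) * A * (R * R) := by simp only [Matrix.mul_assoc]
        _ = A := by rw [hR, Matrix.mul_one, Matrix.one_mul]
    rw [← h1, h, Matrix.mul_zero, Matrix.zero_mul]
  · rintro rfl
    rw [Matrix.mul_zero, Matrix.zero_mul]

private theorem conj_rel24 {R : Matrix ι ι K} (hR : R * R = 1) (Z W : Matrix ι ι K) :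
    (trace (R * Z * R * (R * W * R)) = 0 ↔ trace (Z * W) = 0) ∧
    (trace (R * Z * R * (R * W * R)) = 1 ↔ trace (Z * W) = 1) ∧
    ((R * Z * R * (R * W * R) = 0 ∧ R * W * R * (R * Z * R) = 0) ↔ (Z * W = 0 ∧ W * Z = 0)) := by
  have hprod : ∀ A B : Matrix ι ι K, R * A * R * (R * B * R) = R * (A * B) * R := by
    intro A B
    calc R * A * R * (R * B * R) = R * A * (R * R) * B * R := by simp only [Matrix.mul_assoc]
      _ = R * (A * B) * R := by rw [hR, Matrix.mul_one]; simp only [Matrix.mul_assoc]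
  have htr : ∀ A B : Matrix ι ι K, trace (R * A * R * (R * B * R)) = trace (A * B) := by
    intro A B
    rw [hprod, trace_mul_comm, ← Matrix.mul_assoc, hR, Matrix.one_mul]
  rw [htr, hprod, hprod, conj_zero24 hR, conj_zero24 hR]
  exact ⟨Iff.rfl, Iff.rfl, Iff.rfl⟩

/-- conjugation preserves the relations -/
private theorem gd_conj24 {κ : K} (h : Par ι 1 (-2) κ) (X : RK (ι := ι) (1 : K)) :
    Gd24 (fun Z : RK (ι := ι) (1 : K) =>
      (⟨(1 + (-2 : K) • (X : Matrix ι ι K)) * (Z : Matrix ι ι K) * (1 + (-2 : K) • (X : Matrix ι ι K)),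
        refl_conj_mem h X.2 Z.2⟩ : RK (ι := ι) (1 : K))) := fun Z W =>
  conj_rel24 (sq_one h X.2) (Z : Matrix ι ι K) (W : Matrix ι ι K)

theorem conj_one [Finite K] (hn : 3 ≤ Fintype.card ι) (h2 : (2 : K) ≠ 0) {κ : K}
    (h : Par ι 1 (-2) κ) (T : Equiv.Perm (RK (ι := ι) (1 : K)))
    (hT : ∀ X Y, X ≠ Y →
      orderOf ((1 + (-2 : K) • (T X : Matrix ι ι K)) * (1 + (-2 : K) • (T Y : Matrix ι ι K))) =
      orderOf ((1 + (-2 : K) • (X : Matrix ι ι K)) * (1 + (-2 : K) • (Y : Matrix ι ι K))))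
    (X Y : RK (ι := ι) (1 : K)) :
    T ⟨_, refl_conj_mem h X.2 Y.2⟩ = ⟨_, refl_conj_mem h (T X).2 (T Y).2⟩ := by
  classical
  simp only [eq24] at hT
  have hTg := gd_T24 h2 T hT
  obtain ⟨σ, hσ⟩ : ∃ σ : RK (ι := ι) (1 : K) → RK (ι := ι) (1 : K),
      σ = fun Z : RK (ι := ι) (1 : K) =>
      (⟨(1 + (-2 : K) • (X : Matrix ι ι K)) * (Z : Matrix ι ι K) * (1 + (-2 : K) • (X : Matrix ι ι K)),
        refl_conj_mem h X.2 Z.2⟩ : RK (ι := ι) (1 : K)) := ⟨_, rfl⟩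
  have hσg : Gd24 σ := by
    rw [hσ]
    exact gd_conj24 h X
  have hσv : ∀ Z : RK (ι := ι) (1 : K), (σ Z : Matrix ι ι K) =
      (1 + (-2 : K) • (X : Matrix ι ι K)) * (Z : Matrix ι ι K) * (1 + (-2 : K) • (X : Matrix ι ι K)) := by
    intro Z
    rw [hσ]
  have hFg : Gd24 (fun Z => T (σ (T.symm Z))) :=
    gd_comp24 hTg (gd_comp24 hσg (gd_symm24 hTg))
  have hR : (1 + (-2 : K) • (X : Matrix ι ι K)) * (1 + (-2 : K) • (X : Matrix ι ι K)) = 1 :=
    sq_one h X.2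
  obtain ⟨P, hP⟩ : ∃ P : Matrix ι ι K → Matrix ι ι K, P = fun Z =>
      if hZ : Z ∈ RK (1 : K) then (T (σ (T.symm ⟨Z, hZ⟩)) : Matrix ι ι K) else Z := ⟨_, rfl⟩
  have hPv : ∀ Z : RK (ι := ι) (1 : K), P (Z : Matrix ι ι K) = (T (σ (T.symm Z)) : Matrix ι ι K) := by
    intro Z
    rw [hP]
    simp only [Subtype.coe_prop, dif_pos, Subtype.coe_eta]
  have hPres : Pres 1 P := by
    refine ⟨fun Z hZ => ?_, fun Z hZ W hW => ?_, fun Z hZ W hW => ?_, fun Z hZ W hW => ?_⟩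
    · rw [hPv ⟨Z, hZ⟩]
      exact (T (σ (T.symm ⟨Z, hZ⟩))).2
    · rw [hPv ⟨Z, hZ⟩, hPv ⟨W, hW⟩]
      exact (hFg ⟨Z, hZ⟩ ⟨W, hW⟩).1
    · rw [hPv ⟨Z, hZ⟩, hPv ⟨W, hW⟩]
      exact (hFg ⟨Z, hZ⟩ ⟨W, hW⟩).2.1
    · rw [hPv ⟨Z, hZ⟩, hPv ⟨W, hW⟩]
      exact (hFg ⟨Z, hZ⟩ ⟨W, hW⟩).2.2
  obtain ⟨hXX, -, -⟩ := sq_ne24 X.2
  have hσX : σ X = X := by
    refine Subtype.ext ?_
    rw [hσv]
    simp only [add_mul, mul_add, one_mul, mul_one, smul_mul_assoc, mul_smul_comm, hXX]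
    module
  have hPa : P (T X : Matrix ι ι K) = (T X : Matrix ι ι K) := by
    rw [hPv, Equiv.symm_apply_apply, hσX]
  have hfix : ∀ Z ∈ RK (1 : K), (T X : Matrix ι ι K) * Z = 0 → Z * (T X : Matrix ι ι K) = 0 → P Z = Z := by
    intro Z hZ e1 e2
    rw [hPv ⟨Z, hZ⟩]
    obtain ⟨W, hW⟩ := T.surjective ⟨Z, hZ⟩
    rw [← hW, Equiv.symm_apply_apply]
    have e3 : (T X : Matrix ι ι K) * (T W : Matrix ι ι K) = 0 ∧
        (T W : Matrix ι ι K) * (T X : Matrix ι ι K) = 0 := by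
      rw [hW]
      exact ⟨e1, e2⟩
    obtain ⟨e4, e5⟩ := (hTg X W).2.2.1 e3
    have e6 : σ W = W := by
      refine Subtype.ext ?_
      rw [hσv]
      simp only [add_mul, mul_add, one_mul, mul_one, smul_mul_assoc, mul_smul_comm, e4, e5,
        smul_zero, add_zero]
    rw [e6, hW]
  have hS : ∀ Z ∈ RK (1 : K), 2 * trace ((T X : Matrix ι ι K) * Z) = 1 → Z * P Z = 0 ∧ P Z * Z = 0 := by
    intro Z hZ e1
    rw [hPv ⟨Z, hZ⟩]
    obtain ⟨W, hW⟩ := T.surjective ⟨Z, hZ⟩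
    rw [← hW, Equiv.symm_apply_apply]
    have hZW : Z = (T W : Matrix ι ι K) := by rw [hW]
    rw [hZW] at e1 ⊢
    have e2 : W ≠ X := by
      rintro rfl
      obtain ⟨a1, -, a3⟩ := sq_ne24 (T W).2
      rw [a1, a3, mul_one] at e1
      have e3 : (1 : K) + 1 = 1 := by rw [one_add_one_eq_two]; exact e1
      exact one_ne_zero (add_eq_left.1 e3)
    rw [trace_mul_comm] at e1
    have e3 := odd_four h2 (T W).2 (T X).2 e1
    rw [hT W X e2] at e3
    have e4 : (1 - (2 : K) • (W : Matrix ι ι K)) * (1 - (2 : K) • (σ W : Matrix ι ι K)) =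
        ((1 - (2 : K) • (W : Matrix ι ι K)) * (1 - (2 : K) • (X : Matrix ι ι K))) ^ 2 := by
      have e5 : (1 - (2 : K) • (σ W : Matrix ι ι K)) = (1 + (-2 : K) • (X : Matrix ι ι K)) *
          (1 - (2 : K) • (W : Matrix ι ι K)) * (1 + (-2 : K) • (X : Matrix ι ι K)) := by
        rw [hσv, mul_sub, mul_one, sub_mul, hR, mul_smul_comm, smul_mul_assoc]
      have e6 : (1 : Matrix ι ι K) + (-2 : K) • (X : Matrix ι ι K) = 1 - (2 : K) • (X : Matrix ι ι K) := by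
        rw [neg_smul, ← sub_eq_add_neg]
      rw [e5, e6, pow_two]
      simp only [Matrix.mul_assoc]
    have e5 : orderOf ((1 - (2 : K) • (W : Matrix ι ι K)) * (1 - (2 : K) • (σ W : Matrix ι ι K))) = 2 := by
      rw [e4, orderOf_pow' _ (by norm_num), e3]
      norm_num
    have e6 : W ≠ σ W := by
      intro e7
      rw [← e7] at e5
      have e8 : (1 - (2 : K) • (W : Matrix ι ι K)) * (1 - (2 : K) • (W : Matrix ι ι K)) = 1 := by
        have e9 := sq_one h W.2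
        rwa [eq24] at e9
      rw [e8, orderOf_one] at e5
      omega
    rw [← hT W (σ W) e6] at e5
    have e7 : (T W : Matrix ι ι K) ≠ (T (σ W) : Matrix ι ι K) := fun e8 =>
      e6 (T.injective (Subtype.ext e8))
    exact (odd_two h2 (T W).2 (T (σ W)).2 e7).1 e5
  have hfin := core_one hn h2 hPres (T X).2 hPa hfix hS (T Y : Matrix ι ι K) (T Y).2
  rw [hPv, Equiv.symm_apply_apply] at hfin
  have hσY : σ Y = ⟨_, refl_conj_mem h X.2 Y.2⟩ := by rw [hσ]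
  rw [hσY] at hfin
  refine Subtype.ext ?_
  rw [hfin]
  show _ = (1 + (-2 : K) • (T X : Matrix ι ι K)) * (T Y : Matrix ι ι K) *
    (1 + (-2 : K) • (T X : Matrix ι ι K))
  rw [neg_smul, ← sub_eq_add_neg]

end Pool.Agent.Helper2.RO
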