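import Pool.Agent.Helper2.RO.Zero1

/-!
# Block RO-Z2: the core theorem for square zero rank one matrices

`Here 2 = 0`. `step_zero`: if `f · w ≠ 0` this is `left_zero`; if `g · v ≠ 0` apply `left_zero` to
`Q X = (P Xᵀ)ᵀ`, `aᵀ = f vᵀ` and `Xᵀ = g wᵀ` (`Q` is `Pres 0`: `trace (Aᵀ Bᵀ) = trace (B A)`).
`exists_S`: (a) if `g · v ≠ 0`: `g` is not in the span of `f` (`f · v = 0`) and `f` not in that of `g`, so there is a
`w'` with `f · w' = 1`, `g · w' = 0`; `v` is not in the span of `w`, `w'` (as `g · w = g · w' = 0`), so there is a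
`g'` with `g' · w = g' · w' = 0`, `g' · v = 1` (`sep`). (b) If `f · w ≠ 0`: the transposed argument.
`core_zero`: write `a = v fᵀ` and put `Q X = (1 + a) (P X) (1 + a)`; it is `Pres 0` and fixes the `Y` commuting with `a`.
Let `X = w gᵀ` be in `RK 0`. If `f · w = 0` and `g · v = 0` then `X` commutes with `a`, `P X = X` and both sides are
`X`. Otherwise `P X = (w + l (f · w) v) (g + l (g · v) f)ᵀ` by `step_zero`. If `trace (a X) = (f · w) (g · v) = 1`,
then by `hS` `1 = trace (X P X) = (g · w1) (g1 · w) = (l (f · w) (g · v))² = l²`, so `l = 1` and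
`P X = (1 + a) X (1 + a)`, `Q X = X`. In general `Q X = (w + m (f · w) v) (g + m (g · v) f)ᵀ` (`step_zero` for `Q`); take
`Y = w' g'ᵀ` from `exists_S`; `trace (a Y) = 1`, so `Q Y = Y`, and `X Y = Y X = 0`, so `Q X` commutes with `Y`:
`0 = m (g · v) (f · w')` and `0 = m (f · w) (g' · v)`, so `m = 0` and `Q X = X`.
-/

set_option autoImplicit false

open Matrix

namespace Pool.Agent.Helper2.RO

variable {K : Type*} [Field K] {ι : Type*} [Fintype ι] [DecidableEq ι]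

omit [Fintype ι] [DecidableEq ι] in
private theorem tr50 (w g : ι → K) : (vecMulVec w g)ᵀ = vecMulVec g w := by
  ext i j
  simp only [transpose_apply, vecMulVec_apply]
  ring

omit [DecidableEq ι] in
private theorem presT50 {P : Matrix ι ι K → Matrix ι ι K} (hP : Pres 0 P) :
    Pres 0 (fun X => (P Xᵀ)ᵀ) := by
  refine ⟨fun X hX => transpose_mem (hP.mem _ (transpose_mem hX)), ?_, ?_, ?_⟩
  · intro X hX Y hY
    have h := hP.zero _ (transpose_mem hX) _ (transpose_mem hY)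
    rw [← transpose_mul, trace_transpose, trace_mul_comm, h, ← transpose_mul, trace_transpose,
      trace_mul_comm]
  · intro X hX Y hY
    have h := hP.one _ (transpose_mem hX) _ (transpose_mem hY)
    rw [← transpose_mul, trace_transpose, trace_mul_comm, h, ← transpose_mul, trace_transpose,
      trace_mul_comm]
  · intro X hX Y hY
    have h := hP.comm _ (transpose_mem hX) _ (transpose_mem hY)
    rw [← transpose_mul, ← transpose_mul, transpose_eq_zero, transpose_eq_zero, and_comm, h,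
      ← transpose_mul, ← transpose_mul, transpose_eq_zero, transpose_eq_zero, and_comm]

theorem step_zero [CharP K 2] {P : Matrix ι ι K → Matrix ι ι K} (hP : Pres 0 P)
    {v f : ι → K} (hv : v ≠ 0) (hf : f ≠ 0) (hvf : f ⬝ᵥ v = 0)
    (hfix : ∀ Y ∈ RK (0 : K), vecMulVec v f * Y = 0 → Y * vecMulVec v f = 0 → P Y = Y)
    {w g : ι → K} (hw : w ≠ 0) (hg : g ≠ 0) (hwg : g ⬝ᵥ w = 0)
    (h : f ⬝ᵥ w ≠ 0 ∨ g ⬝ᵥ v ≠ 0) :
    ∃ l : K, P (vecMulVec w g) =
      vecMulVec (w + (l * (f ⬝ᵥ w)) • v) (g + (l * (g ⬝ᵥ v)) • f) := by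
  by_cases hfw : f ⬝ᵥ w = 0
  · have hgv : v ⬝ᵥ g ≠ 0 := by
      rw [dotProduct_comm]
      exact h.resolve_left (fun h1 => h1 hfw)
    obtain ⟨l, hl⟩ := left_zero (presT50 hP) hf hv (by rw [dotProduct_comm]; exact hvf)
      (fun Y hY h1 h2 => by
        have e1 : vecMulVec v f * Yᵀ = 0 := by
          rw [← tr50, ← transpose_mul, h2, transpose_zero]
        have e2 : Yᵀ * vecMulVec v f = 0 := by
          rw [← tr50, ← transpose_mul, h1, transpose_zero]
        rw [hfix _ (transpose_mem hY) e1 e2, transpose_transpose])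
      hg hw (by rw [dotProduct_comm]; exact hwg) hgv
    refine ⟨l, ?_⟩
    rw [tr50] at hl
    rw [← transpose_transpose (P (vecMulVec w g)), hl, tr50, dotProduct_comm v g, dotProduct_comm w f]
  · exact left_zero hP hv hf hvf hfix hw hg hwg hfw

omit [DecidableEq ι] in
private theorem notMem50 {f g v : ι → K} (hf : f ≠ 0) (hvf : f ⬝ᵥ v = 0) (h : g ⬝ᵥ v ≠ 0) :
    f ∉ Submodule.span K {g} := by
  intro h1
  obtain ⟨c, hc⟩ := Submodule.mem_span_singleton.1 h1
  rw [← hc, smul_dotProduct, smul_eq_mul] at hvf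
  rcases mul_eq_zero.1 hvf with h2 | h2
  · apply hf
    rw [← hc, h2, zero_smul]
  · exact h h2

private theorem exists_S50 {v f w g : ι → K} (hf : f ≠ 0) (hvf : f ⬝ᵥ v = 0)
    (hwg : g ⬝ᵥ w = 0) (h : g ⬝ᵥ v ≠ 0) :
    ∃ w' g' : ι → K, g ⬝ᵥ w' = 0 ∧ g' ⬝ᵥ w = 0 ∧ g' ⬝ᵥ w' = 0 ∧ f ⬝ᵥ w' = 1 ∧ g' ⬝ᵥ v = 1 := by
  obtain ⟨w', h1, h2⟩ := sep (Submodule.span K {g}) (notMem50 hf hvf h)
  have h3 : g ⬝ᵥ w' = 0 := by
    rw [dotProduct_comm]
    exact h1 g (Submodule.mem_span_singleton_self g)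
  have h4 : v ∉ Submodule.span K {w, w'} := by
    intro h5
    obtain ⟨x, y, hxy⟩ := Submodule.mem_span_pair.1 h5
    apply h
    rw [← hxy, dotProduct_add, dotProduct_smul, dotProduct_smul, hwg, h3, smul_zero, smul_zero,
      add_zero]
  obtain ⟨g', h5, h6⟩ := sep (Submodule.span K {w, w'}) h4
  exact ⟨w', g', h3, h5 w (Submodule.subset_span (by simp)), h5 w' (Submodule.subset_span (by simp)),
    by rw [dotProduct_comm]; exact h2, h6⟩

theorem exists_S {v f w g : ι → K} (hv : v ≠ 0) (hf : f ≠ 0) (hvf : f ⬝ᵥ v = 0)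
    (hw : w ≠ 0) (hg : g ≠ 0) (hwg : g ⬝ᵥ w = 0) (h : f ⬝ᵥ w ≠ 0 ∨ g ⬝ᵥ v ≠ 0) :
    ∃ w' g' : ι → K, g ⬝ᵥ w' = 0 ∧ g' ⬝ᵥ w = 0 ∧ g' ⬝ᵥ w' = 0 ∧ f ⬝ᵥ w' = 1 ∧ g' ⬝ᵥ v = 1 := by
  by_cases h1 : g ⬝ᵥ v = 0
  · have h2 : w ⬝ᵥ f ≠ 0 := by
      rw [dotProduct_comm]
      exact h.resolve_right (fun h3 => h3 h1)
    obtain ⟨w', g', a1, a2, a3, a4, a5⟩ := exists_S50 (v := f) (f := v) (w := g) (g := w) hv
      (by rw [dotProduct_comm]; exact hvf) (by rw [dotProduct_comm]; exact hwg) h2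
    exact ⟨g', w', by rw [dotProduct_comm]; exact a2, by rw [dotProduct_comm]; exact a1,
      by rw [dotProduct_comm]; exact a3, by rw [dotProduct_comm]; exact a5,
      by rw [dotProduct_comm]; exact a4⟩
  · exact exists_S50 hf hvf hwg h1

private theorem conj50 (v f w g : ι → K) :
    (1 + vecMulVec v f) * vecMulVec w g * (1 + vecMulVec v f) =
      vecMulVec (w + (f ⬝ᵥ w) • v) (g + (g ⬝ᵥ v) • f) := by
  have h1 : (1 + vecMulVec v f) * vecMulVec w g = vecMulVec (w + (f ⬝ᵥ w) • v) g := by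
    rw [add_mul, one_mul, mul_eq]
    ext i j
    simp only [Matrix.add_apply, Matrix.smul_apply, vecMulVec_apply, Pi.add_apply, Pi.smul_apply,
      smul_eq_mul]
    ring
  rw [h1, mul_add, mul_one, mul_eq]
  ext i j
  simp only [Matrix.add_apply, Matrix.smul_apply, vecMulVec_apply, Pi.add_apply, Pi.smul_apply,
    smul_eq_mul]
  ring

private theorem eq_one50 [CharP K 2] {l : K} (h : 1 + l = 0) : l = 1 := by
  have h1 : l = -1 := by linear_combination h
  rw [h1]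
  exact CharTwo.neg_eq _

/-- The core theorem for square zero rank one matrices. -/
theorem core_zero [CharP K 2] {P : Matrix ι ι K → Matrix ι ι K} (hP : Pres 0 P)
    {a : Matrix ι ι K} (ha : a ∈ RK (0 : K))
    (hfix : ∀ Y ∈ RK (0 : K), a * Y = 0 → Y * a = 0 → P Y = Y)
    (hS : ∀ X ∈ RK (0 : K), trace (a * X) = 1 → trace (X * P X) = 1) :
    ∀ X ∈ RK (0 : K), P X = (1 + a) * X * (1 + a) := by
  obtain ⟨v, f, hv, hf, hvf, rfl⟩ := ha
  -- the case of trace one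
  have key : ∀ w g : ι → K, w ≠ 0 → g ≠ 0 → g ⬝ᵥ w = 0 → (f ⬝ᵥ w) * (g ⬝ᵥ v) = 1 →
      P (vecMulVec w g) = vecMulVec (w + (f ⬝ᵥ w) • v) (g + (g ⬝ᵥ v) • f) := by
    intro w g hw hg hwg h1
    have hfw : f ⬝ᵥ w ≠ 0 := left_ne_zero_of_mul (by rw [h1]; exact one_ne_zero)
    obtain ⟨l, hl⟩ := step_zero hP hv hf hvf hfix hw hg hwg (Or.inl hfw)
    have h2 := hS _ (mk_mem hw hg hwg) (by rw [trace_mul_eq, h1])
    rw [hl, trace_mul_eq, dotProduct_add, add_dotProduct, dotProduct_smul, smul_dotProduct, hwg,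
      smul_eq_mul, smul_eq_mul] at h2
    have h3 : l * l = 1 := by
      calc l * l = (l * ((f ⬝ᵥ w) * (g ⬝ᵥ v))) * (l * ((f ⬝ᵥ w) * (g ⬝ᵥ v))) := by
            rw [h1, mul_one]
        _ = (0 + l * (f ⬝ᵥ w) * (g ⬝ᵥ v)) * (0 + l * (g ⬝ᵥ v) * (f ⬝ᵥ w)) := by ring
        _ = 1 := h2
    have h4 : (1 + l) * (1 + l) = 0 := by
      have h5 : (2 : K) = 0 := CharTwo.two_eq_zero
      linear_combination h3 + (1 + l) * h5
    have h5 : l = 1 := eq_one50 (mul_self_eq_zero.1 h4)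
    rw [hl, h5, one_mul, one_mul]
  intro X hX
  obtain ⟨w, g, hw, hg, hwg, rfl⟩ := hX
  have hX : vecMulVec w g ∈ RK (0 : K) := mk_mem hw hg hwg
  rw [conj50]
  by_cases h : f ⬝ᵥ w ≠ 0 ∨ g ⬝ᵥ v ≠ 0
  · obtain ⟨l, hl⟩ := step_zero hP hv hf hvf hfix hw hg hwg h
    obtain ⟨w', g', a1, a2, a3, a4, a5⟩ := exists_S hv hf hvf hw hg hwg h
    have hw' : w' ≠ 0 := by
      rintro rfl
      simp at a4
    have hg' : g' ≠ 0 := by
      rintro rfl
      simp at a5
    have hY : vecMulVec w' g' ∈ RK (0 : K) := mk_mem hw' hg' a3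
    have hPY := key w' g' hw' hg' a3 (by rw [a4, a5, one_mul])
    rw [a4, a5, one_smul, one_smul] at hPY
    have n1 := (mem_cases (hP.mem _ hX)).1
    have n2 := (mem_cases (hP.mem _ hY)).1
    rw [hl, Ne, vec_eq_zero, not_or] at n1
    rw [hPY, Ne, vec_eq_zero, not_or] at n2
    have hc := (hP.comm _ hX _ hY).2 ⟨(mul_eq_zero_iff hw hg').2 a1, (mul_eq_zero_iff hw' hg).2 a2⟩
    rw [hl, hPY, mul_eq_zero_iff n1.1 n2.2, mul_eq_zero_iff n2.1 n1.2] at hc
    obtain ⟨c1, c2⟩ := hc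
    simp only [dotProduct_add, add_dotProduct, dotProduct_smul, smul_dotProduct, a1, a2, a4, a5, hvf,
      smul_eq_mul] at c1 c2
    have hl1 : 1 + l = 0 := by
      rcases h with h | h
      · have e : (1 + l) * (f ⬝ᵥ w) = 0 := by linear_combination c2
        exact (mul_eq_zero.1 e).resolve_right h
      · have e : (1 + l) * (g ⬝ᵥ v) = 0 := by linear_combination c1
        exact (mul_eq_zero.1 e).resolve_right h
    rw [hl, eq_one50 hl1, one_mul, one_mul]
  · push Not at h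
    obtain ⟨h1, h2⟩ := h
    rw [h1, h2, zero_smul, zero_smul, add_zero, add_zero]
    exact hfix _ hX ((mul_eq_zero_iff hv hg).2 h1) ((mul_eq_zero_iff hw hf).2 h2)

end Pool.Agent.Helper2.RO
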