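import Pool.Agent.Helper2.RO.OrdE
import Pool.Agent.Helper2.RO.Zero2
import Pool.Agent.Helper2.RO.Psl

/-!
# Block RO-C0: permutations of the transvections which preserve the orders commute with conjugation

Characteristic two. By `even_two`, `even_zero`, `even_one` and `hT`, `T` and `T.symm` preserve the relations
`X Y = Y X = 0`, `trace (X Y) = 0`, `trace (X Y) = 1` (for `X = Y`: `X X = 0`, `trace (X X) = 0`). Fix `X` and put
`P Z = T ((1 + X) (T⁻¹ Z) (1 + X))` for `Z` in `RK 0` and `P Z = Z` for all other matrices. It is `Pres 0` (conjugation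
by `1 + X` preserves the relations: `(1 + X)² = 1`). Put `a = T X`. If `a Z = Z a = 0` then
`X (T⁻¹ Z) = (T⁻¹ Z) X = 0`, so `(1 + X) (T⁻¹ Z) (1 + X) = T⁻¹ Z` and `P Z = Z`. If `trace (a Z) = 1` then `a ≠ Z`, the order
of `(1 + a) (1 + Z)` is `3`, so with `W = T⁻¹ Z` the order of `(1 + X) (1 + W)` is `3`; with `W' = (1 + X) W (1 + X)`,
`(1 + W) (1 + W') = ((1 + W) (1 + X))²` has order `3` (and `W ≠ W'`), so has `(1 + Z) (1 + P Z)`, and
`trace (Z (P Z)) = 1` by `even_one`. By `core_zero` `P Z = (1 + a) Z (1 + a)`; take `Z = T Y`.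
-/

set_option autoImplicit false

open Matrix

namespace Pool.Agent.Helper2.RO

variable {K : Type*} [Field K] {ι : Type*} [Fintype ι] [DecidableEq ι]

namespace C0

theorem conj_mul {X A B : Matrix ι ι K} (h : (1 + X) * (1 + X) = 1) :
    ((1 + X) * A * (1 + X)) * ((1 + X) * B * (1 + X)) = (1 + X) * (A * B) * (1 + X) := by
  calc ((1 + X) * A * (1 + X)) * ((1 + X) * B * (1 + X))
      = (1 + X) * A * ((1 + X) * (1 + X)) * B * (1 + X) := by simp only [mul_assoc]
    _ = (1 + X) * (A * B) * (1 + X) := by rw [h]; simp only [mul_assoc, mul_one]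

theorem conj_trace {X A : Matrix ι ι K} (h : (1 + X) * (1 + X) = 1) :
    trace ((1 + X) * A * (1 + X)) = trace A := by
  rw [trace_mul_comm, ← mul_assoc, h, one_mul]

theorem conj_zero_iff {X A : Matrix ι ι K} (h : (1 + X) * (1 + X) = 1) :
    (1 + X) * A * (1 + X) = 0 ↔ A = 0 := by
  constructor
  · intro h0
    have h1 : (1 + X) * ((1 + X) * A * (1 + X)) * (1 + X) = A := by
      calc (1 + X) * ((1 + X) * A * (1 + X)) * (1 + X)
          = ((1 + X) * (1 + X)) * A * ((1 + X) * (1 + X)) := by simp only [mul_assoc]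
        _ = A := by rw [h, one_mul, mul_one]
    rw [← h1, h0, mul_zero, zero_mul]
  · rintro rfl
    rw [mul_zero, zero_mul]

end C0

theorem conj_zero [CharP K 2] {κ : K} (h : Par ι 0 1 κ) (T : Equiv.Perm (RK (ι := ι) (0 : K)))
    (hT : ∀ X Y, X ≠ Y →
      orderOf ((1 + (1 : K) • (T X : Matrix ι ι K)) * (1 + (1 : K) • (T Y : Matrix ι ι K))) =
      orderOf ((1 + (1 : K) • (X : Matrix ι ι K)) * (1 + (1 : K) • (Y : Matrix ι ι K))))
    (X Y : RK (ι := ι) (0 : K)) :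
    T ⟨_, refl_conj_mem h X.2 Y.2⟩ = ⟨_, refl_conj_mem h (T X).2 (T Y).2⟩ := by
  have hone : ∀ Z : Matrix ι ι K, (1 : K) • Z = Z := fun Z => one_smul K Z
  have hT' : ∀ X Y : RK (ι := ι) (0 : K), X ≠ Y →
      orderOf ((1 + (T X : Matrix ι ι K)) * (1 + (T Y : Matrix ι ι K))) =
      orderOf ((1 + (X : Matrix ι ι K)) * (1 + (Y : Matrix ι ι K))) := by
    intro X Y hXY
    have h1 := hT X Y hXY
    simpa only [hone] using h1
  have hxx : ∀ A : RK (ι := ι) (0 : K), (A : Matrix ι ι K) * (A : Matrix ι ι K) = 0 := by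
    intro A
    have h1 := (mem_cases A.2).2.2
    rw [h1, zero_smul]
  have hne : ∀ A B : RK (ι := ι) (0 : K), A ≠ B → (A : Matrix ι ι K) ≠ B :=
    fun A B hAB h1 => hAB (Subtype.ext h1)
  -- the relations
  have rcomm : ∀ A B : RK (ι := ι) (0 : K),
      ((T A : Matrix ι ι K) * (T B : Matrix ι ι K) = 0 ∧ (T B : Matrix ι ι K) * (T A : Matrix ι ι K) = 0) ↔
      ((A : Matrix ι ι K) * B = 0 ∧ (B : Matrix ι ι K) * A = 0) := by
    intro A B
    by_cases hAB : A = B
    · subst hAB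
      simp [hxx]
    · rw [← even_two A.2 B.2 (hne A B hAB),
        ← even_two (T A).2 (T B).2 (hne _ _ fun h1 => hAB (T.injective h1)), hT' A B hAB]
  have rzero : ∀ A B : RK (ι := ι) (0 : K),
      trace ((T A : Matrix ι ι K) * (T B : Matrix ι ι K)) = 0 ↔ trace ((A : Matrix ι ι K) * (B : Matrix ι ι K)) = 0 := by
    intro A B
    by_cases hAB : A = B
    · subst hAB
      simp [hxx]
    · rw [← even_zero A.2 B.2 (hne A B hAB),
        ← even_zero (T A).2 (T B).2 (hne _ _ fun h1 => hAB (T.injective h1)), hT' A B hAB]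
  have rone : ∀ A B : RK (ι := ι) (0 : K),
      trace ((T A : Matrix ι ι K) * (T B : Matrix ι ι K)) = 1 ↔ trace ((A : Matrix ι ι K) * (B : Matrix ι ι K)) = 1 := by
    intro A B
    by_cases hAB : A = B
    · subst hAB
      simp [hxx]
    · rw [← even_one A.2 B.2 (hne A B hAB),
        ← even_one (T A).2 (T B).2 (hne _ _ fun h1 => hAB (T.injective h1)), hT' A B hAB]
  -- the conjugation
  have hsq : ∀ A : RK (ι := ι) (0 : K), (1 + (A : Matrix ι ι K)) * (1 + (A : Matrix ι ι K)) = 1 := by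
    intro A
    have h1 := sq_one h A.2
    rwa [hone] at h1
  have hmem : ∀ A B : RK (ι := ι) (0 : K),
      (1 + (A : Matrix ι ι K)) * B * (1 + (A : Matrix ι ι K)) ∈ RK (0 : K) := by
    intro A B
    exact conj_mem B.2 (hsq A)
  set cj : RK (ι := ι) (0 : K) → RK (ι := ι) (0 : K) :=
    fun Z => ⟨(1 + (X : Matrix ι ι K)) * Z * (1 + (X : Matrix ι ι K)), hmem X Z⟩ with hcj
  have cjv : ∀ Z, (cj Z : Matrix ι ι K) = (1 + (X : Matrix ι ι K)) * Z * (1 + (X : Matrix ι ι K)) :=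
    fun Z => rfl
  classical
  let P : Matrix ι ι K → Matrix ι ι K :=
    fun Z => if hZ : Z ∈ RK (0 : K) then (T (cj (T.symm ⟨Z, hZ⟩)) : Matrix ι ι K) else Z
  have hPT : ∀ Z : RK (ι := ι) (0 : K), P (T Z : Matrix ι ι K) = (T (cj Z) : Matrix ι ι K) := by
    intro Z
    have h1 : P (T Z : Matrix ι ι K) =
        (T (cj (T.symm ⟨(T Z : Matrix ι ι K), (T Z).2⟩)) : Matrix ι ι K) :=
      dif_pos (T Z).2
    rw [h1]
    have h2 : (⟨(T Z : Matrix ι ι K), (T Z).2⟩ : RK (ι := ι) (0 : K)) = T Z := rfl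
    rw [h2, Equiv.symm_apply_apply]
  have hex : ∀ Z ∈ RK (ι := ι) (0 : K), ∃ W : RK (ι := ι) (0 : K), (T W : Matrix ι ι K) = Z := by
    intro Z hZ
    exact ⟨T.symm ⟨Z, hZ⟩, by rw [Equiv.apply_symm_apply]⟩
  have hP : Pres 0 P := by
    refine ⟨?_, ?_, ?_, ?_⟩
    · intro Z hZ
      obtain ⟨W, rfl⟩ := hex Z hZ
      rw [hPT]
      exact (T (cj W)).2
    · intro A hA B hB
      obtain ⟨A, rfl⟩ := hex A hA
      obtain ⟨B, rfl⟩ := hex B hB
      rw [hPT, hPT, rzero, rzero, cjv, cjv, C0.conj_mul (hsq X), C0.conj_trace (hsq X)]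
    · intro A hA B hB
      obtain ⟨A, rfl⟩ := hex A hA
      obtain ⟨B, rfl⟩ := hex B hB
      rw [hPT, hPT, rone, rone, cjv, cjv, C0.conj_mul (hsq X), C0.conj_trace (hsq X)]
    · intro A hA B hB
      obtain ⟨A, rfl⟩ := hex A hA
      obtain ⟨B, rfl⟩ := hex B hB
      rw [hPT, hPT, rcomm, rcomm, cjv, cjv, C0.conj_mul (hsq X), C0.conj_mul (hsq X),
        C0.conj_zero_iff (hsq X), C0.conj_zero_iff (hsq X)]
  have hfix : ∀ Z ∈ RK (ι := ι) (0 : K), (T X : Matrix ι ι K) * Z = 0 →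
      Z * (T X : Matrix ι ι K) = 0 → P Z = Z := by
    intro Z hZ h1 h2
    obtain ⟨W, rfl⟩ := hex Z hZ
    obtain ⟨h3, h4⟩ := (rcomm X W).1 ⟨h1, h2⟩
    rw [hPT]
    congr 2
    apply Subtype.ext
    rw [cjv, add_mul, one_mul, h3, add_zero, mul_add, mul_one, h4, add_zero]
  have hS : ∀ Z ∈ RK (ι := ι) (0 : K), trace ((T X : Matrix ι ι K) * Z) = 1 →
      trace (Z * P Z) = 1 := by
    intro Z hZ h1
    obtain ⟨W, rfl⟩ := hex Z hZ
    rw [rone] at h1
    rw [hPT, rone, cjv]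
    have h2 : trace ((W : Matrix ι ι K) * (X : Matrix ι ι K)) = 1 := by
      rw [trace_mul_comm]; exact h1
    have h3 := xyx W.2 X.2
    have h4 : (W : Matrix ι ι K) * ((1 + (X : Matrix ι ι K)) * W * (1 + (X : Matrix ι ι K))) =
        W + W * X := by
      calc (W : Matrix ι ι K) * ((1 + (X : Matrix ι ι K)) * W * (1 + (X : Matrix ι ι K)))
          = (W * W + W * X * W) * (1 + (X : Matrix ι ι K)) := by noncomm_ring
        _ = W + W * X := by
          rw [hxx, h3, h2, one_smul, zero_add, mul_add, mul_one]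
    rw [h4, trace_add, h2, (mem_cases W.2).2.1, zero_add]
  have key := core_zero hP (T X).2 hfix hS (T Y : Matrix ι ι K) (T Y).2
  rw [hPT] at key
  apply Subtype.ext
  have h5 : (⟨(1 + (1 : K) • (X : Matrix ι ι K)) * Y * (1 + (1 : K) • (X : Matrix ι ι K)),
      refl_conj_mem h X.2 Y.2⟩ : RK (ι := ι) (0 : K)) = cj Y := by
    apply Subtype.ext
    change (1 + (1 : K) • (X : Matrix ι ι K)) * (Y : Matrix ι ι K) *
      (1 + (1 : K) • (X : Matrix ι ι K)) = _
    rw [cjv, hone]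
  rw [h5, key]
  change _ = (1 + (1 : K) • (T X : Matrix ι ι K)) * (T Y : Matrix ι ι K) *
      (1 + (1 : K) • (T X : Matrix ι ι K))
  rw [hone]

end Pool.Agent.Helper2.RO
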