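import Mathlib

/-!
# Project RO (MP_0d9fdb_al): rank one involutions of `PSL(n, K)`

`RK c` is the set of the rank one matrices `w gᵀ` with `g · w = c`. For `c = 1` these are the rank one
idempotents `X` (and `1 - 2 X` is a reflection), for `c = 0` the rank one matrices with `X² = 0` (and
`1 + X` is a transvection). `Pres c P`: the map `P` preserves `RK c` and the relations
`trace (X Y) = 0`, `trace (X Y) = 1` and `X Y = Y X = 0`.
-/

set_option autoImplicit false

open Matrix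

namespace Pool.Agent.Helper2.RO

variable {K : Type*} [Field K] {ι : Type*} [Fintype ι] [DecidableEq ι]

/-- The rank one matrices `w gᵀ` with `g · w = c`. -/
def RK (c : K) : Set (Matrix ι ι K) :=
  {X | ∃ w g : ι → K, w ≠ 0 ∧ g ≠ 0 ∧ g ⬝ᵥ w = c ∧ X = vecMulVec w g}

/-- `P` preserves the relations. -/
structure Pres (c : K) (P : Matrix ι ι K → Matrix ι ι K) : Prop where
  mem : ∀ X ∈ RK c, P X ∈ RK c
  zero : ∀ X ∈ RK c, ∀ Y ∈ RK c, trace (P X * P Y) = 0 ↔ trace (X * Y) = 0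
  one : ∀ X ∈ RK c, ∀ Y ∈ RK c, trace (P X * P Y) = 1 ↔ trace (X * Y) = 1
  comm : ∀ X ∈ RK c, ∀ Y ∈ RK c, (P X * P Y = 0 ∧ P Y * P X = 0) ↔ (X * Y = 0 ∧ Y * X = 0)

omit [DecidableEq ι] in
theorem mk_mem {c : K} {w g : ι → K} (hw : w ≠ 0) (hg : g ≠ 0) (h : g ⬝ᵥ w = c) :
    vecMulVec w g ∈ RK c := ⟨w, g, hw, hg, h, rfl⟩

omit [DecidableEq ι] in
theorem mk_mem_one {w g : ι → K} (h : g ⬝ᵥ w = 1) : vecMulVec w g ∈ RK (1 : K) := by
  refine mk_mem ?_ ?_ h
  · rintro rfl; simp at h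
  · rintro rfl; simp at h

omit [DecidableEq ι] in
theorem mul_eq (w g w' g' : ι → K) :
    vecMulVec w g * vecMulVec w' g' = (g ⬝ᵥ w') • vecMulVec w g' := by
  ext i j
  rw [Matrix.smul_apply, mul_apply, vecMulVec_apply, smul_eq_mul, dotProduct, Finset.sum_mul]
  simp only [vecMulVec_apply]
  exact Finset.sum_congr rfl fun k _ => by ring

omit [DecidableEq ι] in
theorem trace_eq (w g : ι → K) : trace (vecMulVec w g) = g ⬝ᵥ w := by
  simp only [trace, diag_apply, vecMulVec_apply, dotProduct]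
  exact Finset.sum_congr rfl fun k _ => by ring

omit [DecidableEq ι] in
theorem trace_mul_eq (w g w' g' : ι → K) :
    trace (vecMulVec w g * vecMulVec w' g') = (g ⬝ᵥ w') * (g' ⬝ᵥ w) := by
  rw [mul_eq, trace_smul, trace_eq, smul_eq_mul]

omit [Fintype ι] [DecidableEq ι] in
theorem vec_eq_zero {w g : ι → K} : vecMulVec w g = 0 ↔ w = 0 ∨ g = 0 := by
  constructor
  · intro h
    by_contra hcon
    push Not at hcon
    obtain ⟨i, hi⟩ := Function.ne_iff.1 hcon.1
    obtain ⟨j, hj⟩ := Function.ne_iff.1 hcon.2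
    have h1 := congrFun (congrFun h i) j
    rw [vecMulVec_apply] at h1
    rw [Matrix.zero_apply, mul_eq_zero] at h1
    rcases h1 with h1 | h1
    · exact hi h1
    · exact hj h1
  · rintro (rfl | rfl) <;> ext i j <;> simp [vecMulVec_apply]

omit [DecidableEq ι] in
/-- `X Y = 0` for rank one matrices. -/
theorem mul_eq_zero_iff {w g w' g' : ι → K} (hw : w ≠ 0) (hg' : g' ≠ 0) :
    vecMulVec w g * vecMulVec w' g' = 0 ↔ g ⬝ᵥ w' = 0 := by
  rw [mul_eq, smul_eq_zero, vec_eq_zero]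
  simp [hw, hg']

omit [Fintype ι] [DecidableEq ι] in
/-- Equality of rank one matrices. -/
theorem vec_eq_iff {w g w' g' : ι → K} (hw : w ≠ 0) (hg : g ≠ 0) :
    vecMulVec w g = vecMulVec w' g' ↔ ∃ c : K, c ≠ 0 ∧ w' = c • w ∧ g = c • g' := by
  constructor
  · intro h
    obtain ⟨i, hi⟩ := Function.ne_iff.1 hw
    obtain ⟨j, hj⟩ := Function.ne_iff.1 hg
    have e : ∀ k l, w k * g l = w' k * g' l := fun k l => congrFun (congrFun h k) l
    have hne : w' i * g' j ≠ 0 := by
      rw [← e]; exact mul_ne_zero hi hj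
    have hi' : w' i ≠ 0 := left_ne_zero_of_mul hne
    have hj' : g' j ≠ 0 := right_ne_zero_of_mul hne
    refine ⟨w' i / w i, div_ne_zero hi' hi, ?_, ?_⟩
    · ext k
      have h1 := e k j
      have h2 := e i j
      simp only [Pi.smul_apply, smul_eq_mul]
      rw [div_mul_eq_mul_div, eq_div_iff hi]
      have h3 : (w' k * w i) * g' j = (w' i * w k) * g' j := by
        calc (w' k * w i) * g' j = w i * (w' k * g' j) := by ring
          _ = w i * (w k * g j) := by rw [h1]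
          _ = w k * (w i * g j) := by ring
          _ = w k * (w' i * g' j) := by rw [h2]
          _ = (w' i * w k) * g' j := by ring
      exact mul_right_cancel₀ hj' h3
    · ext l
      simp only [Pi.smul_apply, smul_eq_mul]
      rw [div_mul_eq_mul_div, eq_div_iff hi, mul_comm]
      exact e i l
  · rintro ⟨c, -, rfl, rfl⟩
    ext i j
    simp only [vecMulVec_apply, Pi.smul_apply, smul_eq_mul]
    ring

omit [DecidableEq ι] in
/-- Members of `RK c`. -/
theorem mem_cases {c : K} {X : Matrix ι ι K} (hX : X ∈ RK c) :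
    X ≠ 0 ∧ trace X = c ∧ X * X = c • X := by
  obtain ⟨w, g, hw, hg, h, rfl⟩ := hX
  refine ⟨?_, ?_, ?_⟩
  · rw [Ne, vec_eq_zero]; simp [hw, hg]
  · rw [trace_eq, h]
  · rw [mul_eq, h]

omit [DecidableEq ι] in
/-- `X Y X = t X` for `t = trace (X Y)`. -/
theorem xyx {c : K} {X Y : Matrix ι ι K} (hX : X ∈ RK c) (hY : Y ∈ RK c) :
    X * Y * X = trace (X * Y) • X := by
  obtain ⟨w, g, hw, hg, h, rfl⟩ := hX
  obtain ⟨w', g', hw', hg', h', rfl⟩ := hY
  rw [trace_mul_eq, mul_eq, smul_mul_assoc, mul_eq, smul_smul]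

omit [DecidableEq ι] in
/-- `trace (X Y) = 0` iff `X Y = 0` or `Y X = 0`. -/
theorem trace_zero_iff {c : K} {X Y : Matrix ι ι K} (hX : X ∈ RK c) (hY : Y ∈ RK c) :
    trace (X * Y) = 0 ↔ X * Y = 0 ∨ Y * X = 0 := by
  obtain ⟨w, g, hw, hg, h, rfl⟩ := hX
  obtain ⟨w', g', hw', hg', h', rfl⟩ := hY
  rw [trace_mul_eq, mul_eq_zero, mul_eq_zero_iff hw hg', mul_eq_zero_iff hw' hg]

omit [DecidableEq ι] in
/-- Transposition. -/
theorem transpose_mem {c : K} {X : Matrix ι ι K} (hX : X ∈ RK c) : Xᵀ ∈ RK c := by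
  obtain ⟨w, g, hw, hg, h, rfl⟩ := hX
  refine ⟨g, w, hg, hw, ?_, ?_⟩
  · rw [dotProduct_comm, h]
  · ext i j
    simp only [transpose_apply, vecMulVec_apply]
    ring

/-- Separation: a vector outside a subspace is separated from it by a functional. -/
theorem sep (U : Submodule K (ι → K)) {u : ι → K} (hu : u ∉ U) :
    ∃ g : ι → K, (∀ x ∈ U, g ⬝ᵥ x = 0) ∧ g ⬝ᵥ u = 1 := by
  obtain ⟨f, hf, hfU⟩ := Submodule.exists_le_ker_of_notMem hu
  have key : ∀ x : ι → K, f x = (fun i => f (Pi.single i 1)) ⬝ᵥ x := by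
    intro x
    conv_lhs => rw [pi_eq_sum_univ' x]
    rw [map_sum]
    simp only [map_smul, smul_eq_mul, dotProduct]
    exact Finset.sum_congr rfl fun i _ => by ring
  refine ⟨(f u)⁻¹ • fun i => f (Pi.single i 1), fun x hx => ?_, ?_⟩
  · rw [smul_dotProduct, ← key, LinearMap.mem_ker.1 (hfU hx), smul_zero]
  · rw [smul_dotProduct, ← key, smul_eq_mul, inv_mul_cancel₀ hf]

omit [DecidableEq ι] in
/-- A nonzero vector orthogonal to two given ones. -/
theorem exists_perp (hn : 3 ≤ Fintype.card ι) (f g : ι → K) :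
    ∃ u : ι → K, u ≠ 0 ∧ f ⬝ᵥ u = 0 ∧ g ⬝ᵥ u = 0 := by
  let φ : (ι → K) →ₗ[K] (Fin 2 → K) :=
    { toFun := fun u => ![f ⬝ᵥ u, g ⬝ᵥ u]
      map_add' := by
        intro x y
        ext i
        fin_cases i <;> simp [dotProduct_add]
      map_smul' := by
        intro c x
        ext i
        fin_cases i <;> simp [dotProduct_smul] }
  have h1 : ¬ Function.Injective φ := by
    intro hinj
    have h2 := LinearMap.finrank_le_finrank_of_injective hinj
    rw [Module.finrank_fintype_fun_eq_card, Module.finrank_fintype_fun_eq_card,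
      Fintype.card_fin] at h2
    omega
  rw [← LinearMap.ker_eq_bot, Submodule.eq_bot_iff] at h1
  push Not at h1
  obtain ⟨u, hu, hu0⟩ := h1
  have h3 : φ u = 0 := hu
  refine ⟨u, hu0, ?_, ?_⟩
  · exact congrFun h3 0
  · exact congrFun h3 1

end Pool.Agent.Helper2.RO
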