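import Pool.Agent.Helper2.RO.Psl

/-!
# Block RO-D: matrices `A = r + w gᵀ` with `A² = r²`

`A² = r² + 2 r w gᵀ + (g · w) w gᵀ`, so `g · w = - 2 r` (`w gᵀ ≠ 0`). `r ≠ 0`: otherwise `A² = 0`, but `det A = 1`.
If `2 ≠ 0`: `X = w (- (2 r)⁻¹ g)ᵀ` is in `RK 1`, `A = r (1 - 2 X)`, and `Par ι 1 (-2) r`: `det_el` gives
`1 = det A = r^n (1 + (-2) 1)`. If `2 = 0`: `X = w (r⁻¹ g)ᵀ` is in `RK 0`, `A = r (1 + X)`, `Par ι 0 1 r`.
`diff_ne_one`: an element `A` of this form is not a scalar matrix (`3 ≤ n`: take a nonzero vector `z` with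
`g · z = 0`, then `A z = r z`, so `A = r` and `w gᵀ = 0`).
-/

set_option autoImplicit false

open Matrix

namespace Pool.Agent.Helper2.RO

variable {K : Type*} [Field K] {ι : Type*} [Fintype ι] [DecidableEq ι]

/-- The scalar product of the two vectors. -/
theorem dot61 {A : Matrix ι ι K} {r : K} {w g : ι → K} (hw : w ≠ 0) (hg : g ≠ 0)
    (hA : A = r • (1 : Matrix ι ι K) + vecMulVec w g)
    (hA2 : A * A = (r * r) • (1 : Matrix ι ι K)) : g ⬝ᵥ w = -(2 * r) := by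
  have h1 : A * A = (r * r) • (1 : Matrix ι ι K) + (2 * r + g ⬝ᵥ w) • vecMulVec w g := by
    rw [hA, add_mul, mul_add, mul_add, mul_eq, smul_mul_smul_comm, one_mul, smul_mul_assoc,
      one_mul, mul_smul_comm, mul_one]
    module
  rw [hA2] at h1
  have h2 : (2 * r + g ⬝ᵥ w) • vecMulVec w g = 0 := by
    exact left_eq_add.1 h1
  rcases smul_eq_zero.1 h2 with h3 | h3
  · linear_combination h3
  · rw [vec_eq_zero] at h3
    rcases h3 with h3 | h3
    · exact absurd h3 hw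
    · exact absurd h3 hg

theorem desc (A : SpecialLinearGroup ι K) {r : K} {w g : ι → K} (hw : w ≠ 0) (hg : g ≠ 0)
    (hA : (A : Matrix ι ι K) = r • (1 : Matrix ι ι K) + vecMulVec w g)
    (hA2 : (A : Matrix ι ι K) * (A : Matrix ι ι K) = (r * r) • (1 : Matrix ι ι K)) :
    ((2 : K) ≠ 0 ∧ ∃ (h : Par ι 1 (-2) r) (X : RK (ι := ι) (1 : K)), rho h X = A) ∨
      ((2 : K) = 0 ∧ ∃ (h : Par ι 0 1 r) (X : RK (ι := ι) (0 : K)), rho h X = A) := by
  have hdot := dot61 hw hg hA hA2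
  have hdetA : det (A : Matrix ι ι K) = 1 := A.2
  have hne : Nonempty ι := by
    obtain ⟨i, -⟩ := Function.ne_iff.1 hw
    exact ⟨i⟩
  have hr : r ≠ 0 := by
    intro h0
    have h1 : det ((A : Matrix ι ι K) * (A : Matrix ι ι K)) = 1 := by
      rw [det_mul, hdetA, mul_one]
    rw [hA2, h0, mul_zero, zero_smul, det_zero] at h1
    exact zero_ne_one h1
  by_cases h2 : (2 : K) = 0
  · right
    refine ⟨h2, ?_⟩
    have hX : vecMulVec w (r⁻¹ • g) ∈ RK (ι := ι) (0 : K) := by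
      refine mk_mem hw (smul_ne_zero (inv_ne_zero hr) hg) ?_
      rw [smul_dotProduct, hdot, h2, zero_mul, neg_zero, smul_zero]
    have hel : el r 1 (vecMulVec w (r⁻¹ • g)) = (A : Matrix ι ι K) := by
      rw [hA, el, vecMulVec_smul, smul_add, one_smul, smul_smul, mul_inv_cancel₀ hr, one_smul]
    have hd := det_el r 1 hX
    rw [hel, hdetA] at hd
    refine ⟨⟨one_ne_zero, ?_, hd.symm⟩, ⟨_, hX⟩, ?_⟩
    · rw [h2, mul_zero, add_zero]
    · apply Subtype.ext
      exact hel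
  · left
    refine ⟨h2, ?_⟩
    have h2r : (2 : K) * r ≠ 0 := mul_ne_zero h2 hr
    have hX : vecMulVec w ((-(2 * r)⁻¹) • g) ∈ RK (ι := ι) (1 : K) := by
      refine mk_mem hw (smul_ne_zero (neg_ne_zero.2 (inv_ne_zero h2r)) hg) ?_
      rw [smul_dotProduct, hdot, smul_eq_mul, neg_mul_neg, inv_mul_cancel₀ h2r]
    have hel : el r (-2) (vecMulVec w ((-(2 * r)⁻¹) • g)) = (A : Matrix ι ι K) := by
      rw [hA, el, vecMulVec_smul, smul_add, smul_smul, smul_smul]
      have h3 : r * -2 * -(2 * r)⁻¹ = 1 := by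
        field_simp
      rw [h3, one_smul]
    have hd := det_el r (-2) hX
    rw [hel, hdetA] at hd
    refine ⟨⟨neg_ne_zero.2 h2, ?_, hd.symm⟩, ⟨_, hX⟩, ?_⟩
    · ring
    · apply Subtype.ext
      exact hel

theorem not_scalar (hn : 3 ≤ Fintype.card ι) {A : Matrix ι ι K} {r : K} {w g : ι → K}
    (hw : w ≠ 0) (hg : g ≠ 0) (hA : A = r • (1 : Matrix ι ι K) + vecMulVec w g) (q : K) :
    A ≠ q • (1 : Matrix ι ι K) := by
  intro hq
  obtain ⟨z, hz, hgz, -⟩ := exists_perp hn g g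
  have h1 : A *ᵥ z = r • z := by
    rw [hA, add_mulVec, smul_mulVec, one_mulVec]
    have : vecMulVec w g *ᵥ z = 0 := by
      rw [vecMulVec_mulVec, hgz]
      simp
    rw [this, add_zero]
  have h2 : A *ᵥ z = q • z := by
    rw [hq, smul_mulVec, one_mulVec]
  have h3 : r = q := by
    have h4 : (r - q) • z = 0 := by
      rw [sub_smul, ← h1, ← h2, sub_self]
    rcases smul_eq_zero.1 h4 with h5 | h5
    · exact sub_eq_zero.1 h5
    · exact absurd h5 hz
  rw [hA, h3] at hq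
  have h4 : vecMulVec w g = 0 := by
    exact left_eq_add.1 hq.symm
  rw [vec_eq_zero] at h4
  rcases h4 with h4 | h4
  · exact hw h4
  · exact hg h4

end Pool.Agent.Helper2.RO
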