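import Pool.Agent.Helper2.RO.GenA

/-!
# Block RO-G2: the rank one involutions generate `PSL(n, K)`

By `tv_generate` it is enough that the class of every `tv u k hk` is in the closure. If `u = 0` or `k = 0` it is `1`.
Case `c = 0` (so `2 = 0`): `X = vecMulVec (s⁻¹ u) k` is in `RK 0`, and `rh h X` is the class of `κ (1 + u kᵀ)`, which is
the class of `tv u k hk` (`mk_eq_iff`).
Case `c ≠ 0`: choose `g` with `g · u = c` (`sep` for the zero subspace) and `g' = g - s⁻¹ k`. `X = u gᵀ`, `Y = u g'ᵀ` are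
in `RK c`, and `(1 + s X) (1 + s Y) = 1 + s u gᵀ + (s + s² c) u g'ᵀ = 1 + s u (g - g')ᵀ = 1 + u kᵀ` (`s + s² c = - s` by
`hc`), so `rh h X * rh h Y` is the class of `κ² (1 + u kᵀ)`.
-/

set_option autoImplicit false

open Matrix

namespace Pool.Agent.Helper2.RO

variable {K : Type*} [Field K] {ι : Type*} [Fintype ι] [DecidableEq ι]

/-- The class of a transvection is a product of at most two rank one involutions. -/
private theorem tv_mem {c s κ : K} (h : Par ι c s κ) (u k : ι → K) (hk : k ⬝ᵥ u = 0) :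
    (QuotientGroup.mk (tv u k hk) : ProjectiveSpecialLinearGroup ι K) ∈
      Subgroup.closure (Set.range (rh h)) := by
  have hval : (tv u k hk : Matrix ι ι K) = 1 + vecMulVec u k := rfl
  by_cases hzero : u = 0 ∨ k = 0
  · have h1 : tv u k hk = 1 := by
      apply Subtype.ext
      show (tv u k hk : Matrix ι ι K) = 1
      rw [hval, vec_eq_zero.2 hzero, add_zero]
    rw [h1]
    exact Subgroup.one_mem _
  push Not at hzero
  obtain ⟨hu, hk0⟩ := hzero
  by_cases hc0 : c = 0
  · subst hc0
    have hX : vecMulVec (s⁻¹ • u) k ∈ RK (ι := ι) (0 : K) := by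
      refine mk_mem (smul_ne_zero (inv_ne_zero h.hs) hu) hk0 ?_
      rw [dotProduct_smul, hk, smul_zero]
    have h1 : (QuotientGroup.mk (tv u k hk) : ProjectiveSpecialLinearGroup ι K) =
        rh h ⟨_, hX⟩ := by
      refine (mk_eq_iff _ _).2 ⟨κ, ?_⟩
      rw [rho_val, hval]
      congr 2
      ext i j
      simp only [Matrix.smul_apply, vecMulVec_apply, Pi.smul_apply, smul_eq_mul]
      rw [← mul_assoc, ← mul_assoc, mul_inv_cancel₀ h.hs, one_mul]
    rw [h1]
    exact Subgroup.subset_closure ⟨_, rfl⟩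
  · obtain ⟨g0, -, hg0⟩ := sep (⊥ : Submodule K (ι → K)) (u := u) (by simpa using hu)
    have hg : (c • g0) ⬝ᵥ u = c := by rw [smul_dotProduct, hg0, smul_eq_mul, mul_one]
    have hg' : (c • g0 - s⁻¹ • k) ⬝ᵥ u = c := by
      rw [sub_dotProduct, hg, smul_dotProduct, hk, smul_zero, sub_zero]
    have ne_of : ∀ g : ι → K, g ⬝ᵥ u = c → g ≠ 0 := by
      rintro g hgc rfl
      rw [zero_dotProduct] at hgc
      exact hc0 hgc.symm
    have hX : vecMulVec u (c • g0) ∈ RK (ι := ι) c := mk_mem hu (ne_of _ hg) hg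
    have hY : vecMulVec u (c • g0 - s⁻¹ • k) ∈ RK (ι := ι) c := mk_mem hu (ne_of _ hg') hg'
    have h1 : (QuotientGroup.mk (tv u k hk) : ProjectiveSpecialLinearGroup ι K) =
        rh h ⟨_, hX⟩ * rh h ⟨_, hY⟩ := by
      have h2 : rh h ⟨_, hX⟩ * rh h ⟨_, hY⟩ =
          (QuotientGroup.mk (rho h ⟨_, hX⟩ * rho h ⟨_, hY⟩) : ProjectiveSpecialLinearGroup ι K) := rfl
      rw [h2]
      refine (mk_eq_iff _ _).2 ⟨κ * κ, ?_⟩
      show (κ • (1 + s • vecMulVec u (c • g0))) * (κ • (1 + s • vecMulVec u (c • g0 - s⁻¹ • k))) =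
        (κ * κ) • (1 + vecMulVec u k)
      rw [smul_mul_smul_comm]
      congr 1
      have h3 : (1 + s • vecMulVec u (c • g0)) * (1 + s • vecMulVec u (c • g0 - s⁻¹ • k)) =
          1 + s • vecMulVec u (c • g0) + (s + s * s * c) • vecMulVec u (c • g0 - s⁻¹ • k) := by
        rw [mul_add, mul_one, add_mul, one_mul, smul_mul_smul_comm, mul_eq, hg, smul_smul]
        module
      rw [h3]
      have h4 : s + s * s * c = - s := by
        have := h.hc
        linear_combination s * this
      rw [h4]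
      ext i j
      simp only [Matrix.add_apply, Matrix.smul_apply, vecMulVec_apply, Pi.smul_apply, Pi.sub_apply,
        smul_eq_mul]
      have h5 : s * s⁻¹ = 1 := mul_inv_cancel₀ h.hs
      linear_combination (u i * k j) * h5
    rw [h1]
    exact Subgroup.mul_mem _ (Subgroup.subset_closure ⟨_, rfl⟩) (Subgroup.subset_closure ⟨_, rfl⟩)

theorem rh_generate {c s κ : K} (h : Par ι c s κ) :
    Subgroup.closure (Set.range (rh h)) = (⊤ : Subgroup (ProjectiveSpecialLinearGroup ι K)) := by
  rw [eq_top_iff]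
  intro x _
  induction x using QuotientGroup.induction_on with
  | H A =>
    have h1 : Subgroup.closure {T : SpecialLinearGroup ι K | ∃ u k h, T = tv u k h} ≤
        (Subgroup.closure (Set.range (rh h))).comap
          (QuotientGroup.mk' (Subgroup.center (SpecialLinearGroup ι K))) := by
      rw [Subgroup.closure_le]
      rintro T ⟨u, k, hk, rfl⟩
      exact tv_mem h u k hk
    exact h1 (tv_generate A)

end Pool.Agent.Helper2.RO
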