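import Pool.Agent.Helper2.RO.Defs

/-!
# Block RO-N3: the involutions of `PSL(3, K)`

`rank_one`: if the image of `M` (acting on columns) has dimension at most one and `M ≠ 0` then `M = w gᵀ`: let `w` be a
generator of the image, `M e_j = g_j w`.
`sq_zero3`: `M² = 0`, `M ≠ 0` for a `3 × 3` matrix: the image of `M` is contained in the kernel, so its dimension `d`
satisfies `2 d ≤ 3`.
`three`: let `A² = 1`, `A` not scalar. If `2 = 0`: `(A - 1)² = 0`, so `A = 1 + w gᵀ`. If `2 ≠ 0`: `(A - 1) (A + 1) = 0`, so the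
image of `A + 1` is in the kernel of `A - 1` and `rank (A + 1) + rank (A - 1) ≤ 3`; both are `≠ 0`, so one of them has
rank one: `A = - 1 + w gᵀ` or `A = 1 + w gᵀ`.
`three_psl`: let `a = mk A` have order two. Then `A² = q` is a scalar matrix (`mem_center_iff`), `q³ = (det A)² = 1`, and
`B = q A` is in `SL(3, K)`, `mk B = a`, `B² = q³ = 1`, `B` is not a scalar matrix (else `a = 1`).
-/

set_option autoImplicit false

open Matrix

namespace Pool.Agent.Helper2.RO

variable {K : Type*} [Field K]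

theorem rank_one {n : ℕ} {M : Matrix (Fin n) (Fin n) K} (h0 : M ≠ 0) (h : M.rank ≤ 1) :
    ∃ w g : Fin n → K, w ≠ 0 ∧ g ≠ 0 ∧ M = vecMulVec w g := by
  have h1 : Module.finrank K (LinearMap.range M.mulVecLin) ≤ 1 := h
  obtain ⟨v, hv⟩ := finrank_le_one_iff.1 h1
  have h2 : ∀ j : Fin n, ∃ c : K, ∀ i, M i j = (v : Fin n → K) i * c := by
    intro j
    obtain ⟨c, hc⟩ := hv ⟨M.mulVecLin (Pi.single j 1), LinearMap.mem_range_self _ _⟩
    refine ⟨c, fun i => ?_⟩
    have h3 := congrFun (congrArg Subtype.val hc) i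
    simp only [Submodule.coe_smul, Pi.smul_apply, smul_eq_mul, mulVecLin_apply, mulVec_single_one,
      col_apply] at h3
    rw [← h3, mul_comm]
  choose g hg using h2
  have h4 : M = vecMulVec (v : Fin n → K) g := by
    ext i j
    rw [vecMulVec_apply, hg j i]
  refine ⟨v, g, ?_, ?_, h4⟩
  · intro h5
    apply h0
    rw [h4, vec_eq_zero]
    exact Or.inl h5
  · intro h5
    apply h0
    rw [h4, vec_eq_zero]
    exact Or.inr h5

theorem three {A : Matrix (Fin 3) (Fin 3) K} (h : A * A = 1)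
    (hs : ∀ q : K, A ≠ q • (1 : Matrix (Fin 3) (Fin 3) K)) :
    ∃ (r : K) (w g : Fin 3 → K), w ≠ 0 ∧ g ≠ 0 ∧ r * r = 1 ∧
      A = r • (1 : Matrix (Fin 3) (Fin 3) K) + vecMulVec w g := by
  have hmul : (A - 1) * (A + 1) = 0 := by
    rw [sub_mul, mul_add, h, mul_one, one_mul]
    abel
  have hr : (A - 1).rank + (A + 1).rank ≤ 3 := by
    have := rank_add_rank_le_card_of_mul_eq_zero hmul
    rwa [Fintype.card_fin] at this
  have hP : A - 1 ≠ 0 := by
    intro h1
    apply hs 1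
    rw [one_smul]
    exact sub_eq_zero.1 h1
  have hQ : A + 1 ≠ 0 := by
    intro h1
    apply hs (-1)
    rw [neg_smul, one_smul]
    exact eq_neg_of_add_eq_zero_left h1
  rcases (by omega : (A - 1).rank ≤ 1 ∨ (A + 1).rank ≤ 1) with h1 | h1
  · obtain ⟨w, g, hw, hg, e⟩ := rank_one hP h1
    refine ⟨1, w, g, hw, hg, one_mul 1, ?_⟩
    rw [one_smul, ← e]
    abel
  · obtain ⟨w, g, hw, hg, e⟩ := rank_one hQ h1
    refine ⟨-1, w, g, hw, hg, by ring, ?_⟩
    rw [neg_smul, one_smul, ← e]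
    abel

theorem three_psl (a : ProjectiveSpecialLinearGroup (Fin 3) K) (ha : orderOf a = 2) :
    ∃ (A : SpecialLinearGroup (Fin 3) K) (r : K) (w g : Fin 3 → K), w ≠ 0 ∧ g ≠ 0 ∧
      (A : Matrix (Fin 3) (Fin 3) K) = r • (1 : Matrix (Fin 3) (Fin 3) K) + vecMulVec w g ∧
      (A : Matrix (Fin 3) (Fin 3) K) * (A : Matrix (Fin 3) (Fin 3) K) =
        (r * r) • (1 : Matrix (Fin 3) (Fin 3) K) ∧
      (QuotientGroup.mk A : ProjectiveSpecialLinearGroup (Fin 3) K) = a := by
  obtain ⟨A, rfl⟩ := QuotientGroup.mk_surjective a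
  have hne : (QuotientGroup.mk A : ProjectiveSpecialLinearGroup (Fin 3) K) ≠ 1 := by
    intro h1
    rw [h1, orderOf_one] at ha
    omega
  have hsq : (QuotientGroup.mk A : ProjectiveSpecialLinearGroup (Fin 3) K) ^ 2 = 1 := by
    rw [← ha]
    exact pow_orderOf_eq_one _
  have hc : A * A ∈ Subgroup.center (SpecialLinearGroup (Fin 3) K) := by
    rw [← QuotientGroup.eq_one_iff, QuotientGroup.mk_mul, ← sq]
    exact hsq
  obtain ⟨q, hq3, hq⟩ := Matrix.SpecialLinearGroup.mem_center_iff.1 hc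
  rw [Fintype.card_fin] at hq3
  have hq' : (A : Matrix (Fin 3) (Fin 3) K) * (A : Matrix (Fin 3) (Fin 3) K) =
      q • (1 : Matrix (Fin 3) (Fin 3) K) := by
    rw [← Matrix.SpecialLinearGroup.coe_mul, ← hq, scalar_apply, smul_one_eq_diagonal]
  have hS : (q • (1 : Matrix (Fin 3) (Fin 3) K)).det = 1 := by
    rw [det_smul, Fintype.card_fin, det_one, mul_one, hq3]
  obtain ⟨Z, hZ⟩ : ∃ Z : SpecialLinearGroup (Fin 3) K,
      (Z : Matrix (Fin 3) (Fin 3) K) = q • (1 : Matrix (Fin 3) (Fin 3) K) := ⟨⟨_, hS⟩, rfl⟩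
  have hScen : Z ∈ Subgroup.center (SpecialLinearGroup (Fin 3) K) := by
    rw [Matrix.SpecialLinearGroup.mem_center_iff]
    refine ⟨q, by rw [Fintype.card_fin, hq3], ?_⟩
    rw [scalar_apply, hZ, smul_one_eq_diagonal]
  have hB : ((Z * A : SpecialLinearGroup (Fin 3) K) : Matrix (Fin 3) (Fin 3) K) =
      q • (A : Matrix (Fin 3) (Fin 3) K) := by
    rw [Matrix.SpecialLinearGroup.coe_mul, hZ, smul_mul_assoc, one_mul]
  have hBB : (q • (A : Matrix (Fin 3) (Fin 3) K)) * (q • (A : Matrix (Fin 3) (Fin 3) K)) = 1 := by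
    rw [smul_mul_assoc, mul_smul_comm, hq', smul_smul, smul_smul,
      show q * q * q = q ^ 3 by ring, hq3, one_smul]
  have hmk : (QuotientGroup.mk (Z * A) : ProjectiveSpecialLinearGroup (Fin 3) K) =
      QuotientGroup.mk A := by
    rw [QuotientGroup.mk_mul, (QuotientGroup.eq_one_iff _).2 hScen, one_mul]
  have hns : ∀ s : K, q • (A : Matrix (Fin 3) (Fin 3) K) ≠ s • (1 : Matrix (Fin 3) (Fin 3) K) := by
    intro s hs
    apply hne
    rw [← hmk, QuotientGroup.eq_one_iff, Matrix.SpecialLinearGroup.mem_center_iff]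
    refine ⟨s, ?_, ?_⟩
    · have h1 : ((Z * A : SpecialLinearGroup (Fin 3) K) : Matrix (Fin 3) (Fin 3) K).det = 1 :=
        (Z * A).2
      rw [hB, hs, det_smul, det_one, mul_one] at h1
      exact h1
    · rw [hB, hs, scalar_apply, smul_one_eq_diagonal]
  obtain ⟨r, w, g, hw, hg, hr, e⟩ := three hBB hns
  refine ⟨Z * A, r, w, g, hw, hg, ?_, ?_, hmk⟩
  · rw [hB, e]
  · rw [hB, hBB, hr, one_smul]

end Pool.Agent.Helper2.RO
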