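import Pool.Agent.Helper2.RO.ConjA
import Pool.Agent.Helper2.RO.ConjB
import Pool.Agent.Helper2.RO.Desc
import Pool.Agent.Helper2.RO.GenB
import Pool.Agent.Helper2.RO.Three
import Pool.Agent.Helper2.RO.Ext

/-!
# Project RO: assembly
-/

set_option autoImplicit false

open Matrix

namespace Pool.Agent.Helper2.RO

variable {K : Type*} [Field K] {ι : Type*} [Fintype ι] [DecidableEq ι]

/-- The conjugacy class of a member is the whole family. -/
theorem isConj_iff {c s κ : K} (h : Par ι c s κ)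
    (htr : ∀ X ∈ RK (ι := ι) c, ∀ Y ∈ RK (ι := ι) c, ∃ A : SpecialLinearGroup ι K,
      (A : Matrix ι ι K) * X * ((A⁻¹ : SpecialLinearGroup ι K) : Matrix ι ι K) = Y)
    (X : RK (ι := ι) c) (b : ProjectiveSpecialLinearGroup ι K) :
    IsConj (rh h X) b ↔ ∃ Y, rh h Y = b := by
  constructor
  · intro hb
    obtain ⟨g, hg⟩ := _root_.isConj_iff.1 hb
    obtain ⟨A, rfl⟩ := QuotientGroup.mk_surjective g
    rw [rh_conj] at hg
    exact ⟨_, hg⟩
  · rintro ⟨Y, rfl⟩
    obtain ⟨A, hA⟩ := htr X X.2 Y Y.2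
    rw [_root_.isConj_iff]
    refine ⟨QuotientGroup.mk A, ?_⟩
    rw [rh_conj]
    congr 1
    exact Subtype.ext hA

/-- The assembly. -/
theorem assemble [Finite K] (hn : 3 ≤ Fintype.card ι) {c s κ : K} (h : Par ι c s κ)
    (htr : ∀ X ∈ RK (ι := ι) c, ∀ Y ∈ RK (ι := ι) c, ∃ A : SpecialLinearGroup ι K,
      (A : Matrix ι ι K) * X * ((A⁻¹ : SpecialLinearGroup ι K) : Matrix ι ι K) = Y)
    (hcj : ∀ T : Equiv.Perm (RK (ι := ι) c), (∀ X Y, X ≠ Y →
      orderOf ((1 + s • (T X : Matrix ι ι K)) * (1 + s • (T Y : Matrix ι ι K))) =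
      orderOf ((1 + s • (X : Matrix ι ι K)) * (1 + s • (Y : Matrix ι ι K)))) →
      ∀ X Y, T ⟨_, refl_conj_mem h X.2 Y.2⟩ = ⟨_, refl_conj_mem h (T X).2 (T Y).2⟩)
    (X₀ : RK (ι := ι) c) :
    orderOf (rh h X₀) = 2 ∧
    ∀ τ : Equiv.Perm {b : ProjectiveSpecialLinearGroup ι K // IsConj (rh h X₀) b},
      (∀ x y, x ≠ y → orderOf ((τ x : ProjectiveSpecialLinearGroup ι K) * τ y) =
        orderOf ((x : ProjectiveSpecialLinearGroup ι K) * y)) →
      ∃ φ : MulAut (ProjectiveSpecialLinearGroup ι K),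
        φ '' {b | IsConj (rh h X₀) b} = {b | IsConj (rh h X₀) b} ∧ ∀ x, φ x.1 = (τ x).1 := by
  classical
  refine ⟨?_, ?_⟩
  · rw [orderOf_eq_prime_iff]
    constructor
    · rw [pow_two]
      have h1 : rh h X₀ * rh h X₀ = QuotientGroup.mk (rho h X₀ * rho h X₀) := rfl
      rw [h1]
      have h2 : (QuotientGroup.mk (1 : SpecialLinearGroup ι K) :
          ProjectiveSpecialLinearGroup ι K) = 1 := rfl
      rw [← h2, eq_comm, mk_eq_iff]
      refine ⟨κ * κ, ?_⟩
      show (κ • (1 + s • (X₀ : Matrix ι ι K))) * (κ • (1 + s • (X₀ : Matrix ι ι K))) =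
        (κ * κ) • (1 : Matrix ι ι K)
      rw [smul_mul_smul_comm, sq_one h X₀.2]
    · intro h1
      have h2 : (QuotientGroup.mk (1 : SpecialLinearGroup ι K) :
          ProjectiveSpecialLinearGroup ι K) = 1 := rfl
      rw [← h2, eq_comm] at h1
      obtain ⟨r, hr⟩ := (mk_eq_iff _ _).1 h1
      change κ • (1 + s • (X₀ : Matrix ι ι K)) = r • (1 : Matrix ι ι K) at hr
      obtain ⟨w, g, hw, hg, hgw, hX⟩ := X₀.2
      have hκ : κ ≠ 0 := by
        rintro rfl
        have h3 := h.hdet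
        rw [zero_pow (by omega), zero_mul] at h3
        exact zero_ne_one h3
      rw [hX, smul_add] at hr
      have h3 := not_scalar (ι := ι) hn (r := κ) (w := (κ * s) • w) (g := g)
        (A := κ • (1 : Matrix ι ι K) + vecMulVec ((κ * s) • w) g)
        (by rw [Ne, smul_eq_zero]; simp [hκ, h.hs, hw]) hg rfl r
      apply h3
      rw [← hr]
      congr 1
      ext i j
      simp [vecMulVec_apply, mul_assoc]
  intro τ hτ
  have hinj := rh_inj hn h
  let e : RK (ι := ι) c ≃ {b : ProjectiveSpecialLinearGroup ι K // IsConj (rh h X₀) b} :=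
    Equiv.ofBijective (fun X => ⟨rh h X, (isConj_iff h htr X₀ _).2 ⟨X, rfl⟩⟩)
      ⟨fun X Y hXY => hinj (congrArg Subtype.val hXY), fun b => by
        obtain ⟨Y, hY⟩ := (isConj_iff h htr X₀ _).1 b.2
        exact ⟨Y, Subtype.ext hY⟩⟩
  have he : ∀ X, ((e X : {b : ProjectiveSpecialLinearGroup ι K // IsConj (rh h X₀) b}) :
      ProjectiveSpecialLinearGroup ι K) = rh h X := fun X => rfl
  let T : Equiv.Perm (RK (ι := ι) c) := (e.trans τ).trans e.symm
  have hT : ∀ X, rh h (T X) = (τ (e X)).1 := by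
    intro X
    rw [← he]
    show (e (e.symm (τ (e X)))).1 = _
    rw [Equiv.apply_symm_apply]
  have hord : ∀ X Y, X ≠ Y →
      orderOf ((1 + s • (T X : Matrix ι ι K)) * (1 + s • (T Y : Matrix ι ι K))) =
      orderOf ((1 + s • (X : Matrix ι ι K)) * (1 + s • (Y : Matrix ι ι K))) := by
    intro X Y hXY
    rw [← order_eq hn h, ← order_eq hn h, hT, hT, hτ _ _ (fun hc => hXY (e.injective hc))]
    rfl
  have hcj' := hcj T hord
  obtain ⟨φ, hφ⟩ := extend (rh h) hinj
    (fun g X => by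
      obtain ⟨A, rfl⟩ := QuotientGroup.mk_surjective g
      exact ⟨_, rh_conj h A X⟩)
    (rh_generate h) (faithful hn h) T (by
      intro x y z hz
      rw [rh_conj_rh] at hz
      have h1 := hinj hz
      rw [rh_conj_rh, ← h1, hcj'])
  have hφ' : ∀ x : {b : ProjectiveSpecialLinearGroup ι K // IsConj (rh h X₀) b},
      φ x.1 = (τ x).1 := by
    intro x
    obtain ⟨X, rfl⟩ := e.surjective x
    rw [he, hφ, hT]
  refine ⟨φ, ?_, hφ'⟩
  ext b
  constructor
  · rintro ⟨x, hx, rfl⟩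
    rw [hφ' ⟨x, hx⟩]
    exact (τ ⟨x, hx⟩).2
  · intro hb
    refine ⟨(τ.symm ⟨b, hb⟩).1, (τ.symm ⟨b, hb⟩).2, ?_⟩
    rw [hφ', Equiv.apply_symm_apply]

/-- The theorem for an element `a` of rank one. -/
theorem rank_one_class [Finite K] (hn : 3 ≤ Fintype.card ι) (A : SpecialLinearGroup ι K)
    {r : K} {w g : ι → K} (hw : w ≠ 0) (hg : g ≠ 0)
    (hA : (A : Matrix ι ι K) = r • (1 : Matrix ι ι K) + vecMulVec w g)
    (hA2 : (A : Matrix ι ι K) * (A : Matrix ι ι K) = (r * r) • (1 : Matrix ι ι K))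
    (a : ProjectiveSpecialLinearGroup ι K) (ha : QuotientGroup.mk A = a) :
    orderOf a = 2 ∧
    ∀ τ : Equiv.Perm {b : ProjectiveSpecialLinearGroup ι K // IsConj a b},
      (∀ x y, x ≠ y → orderOf ((τ x : ProjectiveSpecialLinearGroup ι K) * τ y) =
        orderOf ((x : ProjectiveSpecialLinearGroup ι K) * y)) →
      ∃ φ : MulAut (ProjectiveSpecialLinearGroup ι K),
        φ '' {b | IsConj a b} = {b | IsConj a b} ∧ ∀ x, φ x.1 = (τ x).1 := by
  rcases desc A hw hg hA hA2 with ⟨h2, h, X, hX⟩ | ⟨h2, h, X, hX⟩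
  · have ha' : a = rh h X := by rw [← ha, ← hX]; rfl
    subst ha'
    exact assemble hn h (fun X hX Y hY => trans_one hX hY)
      (fun T hT X Y => conj_one hn h2 h T hT X Y) X
  · have ha' : a = rh h X := by rw [← ha, ← hX]; rfl
    subst ha'
    have : CharP K 2 := CharTwo.of_one_ne_zero_of_two_eq_zero one_ne_zero h2
    exact assemble hn h (fun X hX Y hY => trans_zero hn hX hY)
      (fun T hT X Y => conj_zero h T hT X Y) X

end Pool.Agent.Helper2.RO
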