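import Pool.Agent.Helper2.RO.Defs

/-!
# Block RO-S1: maps which fix the rank one idempotents commuting with `a`, step 1

Here `a = v fᵀ`, `f · v = 1`; the `Y = w' g'ᵀ` with `f · w' = 0`, `g' · v = 0`, `g' · w' = 1` are fixed by `P`
(`mul_eq_zero_iff`). Let `X = w gᵀ`, `P X = w1 g1ᵀ`.
(i) For `u` in the kernel of `f`, `u ≠ 0`, and `x` not in the span of `v`, there is a `g'` with `g' · v = 0`,
`g' · u = 1`, `g' · x ≠ 0`: by `sep` choose `h0` with `h0 · v = 0`, `h0 · u = 1` (`u` is not in the span of `v`, as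
`f · v = 1`) and `h1` with `h1 · v = 0`, `h1 · x = 1`; if `h0 · x ≠ 0` take `h0`, else if `h1 · u ≠ 0` take
`(h1 · u)⁻¹ h1`, else `h0 + h1`.
(ii) `exists_Y`: if `w` is not in the span of `v` and `g` not in the span of `f`: `sep` (for the span of `f`) gives
`u` with `f · u = 0`, `g · u = 1`; use (i) with `x = w`. Then `trace (X Y) = (g · w') (g' · w) ≠ 0`.
(iii) So `trace (P X Y) ≠ 0`, hence `w1` is not in the span of `v`, `g1` not in the span of `f`. If `f · u = 0`,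
`g · u = 0`, `u ≠ 0` then by (i) (with `x = w1`) there is a `Y = u g'ᵀ` with `g' · w1 ≠ 0` and `trace (X Y) = 0`, so
`trace (P X Y) = (g1 · u) (g' · w1) = 0` and `g1 · u = 0`. By `sep` (if `g1` were not in the span of `f`, `g` there
would be a `u` with `f · u = g · u = 0`, `g1 · u = 1`) `g1 = γ f + c g`, and `c ≠ 0`. By transposition
`w1 = β v + c' w`, `c' ≠ 0`.
(iv) `c c' = 1`: choose `u` in the kernel of `f` with `g · u ≠ 0` and `w` not in the span of `v`, `u`: let `u1` be in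
the kernel of `f` with `g · u1 = 1`; if `w = x v + y u1` choose `u2` in the kernel of `f` not in the span of `u1`
(`3 ≤ n`; for instance a nonzero vector with `f · u2 = 0`, `h · u2 = 0` for an `h` with `h · u1 = 1`) and take
`u = u2` if `g · u2 ≠ 0`, `u = u1 + u2` otherwise. Then there is a `g'` with `g' · v = 0`, `g' · u = 1`,
`g' · w = (g · u)⁻¹` (`sep` twice), `trace (X Y) = 1`, so `1 = trace (P X Y) = c (g · u) c' (g' · w) = c c'`.
Hence `P X = (β v + c' w) (γ f + c g)ᵀ = (w + (β / c') v) (g + (γ / c) f)ᵀ`, and the last equation is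
`trace (P X) = 1`.
-/

set_option autoImplicit false

open Matrix

namespace Pool.Agent.Helper2.RO

variable {K : Type*} [Field K] {ι : Type*} [Fintype ι] [DecidableEq ι]

/-- (i) -/
theorem sep_ne {v f u x : ι → K} (hvf : f ⬝ᵥ v = 1) (hu : f ⬝ᵥ u = 0) (hu0 : u ≠ 0)
    (hx : x ∉ Submodule.span K {v}) : ∃ g' : ι → K, g' ⬝ᵥ v = 0 ∧ g' ⬝ᵥ u = 1 ∧ g' ⬝ᵥ x ≠ 0 := by
  have huv : u ∉ Submodule.span K {v} := by
    intro h
    obtain ⟨c, rfl⟩ := Submodule.mem_span_singleton.1 h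
    rw [dotProduct_smul, hvf, smul_eq_mul, mul_one] at hu
    exact hu0 (by rw [hu, zero_smul])
  obtain ⟨h0, h0v, h0u⟩ := sep _ huv
  obtain ⟨h1, h1v, h1x⟩ := sep _ hx
  have e0 : h0 ⬝ᵥ v = 0 := h0v v (Submodule.mem_span_singleton_self v)
  have e1 : h1 ⬝ᵥ v = 0 := h1v v (Submodule.mem_span_singleton_self v)
  by_cases c0 : h0 ⬝ᵥ x = 0
  · by_cases c1 : h1 ⬝ᵥ u = 0
    · refine ⟨h0 + h1, ?_, ?_, ?_⟩
      · rw [add_dotProduct, e0, e1, add_zero]
      · rw [add_dotProduct, h0u, c1, add_zero]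
      · rw [add_dotProduct, c0, h1x, zero_add]
        exact one_ne_zero
    · refine ⟨(h1 ⬝ᵥ u)⁻¹ • h1, ?_, ?_, ?_⟩
      · rw [smul_dotProduct, e1, smul_zero]
      · rw [smul_dotProduct, smul_eq_mul, inv_mul_cancel₀ c1]
      · rw [smul_dotProduct, h1x, smul_eq_mul, mul_one]
        exact inv_ne_zero c1
  · exact ⟨h0, e0, h0u, c0⟩

/-- A vector of the kernel of `f` with `g · u = 1`. -/
private theorem exists_u67 {f g : ι → K} (hg : g ∉ Submodule.span K {f}) :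
    ∃ u : ι → K, f ⬝ᵥ u = 0 ∧ g ⬝ᵥ u = 1 := by
  obtain ⟨u, hu, hu1⟩ := sep _ hg
  refine ⟨u, ?_, ?_⟩
  · rw [dotProduct_comm]
    exact hu f (Submodule.mem_span_singleton_self f)
  · rw [dotProduct_comm, hu1]

/-- (ii) -/
theorem exists_Y {v f w g : ι → K} (hvf : f ⬝ᵥ v = 1) (hw : w ∉ Submodule.span K {v})
    (hg : g ∉ Submodule.span K {f}) : ∃ w' g' : ι → K, f ⬝ᵥ w' = 0 ∧ g' ⬝ᵥ v = 0 ∧ g' ⬝ᵥ w' = 1 ∧
      g ⬝ᵥ w' ≠ 0 ∧ g' ⬝ᵥ w ≠ 0 := by
  obtain ⟨u, hfu, hgu⟩ := exists_u67 hg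
  have hu0 : u ≠ 0 := by
    rintro rfl
    rw [dotProduct_zero] at hgu
    exact zero_ne_one hgu
  obtain ⟨g', h1, h2, h3⟩ := sep_ne hvf hfu hu0 hw
  exact ⟨u, g', hfu, h1, h2, by rw [hgu]; exact one_ne_zero, h3⟩

/-- The choice of `u` in (iv). -/
private theorem exists_u2_67 (hn : 3 ≤ Fintype.card ι) {v f w g : ι → K} (hvf : f ⬝ᵥ v = 1)
    (hw : w ∉ Submodule.span K {v}) (hg : g ∉ Submodule.span K {f}) :
    ∃ u : ι → K, f ⬝ᵥ u = 0 ∧ g ⬝ᵥ u ≠ 0 ∧ w ∉ Submodule.span K {v, u} := by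
  obtain ⟨u1, hfu, hgu⟩ := exists_u67 hg
  by_cases hc : w ∈ Submodule.span K {v, u1}
  · obtain ⟨x, y, hxy⟩ := Submodule.mem_span_pair.1 hc
    have hy : y ≠ 0 := by
      rintro rfl
      rw [zero_smul, add_zero] at hxy
      exact hw (Submodule.mem_span_singleton.2 ⟨x, hxy⟩)
    have hu1 : u1 ≠ 0 := by
      rintro rfl
      rw [dotProduct_zero] at hgu
      exact zero_ne_one hgu
    -- every vector of the kernel of `f` which is no multiple of `u1` is good
    have key : ∀ u : ι → K, f ⬝ᵥ u = 0 → u ∉ Submodule.span K {u1} →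
        w ∉ Submodule.span K {v, u} := by
      intro u hu hnu hmem
      obtain ⟨a, b, hab⟩ := Submodule.mem_span_pair.1 hmem
      have h1 : x = f ⬝ᵥ w := by
        rw [← hxy, dotProduct_add, dotProduct_smul, dotProduct_smul, hvf, hfu]
        simp
      have h2 : a = f ⬝ᵥ w := by
        rw [← hab, dotProduct_add, dotProduct_smul, dotProduct_smul, hvf, hu]
        simp
      have h3 : x = a := h1.trans h2.symm
      subst h3
      have h4 : y • u1 = b • u := by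
        have h5 : x • v + y • u1 = x • v + b • u := by rw [hxy, hab]
        exact add_left_cancel h5
      have hb : b ≠ 0 := by
        rintro rfl
        rw [zero_smul, smul_eq_zero] at h4
        rcases h4 with h4 | h4
        · exact hy h4
        · exact hu1 h4
      refine hnu (Submodule.mem_span_singleton.2 ⟨b⁻¹ * y, ?_⟩)
      rw [mul_smul, h4, smul_smul, inv_mul_cancel₀ hb, one_smul]
    obtain ⟨h, -, hh⟩ := sep (⊥ : Submodule K (ι → K)) (u := u1)
      (by rw [Submodule.mem_bot]; exact hu1)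
    obtain ⟨u2, hu20, hfu2, hhu2⟩ := exists_perp hn f h
    have hu2 : u2 ∉ Submodule.span K {u1} := by
      intro hm
      obtain ⟨c, rfl⟩ := Submodule.mem_span_singleton.1 hm
      rw [dotProduct_smul, hh, smul_eq_mul, mul_one] at hhu2
      exact hu20 (by rw [hhu2, zero_smul])
    by_cases hg2 : g ⬝ᵥ u2 = 0
    · refine ⟨u1 + u2, ?_, ?_, key _ ?_ ?_⟩
      · rw [dotProduct_add, hfu, hfu2, add_zero]
      · rw [dotProduct_add, hgu, hg2, add_zero]
        exact one_ne_zero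
      · rw [dotProduct_add, hfu, hfu2, add_zero]
      · intro hm
        apply hu2
        have h6 := Submodule.sub_mem _ hm (Submodule.mem_span_singleton_self u1)
        rwa [add_sub_cancel_left] at h6
    · exact ⟨u2, hfu2, hg2, key _ hfu2 hu2⟩
  · exact ⟨u1, hfu, by rw [hgu]; exact one_ne_zero, hc⟩

/-- (iv) -/
theorem exists_Y_one (hn : 3 ≤ Fintype.card ι) {v f w g : ι → K} (hvf : f ⬝ᵥ v = 1)
    (hw : w ∉ Submodule.span K {v}) (hg : g ∉ Submodule.span K {f}) :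
    ∃ w' g' : ι → K, f ⬝ᵥ w' = 0 ∧ g' ⬝ᵥ v = 0 ∧ g' ⬝ᵥ w' = 1 ∧
      (g ⬝ᵥ w') * (g' ⬝ᵥ w) = 1 := by
  obtain ⟨u, hfu, hgu, hwu⟩ := exists_u2_67 hn hvf hw hg
  have hu0 : u ≠ 0 := by
    rintro rfl
    exact hgu (dotProduct_zero _)
  have huv : u ∉ Submodule.span K {v} := by
    intro h
    obtain ⟨c, rfl⟩ := Submodule.mem_span_singleton.1 h
    rw [dotProduct_smul, hvf, smul_eq_mul, mul_one] at hfu
    exact hu0 (by rw [hfu, zero_smul])
  obtain ⟨h0, h0v, h0u⟩ := sep _ huv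
  obtain ⟨h1, h1v, h1w⟩ := sep _ hwu
  have e0 : h0 ⬝ᵥ v = 0 := h0v v (Submodule.mem_span_singleton_self v)
  have e1 : h1 ⬝ᵥ v = 0 := h1v v (Submodule.subset_span (Set.mem_insert _ _))
  have e2 : h1 ⬝ᵥ u = 0 := h1v u (Submodule.subset_span (Set.mem_insert_of_mem _ rfl))
  refine ⟨u, h0 + ((g ⬝ᵥ u)⁻¹ - h0 ⬝ᵥ w) • h1, hfu, ?_, ?_, ?_⟩
  · rw [add_dotProduct, smul_dotProduct, e0, e1, smul_zero, add_zero]
  · rw [add_dotProduct, smul_dotProduct, h0u, e2, smul_zero, add_zero]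
  · rw [add_dotProduct, smul_dotProduct, h1w, smul_eq_mul, mul_one, add_sub_cancel,
      mul_inv_cancel₀ hgu]

end Pool.Agent.Helper2.RO
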