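import Pool.Agent.Helper2.RO.One1

/-!
# Block RO-S2: maps which fix the rank one idempotents commuting with `a`, step 1, conclusion

The proof is in the header of `One1.lean`, (iii) and (iv). For the transposed statement apply the argument
to the map `X ↦ (P Xᵀ)ᵀ` or repeat it with the roles of the two vectors exchanged: `span_of` is used
for `g1` (with `v f w g g1`), and, with all pairs exchanged, for `w1`.
`span_of`: if `f · u = g · u = 0` implies `g1 · u = 0` then `g1` is in the span of `f`, `g` (`sep`, dot products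
are symmetric).
-/

set_option autoImplicit false

open Matrix

namespace Pool.Agent.Helper2.RO

variable {K : Type*} [Field K] {ι : Type*} [Fintype ι] [DecidableEq ι]

theorem span_of {f g g1 : ι → K} (h : ∀ u : ι → K, f ⬝ᵥ u = 0 → g ⬝ᵥ u = 0 → g1 ⬝ᵥ u = 0) :
    ∃ x y : K, g1 = x • f + y • g := by
  by_contra hcon
  have hn : g1 ∉ Submodule.span K {f, g} := by
    intro hm
    obtain ⟨x, y, hxy⟩ := Submodule.mem_span_pair.1 hm
    exact hcon ⟨x, y, hxy.symm⟩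
  obtain ⟨u, hu, hu1⟩ := sep _ hn
  have e1 : f ⬝ᵥ u = 0 := by
    rw [dotProduct_comm]
    exact hu f (Submodule.subset_span (Set.mem_insert _ _))
  have e2 : g ⬝ᵥ u = 0 := by
    rw [dotProduct_comm]
    exact hu g (Submodule.subset_span (Set.mem_insert_of_mem _ rfl))
  have e3 := h u e1 e2
  rw [dotProduct_comm, hu1] at e3
  exact one_ne_zero e3

/-- Step 1. -/
theorem step_one (hn : 3 ≤ Fintype.card ι) {P : Matrix ι ι K → Matrix ι ι K} (hP : Pres 1 P)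
    {v f : ι → K} (hvf : f ⬝ᵥ v = 1)
    (hfix : ∀ Y ∈ RK (1 : K), vecMulVec v f * Y = 0 → Y * vecMulVec v f = 0 → P Y = Y)
    {w g : ι → K} (hwg : g ⬝ᵥ w = 1) (hw : w ∉ Submodule.span K {v})
    (hg : g ∉ Submodule.span K {f}) :
    ∃ β γ : K, P (vecMulVec w g) = vecMulVec (w + β • v) (g + γ • f) ∧
      β * (g ⬝ᵥ v) + γ * (f ⬝ᵥ w) + β * γ = 0 := by
  have hX : vecMulVec w g ∈ RK (1 : K) := mk_mem_one hwg
  obtain ⟨w1, g1, hw10, hg10, hgw1, hPX⟩ := hP.mem _ hX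
  -- the fixed matrices
  have hY : ∀ w' g' : ι → K, f ⬝ᵥ w' = 0 → g' ⬝ᵥ v = 0 → g' ⬝ᵥ w' = 1 →
      (((g1 ⬝ᵥ w') * (g' ⬝ᵥ w1) = 0 ↔ (g ⬝ᵥ w') * (g' ⬝ᵥ w) = 0) ∧
       ((g1 ⬝ᵥ w') * (g' ⬝ᵥ w1) = 1 ↔ (g ⬝ᵥ w') * (g' ⬝ᵥ w) = 1)) := by
    intro w' g' h1 h2 h3
    have hYm : vecMulVec w' g' ∈ RK (1 : K) := mk_mem_one h3
    have hYf : P (vecMulVec w' g') = vecMulVec w' g' := by
      apply hfix _ hYm
      · rw [mul_eq, h1, zero_smul]
      · rw [mul_eq, h2, zero_smul]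
    have z := hP.zero _ hX _ hYm
    have o := hP.one _ hX _ hYm
    rw [hYf, hPX, trace_mul_eq, trace_mul_eq] at z o
    exact ⟨z, o⟩
  -- neither w1 nor g1 is special
  obtain ⟨wa, ga, a1, a2, a3, a4, a5⟩ := exists_Y hvf hw hg
  have hne : (g1 ⬝ᵥ wa) * (ga ⬝ᵥ w1) ≠ 0 := by
    intro h0
    exact (mul_ne_zero a4 a5) ((hY wa ga a1 a2 a3).1.1 h0)
  have hw1 : w1 ∉ Submodule.span K {v} := by
    intro hm
    obtain ⟨c, rfl⟩ := Submodule.mem_span_singleton.1 hm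
    apply hne
    rw [dotProduct_smul, a2, smul_zero, mul_zero]
  have hg1 : g1 ∉ Submodule.span K {f} := by
    intro hm
    obtain ⟨c, rfl⟩ := Submodule.mem_span_singleton.1 hm
    apply hne
    rw [smul_dotProduct, a1, smul_zero, zero_mul]
  -- g1 is in the span of f, g
  have hA : ∀ u : ι → K, f ⬝ᵥ u = 0 → g ⬝ᵥ u = 0 → g1 ⬝ᵥ u = 0 := by
    intro u hu1 hu2
    by_cases hu0 : u = 0
    · rw [hu0, dotProduct_zero]
    · obtain ⟨g', b1, b2, b3⟩ := sep_ne hvf hu1 hu0 hw1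
      have b4 := (hY u g' hu1 b1 b2).1.2 (by rw [hu2, zero_mul])
      exact (mul_eq_zero.1 b4).resolve_right b3
  obtain ⟨x, c, hg1e⟩ := span_of hA
  -- w1 is in the span of v, w
  have hvf' : v ⬝ᵥ f = 1 := by rw [dotProduct_comm, hvf]
  have hB : ∀ u : ι → K, v ⬝ᵥ u = 0 → w ⬝ᵥ u = 0 → w1 ⬝ᵥ u = 0 := by
    intro u hu1 hu2
    by_cases hu0 : u = 0
    · rw [hu0, dotProduct_zero]
    · obtain ⟨w', b1, b2, b3⟩ := sep_ne hvf' hu1 hu0 hg1
      have c1 : f ⬝ᵥ w' = 0 := by rw [dotProduct_comm, b1]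
      have c2 : u ⬝ᵥ v = 0 := by rw [dotProduct_comm, hu1]
      have c3 : u ⬝ᵥ w' = 1 := by rw [dotProduct_comm, b2]
      have c5 : u ⬝ᵥ w = 0 := by rw [dotProduct_comm, hu2]
      have c4 : g1 ⬝ᵥ w' ≠ 0 := by rw [dotProduct_comm]; exact b3
      have b4 := (hY w' u c1 c2 c3).1.2 (by rw [c5, mul_zero])
      have b5 := (mul_eq_zero.1 b4).resolve_left c4
      rw [dotProduct_comm, b5]
  obtain ⟨y, c', hw1e⟩ := span_of hB
  -- the scalars
  obtain ⟨wb, gb, d1, d2, d3, d4⟩ := exists_Y_one hn hvf hw hg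
  have d5 := (hY wb gb d1 d2 d3).2.2 d4
  have e1 : g1 ⬝ᵥ wb = c * (g ⬝ᵥ wb) := by
    rw [hg1e, add_dotProduct, smul_dotProduct, smul_dotProduct, d1, smul_zero, zero_add, smul_eq_mul]
  have e2 : gb ⬝ᵥ w1 = c' * (gb ⬝ᵥ w) := by
    rw [hw1e, dotProduct_add, dotProduct_smul, dotProduct_smul, d2, smul_zero, zero_add, smul_eq_mul]
  have hcc : c * c' = 1 := by
    rw [e1, e2] at d5
    calc c * c' = (c * c') * ((g ⬝ᵥ wb) * (gb ⬝ᵥ w)) := by rw [d4, mul_one]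
      _ = c * (g ⬝ᵥ wb) * (c' * (gb ⬝ᵥ w)) := by ring
      _ = 1 := d5
  refine ⟨y * c, x * c', ?_, ?_⟩
  · rw [hPX, hg1e, hw1e]
    ext i j
    simp only [vecMulVec_apply, Pi.add_apply, Pi.smul_apply, smul_eq_mul]
    linear_combination (w i * g j - y * x * v i * f j) * hcc
  · rw [hg1e, hw1e] at hgw1
    simp only [add_dotProduct, dotProduct_add, smul_dotProduct, dotProduct_smul, smul_eq_mul, hwg, hvf] at hgw1
    linear_combination hgw1 + (y * x - 1) * hcc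

end Pool.Agent.Helper2.RO
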