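import Pool.Agent.Helper2.RO.Defs

/-!
# Block RO-S3: an idempotent commuting with `w gᵀ` and in general position to `v fᵀ`

We look for `w'`, `g'` with `g · w' = 0`, `g' · w = 0`, `g' · w' = 1`, `f · w' = 1`, `g' · v = s` (any given `s`).
(a) There is a `w'` with `f · w' = 1`, `g · w' = 0` which is not in the span of `v`, `w`: let `w0` be any vector
with `f · w0 = 1`, `g · w0 = 0` (`sep` for `f` and the span of `g`: `f` is not a multiple of `g`, as `g` is not a
multiple of `f` and `f ≠ 0`) and `u ≠ 0` with `f · u = g · u = 0` (`3 ≤ n`). If `w0` is in the span of `v`, `w`,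
`w0 = x v + y w`, and also `w0 + u` is, then `u = x' v + y' w` with `0 = f · u = x' + y' (f · w)`, `0 = g · u =
x' (g · v) + y'`, so `x' (1 - (f · w) (g · v)) = 0`. If `(f · w) (g · v) ≠ 1` then `x' = y' = 0`, a contradiction. If
`(f · w) (g · v) = 1` then `1 = f · w0 = x + y (f · w)` and `0 = g · w0 = x (g · v) + y`, and `(g · v) (x + y (f · w)) =
x (g · v) + y = 0`, so `g · v = 0`, a contradiction.
(b) `v`, `w`, `w'` are linearly independent (`w` is not in the span of `v`), so there is a `g'` with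
`g' · w = 0`, `g' · v = s`, `g' · w' = 1`: by `sep` choose `h1` with `h1 · v = h1 · w = 0`, `h1 · w' = 1` and `h2` with
`h2 · w = 0`, `h2 · v = 1`, put `g' = s h2 + (1 - s (h2 · w')) h1`.
-/

set_option autoImplicit false

open Matrix

namespace Pool.Agent.Helper2.RO

variable {K : Type*} [Field K] {ι : Type*} [Fintype ι] [DecidableEq ι]

/-- (a) -/
theorem exists_w (hn : 3 ≤ Fintype.card ι) {v f w g : ι → K} (hvf : f ⬝ᵥ v = 1)
    (hwg : g ⬝ᵥ w = 1) (hg : g ∉ Submodule.span K {f}) :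
    ∃ w' : ι → K, f ⬝ᵥ w' = 1 ∧ g ⬝ᵥ w' = 0 ∧ w' ∉ Submodule.span K {v, w} := by
  by_contra hcon
  push Not at hcon
  have hf0 : f ≠ 0 := by rintro rfl; simp at hvf
  have hfg : f ∉ Submodule.span K {g} := by
    intro h
    obtain ⟨c, hc⟩ := Submodule.mem_span_singleton.1 h
    have hc0 : c ≠ 0 := by rintro rfl; exact hf0 (by rw [← hc, zero_smul])
    exact hg (Submodule.mem_span_singleton.2 ⟨c⁻¹, by rw [← hc, smul_smul, inv_mul_cancel₀ hc0, one_smul]⟩)
  obtain ⟨w0, hw0, hw1⟩ := sep _ hfg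
  have hg0 : g ⬝ᵥ w0 = 0 := by
    rw [dotProduct_comm]; exact hw0 g (Submodule.mem_span_singleton_self g)
  have hf1 : f ⬝ᵥ w0 = 1 := by rw [dotProduct_comm]; exact hw1
  obtain ⟨u, hu0, hfu, hgu⟩ := exists_perp hn f g
  obtain ⟨x, y, hxy⟩ := Submodule.mem_span_pair.1 (hcon w0 hf1 hg0)
  obtain ⟨x1, y1, hxy1⟩ := Submodule.mem_span_pair.1
    (hcon (w0 + u) (by rw [dotProduct_add, hf1, hfu, add_zero]) (by rw [dotProduct_add, hg0, hgu, add_zero]))
  have hu : (x1 - x) • v + (y1 - y) • w = u := by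
    have : u = (w0 + u) - w0 := by abel
    rw [this, ← hxy1, ← hxy, sub_smul, sub_smul]
    abel
  have e1 : (x1 - x) + (y1 - y) * (f ⬝ᵥ w) = 0 := by
    have := hfu
    rw [← hu, dotProduct_add, dotProduct_smul, dotProduct_smul, hvf, smul_eq_mul, smul_eq_mul, mul_one] at this
    exact this
  have e2 : (x1 - x) * (g ⬝ᵥ v) + (y1 - y) = 0 := by
    have := hgu
    rw [← hu, dotProduct_add, dotProduct_smul, dotProduct_smul, hwg, smul_eq_mul, smul_eq_mul, mul_one] at this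
    exact this
  have e3 : x + y * (f ⬝ᵥ w) = 1 := by
    have := hf1
    rw [← hxy, dotProduct_add, dotProduct_smul, dotProduct_smul, hvf, smul_eq_mul, smul_eq_mul, mul_one] at this
    exact this
  have e4 : x * (g ⬝ᵥ v) + y = 0 := by
    have := hg0
    rw [← hxy, dotProduct_add, dotProduct_smul, dotProduct_smul, hwg, smul_eq_mul, smul_eq_mul, mul_one] at this
    exact this
  by_cases hc : (f ⬝ᵥ w) * (g ⬝ᵥ v) = 1
  · have h5 : g ⬝ᵥ v = 0 := by
      linear_combination (-(g ⬝ᵥ v)) * e3 + e4 + y * hc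
    rw [h5, mul_zero] at hc
    exact zero_ne_one hc
  · have h6 : (x1 - x) * (1 - (f ⬝ᵥ w) * (g ⬝ᵥ v)) = 0 := by
      linear_combination e1 - (f ⬝ᵥ w) * e2
    have h7 : x1 - x = 0 := by
      rcases mul_eq_zero.1 h6 with h | h
      · exact h
      · exact absurd (sub_eq_zero.1 h).symm hc
    have h8 : y1 - y = 0 := by
      rw [h7, zero_mul, zero_add] at e2; exact e2
    apply hu0
    rw [← hu, h7, h8, zero_smul, zero_smul, add_zero]

/-- (b) -/
theorem exists_gen (hn : 3 ≤ Fintype.card ι) {v f w g : ι → K} (hvf : f ⬝ᵥ v = 1)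
    (hwg : g ⬝ᵥ w = 1) (hw : w ∉ Submodule.span K {v}) (hg : g ∉ Submodule.span K {f}) (s : K) :
    ∃ w' g' : ι → K, g ⬝ᵥ w' = 0 ∧ g' ⬝ᵥ w = 0 ∧ g' ⬝ᵥ w' = 1 ∧ f ⬝ᵥ w' = 1 ∧ g' ⬝ᵥ v = s := by
  obtain ⟨w', hf1, hg0, hw'⟩ := exists_w hn hvf hwg hg
  obtain ⟨h1, h1z, h1w'⟩ := sep _ hw'
  have hv0 : v ≠ 0 := by rintro rfl; simp at hvf
  have hvw : v ∉ Submodule.span K {w} := by
    intro h
    obtain ⟨c, hc⟩ := Submodule.mem_span_singleton.1 h
    have hc0 : c ≠ 0 := by rintro rfl; exact hv0 (by rw [← hc, zero_smul])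
    exact hw (Submodule.mem_span_singleton.2 ⟨c⁻¹, by rw [← hc, smul_smul, inv_mul_cancel₀ hc0, one_smul]⟩)
  obtain ⟨h2, h2z, h2v⟩ := sep _ hvw
  have h1v : h1 ⬝ᵥ v = 0 := h1z v (Submodule.subset_span (by simp))
  have h1w : h1 ⬝ᵥ w = 0 := h1z w (Submodule.subset_span (by simp))
  have h2w : h2 ⬝ᵥ w = 0 := h2z w (Submodule.mem_span_singleton_self w)
  refine ⟨w', s • h2 + (1 - s * (h2 ⬝ᵥ w')) • h1, hg0, ?_, ?_, hf1, ?_⟩
  · rw [add_dotProduct, smul_dotProduct, smul_dotProduct, h2w, h1w, smul_zero, smul_zero, add_zero]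
  · rw [add_dotProduct, smul_dotProduct, smul_dotProduct, h1w', smul_eq_mul, smul_eq_mul]
    ring
  · rw [add_dotProduct, smul_dotProduct, smul_dotProduct, h2v, h1v, smul_eq_mul, smul_eq_mul]
    ring

end Pool.Agent.Helper2.RO
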