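import Pool.Agent.Helper2.RO.One2
import Pool.Agent.Helper2.RO.One3

/-!
# Block RO-S4: idempotents in general position are fixed

`a = v fᵀ`. `P` fixes the `Y` in `RK 1` which commute with `a` and the `Y` in `RK 1` with
`2 trace (a Y) = 1`. Let `X = w gᵀ`, `w` not in the span of `v`, `g` not in the span of `f`. By `exists_gen` (with
`s = 1/2`) there is a `Y = w' g'ᵀ` in `RK 1` with `X Y = Y X = 0` and `2 trace (a Y) = 2 (f · w') (g' · v) = 1`, so
`P Y = Y`. By `step_one`, `P X = (w + β v) (g + γ f)ᵀ`, and `P X` commutes with `P Y = Y` (`Pres.comm`), so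
`0 = (g + γ f) · w' = γ` and `0 = g' · (w + β v) = β / 2`. Hence `P X = X`. (`P X` is in `RK 1`, so its two vectors are
not `0`; use `mul_eq_zero_iff`.)
-/

set_option autoImplicit false

open Matrix

namespace Pool.Agent.Helper2.RO

variable {K : Type*} [Field K] {ι : Type*} [Fintype ι] [DecidableEq ι]

theorem general_fixed (hn : 3 ≤ Fintype.card ι) (h2 : (2 : K) ≠ 0)
    {P : Matrix ι ι K → Matrix ι ι K} (hP : Pres 1 P) {v f : ι → K} (hvf : f ⬝ᵥ v = 1)
    (hfix : ∀ Y ∈ RK (1 : K), vecMulVec v f * Y = 0 → Y * vecMulVec v f = 0 → P Y = Y)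
    (hS : ∀ Y ∈ RK (1 : K), 2 * trace (vecMulVec v f * Y) = 1 → P Y = Y)
    {w g : ι → K} (hwg : g ⬝ᵥ w = 1) (hw : w ∉ Submodule.span K {v})
    (hg : g ∉ Submodule.span K {f}) : P (vecMulVec w g) = vecMulVec w g := by
  obtain ⟨w', g', hgw', hg'w, hg'w', hfw', hg'v⟩ := exists_gen hn hvf hwg hw hg (1 / 2 : K)
  obtain ⟨β, γ, hPX, -⟩ := step_one hn hP hvf hfix hwg hw hg
  have hXm : vecMulVec w g ∈ RK (1 : K) := mk_mem_one hwg
  have hYm : vecMulVec w' g' ∈ RK (1 : K) := mk_mem_one hg'w'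
  have hPY : P (vecMulVec w' g') = vecMulVec w' g' := by
    apply hS _ hYm
    rw [trace_mul_eq, hfw', hg'v, one_mul, mul_one_div_cancel h2]
  have hw'0 : w' ≠ 0 := by rintro rfl; simp at hfw'
  have hg'0 : g' ≠ 0 := by rintro rfl; simp at hg'w'
  have hcomm := (hP.comm _ hXm _ hYm).2
    ⟨by rw [mul_eq, hgw', zero_smul], by rw [mul_eq, hg'w, zero_smul]⟩
  rw [hPX, hPY] at hcomm
  have hw1 : w + β • v ≠ 0 := by
    intro h
    apply hw
    rw [eq_neg_of_add_eq_zero_left h]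
    exact Submodule.neg_mem _ (Submodule.smul_mem _ _ (Submodule.mem_span_singleton_self v))
  have hg1 : g + γ • f ≠ 0 := by
    intro h
    apply hg
    rw [eq_neg_of_add_eq_zero_left h]
    exact Submodule.neg_mem _ (Submodule.smul_mem _ _ (Submodule.mem_span_singleton_self f))
  have e1 := (mul_eq_zero_iff hw1 hg'0).1 hcomm.1
  have e2 := (mul_eq_zero_iff hw'0 hg1).1 hcomm.2
  rw [add_dotProduct, smul_dotProduct, hgw', hfw', zero_add, smul_eq_mul, mul_one] at e1
  rw [dotProduct_add, dotProduct_smul, hg'w, hg'v, zero_add, smul_eq_mul] at e2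
  have hβ : β = 0 := (mul_eq_zero.1 e2).resolve_right (one_div_ne_zero h2)
  rw [hPX, e1, hβ, zero_smul, zero_smul, add_zero, add_zero]

end Pool.Agent.Helper2.RO
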