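import Pool.Agent.Helper2.RO.One4

/-!
# Block RO-S5: idempotents with the same first vector

`a = v fᵀ`, `P` as in `One4.lean` and `P a = a`. Let `X = v gᵀ`, `g · v = 1`, `g ≠ f`, so `g` is not in the span of
`f`; write `P X = w1 g1ᵀ`. The `Y = w' g'ᵀ` in `RK 1` with `f · w' = 0`, `g' · v = 0` commute with `a` and are fixed.
(1) `w1` is in the span of `v` or `g1` in the span of `f`: otherwise `exists_Y` gives such a `Y` with
`trace (P X Y) ≠ 0`, but `trace (X Y) = (g · w') (g' · v) = 0` (`Pres.zero`).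
(2) `w1` is in the span of `v`: otherwise `g1` is a multiple of `f`. Take `u ≠ 0` with `f · u = g · u = 0`
(`3 ≤ n`) and (`sep_ne`) `g'` with `g' · v = 0`, `g' · u = 1`, `g' · w1 ≠ 0`; `Y = u g'ᵀ` commutes with `X` but not
with `P X`, a contradiction to `Pres.comm`.
(3) Scale so that `w1 = v`, `g1 · v = 1`. If `f · u = g · u = 0`, `u ≠ 0` then there is a `Y = u g'ᵀ` as above
commuting with `X`, so `g1 · u = 0`. By `span_of`, `g1 = x f + y g`, and `x + y = 1`.
(4) `y = 1`: by `sep` there is a `w'` with `f · w' = -1`, `g · w' = 1` (`f`, `g` are independent) and a `g'` with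
`g' · v = 1`, `g' · w' = 1` (`v`, `w'` are independent: `w' = s v` gives `-1 = s = 1`). `Z = w' g'ᵀ` is in general
position (`w'` not in the span of `v`; `g' = s f` gives `s = 1` and `1 = g' · w' = -1`), so `P Z = Z` by
`general_fixed`, and `trace (X Z) = (g · w') (g' · v) = 1`, so `1 = trace (P X Z) = (g1 · w') = - x + y = 2 y - 1`.
So `P X = X`. `same_snd` is the transposed statement (apply `same_fst` to `Q X = (P Xᵀ)ᵀ` and `f vᵀ`).
-/

set_option autoImplicit false

open Matrix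

namespace Pool.Agent.Helper2.RO

variable {K : Type*} [Field K] {ι : Type*} [Fintype ι] [DecidableEq ι]

omit [DecidableEq ι] in
private theorem fixY32 {P : Matrix ι ι K → Matrix ι ι K} {v f : ι → K}
    (hfix : ∀ Y ∈ RK (1 : K), vecMulVec v f * Y = 0 → Y * vecMulVec v f = 0 → P Y = Y)
    {w' g' : ι → K} (h1 : f ⬝ᵥ w' = 0) (h2 : g' ⬝ᵥ v = 0) (h3 : g' ⬝ᵥ w' = 1) :
    P (vecMulVec w' g') = vecMulVec w' g' := by
  apply hfix _ (mk_mem_one h3)
  · rw [mul_eq, h1, zero_smul]
  · rw [mul_eq, h2, zero_smul]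

omit [DecidableEq ι] in
private theorem notMem32 {v w : ι → K} {f : ι → K} (hvf : f ⬝ᵥ v = 1) (h : f ⬝ᵥ w = 0) (hw : w ≠ 0) :
    w ∉ Submodule.span K {v} := by
  intro hm
  obtain ⟨c, rfl⟩ := Submodule.mem_span_singleton.1 hm
  rw [dotProduct_smul, hvf, smul_eq_mul, mul_one] at h
  apply hw
  rw [h, zero_smul]

private theorem pair32 {v w : ι → K} (hw : w ∉ Submodule.span K {v}) (hv0 : v ≠ 0) (s t : K) :
    ∃ g : ι → K, g ⬝ᵥ v = s ∧ g ⬝ᵥ w = t := by
  have hv : v ∉ Submodule.span K {w} := by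
    intro hm
    obtain ⟨c, hc⟩ := Submodule.mem_span_singleton.1 hm
    have hc0 : c ≠ 0 := by
      rintro rfl
      rw [zero_smul] at hc
      exact hv0 hc.symm
    apply hw
    rw [Submodule.mem_span_singleton]
    refine ⟨c⁻¹, ?_⟩
    rw [← hc, smul_smul, inv_mul_cancel₀ hc0, one_smul]
  obtain ⟨a, ha1, ha2⟩ := sep _ hw
  obtain ⟨b, hb1, hb2⟩ := sep _ hv
  have ha3 := ha1 v (Submodule.mem_span_singleton_self v)
  have hb3 := hb1 w (Submodule.mem_span_singleton_self w)
  refine ⟨t • a + s • b, ?_, ?_⟩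
  · rw [add_dotProduct, smul_dotProduct, smul_dotProduct, ha3, hb2]; simp
  · rw [add_dotProduct, smul_dotProduct, smul_dotProduct, ha2, hb3]; simp

theorem same_fst (hn : 3 ≤ Fintype.card ι) (h2 : (2 : K) ≠ 0)
    {P : Matrix ι ι K → Matrix ι ι K} (hP : Pres 1 P) {v f : ι → K} (hvf : f ⬝ᵥ v = 1)
    (ha : P (vecMulVec v f) = vecMulVec v f)
    (hfix : ∀ Y ∈ RK (1 : K), vecMulVec v f * Y = 0 → Y * vecMulVec v f = 0 → P Y = Y)
    (hS : ∀ Y ∈ RK (1 : K), 2 * trace (vecMulVec v f * Y) = 1 → P Y = Y)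
    {g : ι → K} (hg : g ⬝ᵥ v = 1) : P (vecMulVec v g) = vecMulVec v g := by
  have hv0 : v ≠ 0 := by rintro rfl; simp at hvf
  have hf0 : f ≠ 0 := by rintro rfl; simp at hvf
  by_cases hgf : g ∈ Submodule.span K {f}
  · obtain ⟨c, rfl⟩ := Submodule.mem_span_singleton.1 hgf
    rw [smul_dotProduct, hvf, smul_eq_mul, mul_one] at hg
    rw [hg, one_smul]; exact ha
  have hX : vecMulVec v g ∈ RK (1 : K) := mk_mem_one hg
  obtain ⟨w1, g1, hw1, hg1, h11, hPX⟩ := hP.mem _ hX
  -- step 2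
  have hw1v : w1 ∈ Submodule.span K {v} := by
    by_contra hcon
    obtain ⟨u, hu0, hfu, hgu⟩ := exists_perp hn f g
    obtain ⟨g', hg'v, hg'u, hg'w⟩ := sep_ne hvf hfu hu0 hcon
    have hY : vecMulVec u g' ∈ RK (1 : K) := mk_mem_one hg'u
    have hPY := fixY32 hfix hfu hg'v hg'u
    have h3 := (hP.comm _ hX _ hY).2 ⟨by rw [mul_eq, hgu, zero_smul], by rw [mul_eq, hg'v, zero_smul]⟩
    have h4 := h3.2
    rw [hPX, hPY, mul_eq, smul_eq_zero, vec_eq_zero] at h4
    rcases h4 with h4 | h4 | h4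
    · exact hg'w h4
    · exact hu0 h4
    · exact hg1 h4
  obtain ⟨c, rfl⟩ := Submodule.mem_span_singleton.1 hw1v
  -- step 3
  obtain ⟨G, hGdef⟩ : ∃ G : ι → K, G = c • g1 := ⟨_, rfl⟩
  have hPX' : P (vecMulVec v g) = vecMulVec v G := by
    rw [hPX, hGdef]
    ext i j
    simp only [vecMulVec_apply, Pi.smul_apply, smul_eq_mul]
    ring
  have hGv : G ⬝ᵥ v = 1 := by
    rw [hGdef, smul_dotProduct, ← h11, dotProduct_smul]
  have hker : ∀ u : ι → K, f ⬝ᵥ u = 0 → g ⬝ᵥ u = 0 → G ⬝ᵥ u = 0 := by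
    intro u hfu hgu
    by_cases hu0 : u = 0
    · rw [hu0, dotProduct_zero]
    obtain ⟨g', hg'1, hg'u⟩ := sep _ (notMem32 hvf hfu hu0)
    have hg'v := hg'1 v (Submodule.mem_span_singleton_self v)
    have hY : vecMulVec u g' ∈ RK (1 : K) := mk_mem_one hg'u
    have hPY := fixY32 hfix hfu hg'v hg'u
    have h3 := (hP.comm _ hX _ hY).2 ⟨by rw [mul_eq, hgu, zero_smul], by rw [mul_eq, hg'v, zero_smul]⟩
    have h4 := h3.1
    rw [hPX', hPY, mul_eq, smul_eq_zero, vec_eq_zero] at h4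
    rcases h4 with h4 | h4 | h4
    · exact h4
    · exact absurd h4 hv0
    · rw [h4] at hg'u; simp at hg'u
  obtain ⟨x, y, hG⟩ := span_of hker
  have hxy : x + y = 1 := by
    rw [← hGv, hG, add_dotProduct, smul_dotProduct, smul_dotProduct, hvf, hg]; simp
  -- step 4
  obtain ⟨w', hw'f, hw'g⟩ := pair32 hgf hf0 (-1) 1
  rw [dotProduct_comm] at hw'f hw'g
  have hm1 : (-1 : K) ≠ 1 := by
    intro h
    apply h2
    have : (2 : K) = 1 - (-1) := by ring
    rw [this, h, sub_self]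
  have hw'v : w' ∉ Submodule.span K {v} := by
    intro hm
    obtain ⟨s, rfl⟩ := Submodule.mem_span_singleton.1 hm
    rw [dotProduct_smul, hvf, smul_eq_mul, mul_one] at hw'f
    rw [dotProduct_smul, hg, smul_eq_mul, mul_one] at hw'g
    exact hm1 (hw'f.symm.trans hw'g)
  obtain ⟨g', hg'v, hg'w⟩ := pair32 hw'v hv0 1 1
  have hg'f : g' ∉ Submodule.span K {f} := by
    intro hm
    obtain ⟨s, rfl⟩ := Submodule.mem_span_singleton.1 hm
    rw [smul_dotProduct, hvf, smul_eq_mul, mul_one] at hg'v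
    rw [smul_dotProduct, hw'f, hg'v, smul_eq_mul, one_mul] at hg'w
    exact hm1 hg'w
  have hZ := general_fixed hn h2 hP hvf hfix hS hg'w hw'v hg'f
  have h5 := (hP.one _ hX _ (mk_mem_one hg'w)).2 (by rw [trace_mul_eq, hw'g, hg'v, one_mul])
  rw [hPX', hZ, trace_mul_eq, hg'v, mul_one, hG, add_dotProduct, smul_dotProduct, smul_dotProduct,
    hw'f, hw'g, smul_eq_mul, smul_eq_mul] at h5
  have hx : x = 0 := by
    have : (2 : K) * x = 0 := by linear_combination hxy - h5
    exact (mul_eq_zero.1 this).resolve_left h2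
  have hy : y = 1 := by rw [hx, zero_add] at hxy; exact hxy
  rw [hPX', hG, hx, hy, zero_smul, one_smul, zero_add]

theorem same_snd (hn : 3 ≤ Fintype.card ι) (h2 : (2 : K) ≠ 0)
    {P : Matrix ι ι K → Matrix ι ι K} (hP : Pres 1 P) {v f : ι → K} (hvf : f ⬝ᵥ v = 1)
    (ha : P (vecMulVec v f) = vecMulVec v f)
    (hfix : ∀ Y ∈ RK (1 : K), vecMulVec v f * Y = 0 → Y * vecMulVec v f = 0 → P Y = Y)
    (hS : ∀ Y ∈ RK (1 : K), 2 * trace (vecMulVec v f * Y) = 1 → P Y = Y)
    {w : ι → K} (hw : f ⬝ᵥ w = 1) : P (vecMulVec w f) = vecMulVec w f := by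
  have tv : ∀ a b : ι → K, (vecMulVec a b)ᵀ = vecMulVec b a := by
    intro a b
    ext i j
    simp only [transpose_apply, vecMulVec_apply]
    ring
  have tz : ∀ A : Matrix ι ι K, Aᵀ = 0 ↔ A = 0 := by
    intro A
    constructor
    · intro h
      rw [← transpose_transpose A, h, transpose_zero]
    · intro h
      rw [h, transpose_zero]
  have hQ : Pres 1 (fun X : Matrix ι ι K => (P Xᵀ)ᵀ) := by
    refine ⟨?_, ?_, ?_, ?_⟩
    · intro X hX
      exact transpose_mem (hP.mem _ (transpose_mem hX))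
    · intro X hX Y hY
      have h := hP.zero _ (transpose_mem hY) _ (transpose_mem hX)
      rw [← transpose_mul, trace_transpose, ] at h

      rw [← transpose_mul, trace_transpose]
      exact h
    · intro X hX Y hY
      have h := hP.one _ (transpose_mem hY) _ (transpose_mem hX)
      rw [← transpose_mul, trace_transpose, ] at h

      rw [← transpose_mul, trace_transpose]
      exact h
    · intro X hX Y hY
      have h := hP.comm _ (transpose_mem hY) _ (transpose_mem hX)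
      rw [← transpose_mul, ← transpose_mul, tz, tz] at h

      rw [← transpose_mul, ← transpose_mul, tz, tz]
      exact h
  have h := same_fst (P := fun X : Matrix ι ι K => (P Xᵀ)ᵀ) hn h2 hQ (v := f) (f := v)
    (by rw [dotProduct_comm]; exact hvf) (by rw [tv, ha, tv]) ?_ ?_ (g := w)
    (by rw [dotProduct_comm]; exact hw)
  · have h := h
    rw [tv] at h
    rw [← transpose_transpose (P (vecMulVec w f)), h, tv]
  · intro Y hY h1 h3

    have e1 : vecMulVec v f * Yᵀ = 0 := by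
      rw [← tv f v, ← transpose_mul, h3, transpose_zero]
    have e2 : Yᵀ * vecMulVec v f = 0 := by
      rw [← tv f v, ← transpose_mul, h1, transpose_zero]
    rw [hfix _ (transpose_mem hY) e1 e2, transpose_transpose]
  · intro Y hY h1

    have e1 : 2 * trace (vecMulVec v f * Yᵀ) = 1 := by
      rw [← tv f v, ← transpose_mul, trace_transpose, trace_mul_comm]; exact h1
    rw [hS _ (transpose_mem hY) e1, transpose_transpose]

end Pool.Agent.Helper2.RO
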