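import Pool.Agent.Helper2.RO.Defs

/-!
# Block RO-O1: orders of products of two reflections, part 1

Let `X ≠ Y` be rank one idempotents, `t = trace (X Y)`, `u = (1 - 2 X) (1 - 2 Y)`, `p` the odd characteristic.
One has `X X = X`, `Y Y = Y` (`mem_cases`), `X Y X = t X`, `Y X Y = t Y` (`xyx`, `trace_mul_comm`), and
`(1 - 2 X)² = 1`, hence `u ≠ 1` (else `1 - 2 X = 1 - 2 Y`).
`odd_two`: if `X Y = Y X = 0` then `u² = 1`. Conversely `u² = 1` gives `u = u⁻¹ = (1 - 2 Y) (1 - 2 X)`, so `4 X Y = 4 Y X`,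
`X Y = X X Y = X Y X = t X` and `X Y = X Y Y = Y X Y = t Y`, so `t X = t Y`, `t = 0`, `X Y = 0 = Y X`.
`odd_zero`, from right to left: `X Y = 0` or `Y X = 0` (`trace_zero_iff`). If `Y X = 0` then `u² = 1 - 4 X Y` with
`(X Y)² = 0`; if `X Y = 0` then `u² = 1 + 4 Y X` with `(Y X)² = 0`. So `u ^ (2 p) = 1` (`(1 + z)^p = 1 + p z = 1` for
`z² = 0`, or `add_pow_char_of_commute` and `z ^ p = 0`), and `u ^ p ≠ 1`: else `(u - 1)^p = 0` (`sub_pow_char_of_commute`), so
`u - 1` is nilpotent and has trace `0` (`Matrix.isNilpotent_trace_of_isNilpotent`), but its trace is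
`4 t - 4 = - 4`. So the order divides `2 p` and is not `1` or `p`.
From left to right: order two: `odd_two`. Order `2 p`: `(u² - 1)^p = u^(2p) - 1 = 0`, so `trace (u²) = trace 1`.
With `m = u - 1 = - 2 X - 2 Y + 4 X Y`: `trace m = 4 t - 4`, `trace (m²) = 8 - 24 t + 16 t²`, so
`trace (u²) - trace 1 = 16 t (t - 1)`; so `t = 0` or `t = 1`. If `t = 1` then `m³ = 0` (expand: `m * m = 4 (X Y + Y X - X - Y)`, and
`m * (m * m) = 0`), so `u^p - 1 = (u - 1)^p = 0` and the order is not `2 p`.
-/

set_option autoImplicit false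

open Matrix

namespace Pool.Agent.Helper2.RO

variable {K : Type*} [Field K] {ι : Type*} [Fintype ι] [DecidableEq ι]

private theorem rel63 {X Y : Matrix ι ι K} (hX : X ∈ RK (1 : K)) (hY : Y ∈ RK (1 : K)) :
    X * X = X ∧ (∀ Z : Matrix ι ι K, X * (X * Z) = X * Z) ∧
      X * (Y * X) = trace (X * Y) • X ∧
      (∀ Z : Matrix ι ι K, X * (Y * (X * Z)) = trace (X * Y) • (X * Z)) := by
  have h1 : X * X = X := by rw [(mem_cases hX).2.2, one_smul]
  have h2 := xyx hX hY
  refine ⟨h1, fun Z => by rw [← mul_assoc, h1], by rw [← mul_assoc, h2], fun Z => ?_⟩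
  rw [← mul_assoc, ← mul_assoc, h2, smul_mul_assoc]

private theorem sq63 {X : Matrix ι ι K} (h : X * X = X) :
    (1 - (2 : K) • X) * (1 - (2 : K) • X) = 1 := by
  simp only [mul_sub, sub_mul, mul_one, one_mul, smul_mul_assoc, mul_smul_comm, h]
  module

private theorem ne_one63 (h2 : (2 : K) ≠ 0) {X Y : Matrix ι ι K} (hX : X ∈ RK (1 : K))
    (hY : Y ∈ RK (1 : K)) (hXY : X ≠ Y) :
    (1 - (2 : K) • X) * (1 - (2 : K) • Y) ≠ 1 := by
  intro h
  obtain ⟨hYY, -⟩ := rel63 hY hX
  have e1 := sq63 hYY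
  have e2 : (1 - (2 : K) • X) = (1 - (2 : K) • Y) := by
    calc (1 - (2 : K) • X) = (1 - (2 : K) • X) * ((1 - (2 : K) • Y) * (1 - (2 : K) • Y)) := by
          rw [e1, mul_one]
      _ = (1 - (2 : K) • Y) := by rw [← mul_assoc, h, one_mul]
  have e3 : (2 : K) • X = (2 : K) • Y := sub_right_injective e2
  exact hXY (smul_right_injective _ h2 e3)

theorem odd_two (h2 : (2 : K) ≠ 0) {X Y : Matrix ι ι K} (hX : X ∈ RK (1 : K)) (hY : Y ∈ RK (1 : K))
    (hXY : X ≠ Y) :
    orderOf ((1 - (2 : K) • X) * (1 - (2 : K) • Y)) = 2 ↔ X * Y = 0 ∧ Y * X = 0 := by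
  obtain ⟨hXX, hXX', hXYX, hXYX'⟩ := rel63 hX hY
  obtain ⟨hYY, hYY', hYXY, hYXY'⟩ := rel63 hY hX
  rw [trace_mul_comm] at hYXY hYXY'
  have h4 : (4 : K) ≠ 0 := by
    have : (4 : K) = 2 * 2 := by norm_num
    rw [this]; exact mul_ne_zero h2 h2
  constructor
  · intro h
    have hu : ((1 - (2 : K) • X) * (1 - (2 : K) • Y)) ^ 2 = 1 := by
      rw [← h]; exact pow_orderOf_eq_one _
    rw [pow_two] at hu
    have eA := sq63 hXX
    have eB := sq63 hYY
    have hc : (1 - (2 : K) • Y) * (1 - (2 : K) • X) = (1 - (2 : K) • X) * (1 - (2 : K) • Y) := by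
      calc (1 - (2 : K) • Y) * (1 - (2 : K) • X)
          = (1 - (2 : K) • Y) * (1 - (2 : K) • X) *
            ((1 - (2 : K) • X) * (1 - (2 : K) • Y) *
              ((1 - (2 : K) • X) * (1 - (2 : K) • Y))) := by rw [hu, mul_one]
        _ = (1 - (2 : K) • Y) * ((1 - (2 : K) • X) * (1 - (2 : K) • X)) * (1 - (2 : K) • Y) *
              ((1 - (2 : K) • X) * (1 - (2 : K) • Y)) := by simp only [mul_assoc]
        _ = (1 - (2 : K) • X) * (1 - (2 : K) • Y) := by rw [eA, mul_one, eB, one_mul]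
    have hc2 : (4 : K) • (Y * X) = (4 : K) • (X * Y) := by
      simp only [mul_sub, sub_mul, mul_one, one_mul, smul_mul_assoc, mul_smul_comm] at hc
      linear_combination (norm := module) hc
    have hc3 : Y * X = X * Y := smul_right_injective _ h4 hc2
    have e1 : X * Y = trace (X * Y) • X := by
      rw [← hXYX, hc3, hXX']
    have e2 : X * Y = trace (X * Y) • Y := by
      rw [← hYXY, ← hc3, hYY']
    have e3 : trace (X * Y) • (X - Y) = 0 := by
      rw [smul_sub, ← e1, ← e2, sub_self]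
    have e4 : trace (X * Y) = 0 := by
      rcases smul_eq_zero.1 e3 with h | h
      · exact h
      · exact absurd (sub_eq_zero.1 h) hXY
    rw [e4, zero_smul] at e1
    exact ⟨e1, by rw [hc3, e1]⟩
  · rintro ⟨h, h'⟩
    have : Fact (Nat.Prime 2) := ⟨Nat.prime_two⟩
    refine orderOf_eq_prime ?_ (ne_one63 h2 hX hY hXY)
    have e : (1 - (2 : K) • X) * (1 - (2 : K) • Y) = 1 - (2 : K) • X - (2 : K) • Y := by
      simp only [mul_sub, sub_mul, mul_one, one_mul, smul_mul_assoc, mul_smul_comm, h]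
      module
    rw [e, pow_two]
    simp only [mul_sub, sub_mul, mul_one, one_mul, smul_mul_assoc, mul_smul_comm, h, h', hXX, hYY]
    module

theorem odd_zero (p : ℕ) [Fact p.Prime] [CharP K p] (h2 : (2 : K) ≠ 0) {X Y : Matrix ι ι K}
    (hX : X ∈ RK (1 : K)) (hY : Y ∈ RK (1 : K)) (hXY : X ≠ Y) :
    (orderOf ((1 - (2 : K) • X) * (1 - (2 : K) • Y)) = 2 ∨
      orderOf ((1 - (2 : K) • X) * (1 - (2 : K) • Y)) = 2 * p) ↔ trace (X * Y) = 0 := by
  obtain ⟨hXX, hXX', hXYX, hXYX'⟩ := rel63 hX hY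
  obtain ⟨hYY, hYY', hYXY, hYXY'⟩ := rel63 hY hX
  rw [trace_mul_comm] at hYXY hYXY'
  have h4 : (4 : K) ≠ 0 := by
    have : (4 : K) = 2 * 2 := by norm_num
    rw [this]; exact mul_ne_zero h2 h2
  have hp : p.Prime := Fact.out
  have hp2 : p ≠ 2 := by
    rintro rfl
    exact h2 (by exact_mod_cast CharP.cast_eq_zero K 2)
  have hp3 : 3 ≤ p := by
    have := hp.two_le
    omega
  have hne : Nonempty ι := by
    by_contra hcon
    rw [not_nonempty_iff] at hcon
    exact (mem_cases hX).1 (Subsingleton.elim _ _)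
  have : CharP (Matrix ι ι K) p := inferInstance
  set t := trace (X * Y) with ht
  set u := (1 - (2 : K) • X) * (1 - (2 : K) • Y) with hu
  have hue : u = 1 + ((-2 : K) • X + (-2 : K) • Y + (4 : K) • (X * Y)) := by
    rw [hu]
    simp only [mul_sub, sub_mul, mul_one, one_mul, smul_mul_assoc, mul_smul_comm]
    module
  have trX : trace X = 1 := (mem_cases hX).2.1
  have trY : trace Y = 1 := (mem_cases hY).2.1
  have hsq : u ^ 2 - 1 = (-8 * t) • X + (-8 * t) • Y + (4 : K) • (Y * X) +
      (16 * t - 4) • (X * Y) := by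
    rw [hue, pow_two]
    simp only [mul_add, add_mul, mul_one, one_mul, smul_mul_assoc, mul_smul_comm, mul_assoc,
      hXX, hYY, hXX', hXYX, hYXY]
    module
  have hfrob : (u ^ 2 - 1) ^ p = u ^ (2 * p) - 1 := by
    rw [sub_pow_char_of_commute _ (Commute.one_right _), one_pow, pow_mul]
  have hfrob1 : (u - 1) ^ p = u ^ p - 1 := by
    rw [sub_pow_char_of_commute _ (Commute.one_right _), one_pow]
  constructor
  · rintro (h | h)
    · have := ((odd_two h2 hX hY hXY).1 h).1
      rw [ht, this, trace_zero]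
    · have h1 : u ^ (2 * p) = 1 := by rw [← h]; exact pow_orderOf_eq_one _
      have h3 : IsNilpotent (u ^ 2 - 1) := ⟨p, by rw [hfrob, h1, sub_self]⟩
      have h5 : trace (u ^ 2 - 1) = 0 :=
        (Matrix.isNilpotent_trace_of_isNilpotent h3).eq_zero
      have h6 : trace (u ^ 2 - 1) = 16 * t * (t - 1) := by
        rw [hsq]
        simp only [trace_add, trace_smul, trX, trY, smul_eq_mul, trace_mul_comm Y X, ← ht]
        ring
      rw [h6] at h5
      have h16 : (16 : K) ≠ 0 := by
        have : (16 : K) = 4 * 4 := by norm_num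
        rw [this]; exact mul_ne_zero h4 h4
      rcases mul_eq_zero.1 h5 with h7 | h7
      · exact (mul_eq_zero.1 h7).resolve_left h16
      · exfalso
        have ht1 : t = 1 := sub_eq_zero.1 h7
        have hm3 : (u - 1) ^ 3 = 0 := by
          rw [hue, add_sub_cancel_left, pow_succ, pow_two]
          simp only [mul_add, add_mul, mul_one, one_mul, smul_mul_assoc, mul_smul_comm, mul_assoc,
            hXX, hYY, hXX', hYY', hXYX, hYXY, ht1, one_smul, smul_add]
          module
        have h8 : u ^ p = 1 := by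
          have : (u - 1) ^ p = 0 := by
            obtain ⟨k, rfl⟩ := Nat.exists_eq_add_of_le hp3
            rw [pow_add, hm3, zero_mul]
          rw [hfrob1] at this
          exact sub_eq_zero.1 this
        have h9 := orderOf_dvd_of_pow_eq_one h8
        rw [h] at h9
        have := Nat.le_of_dvd hp.pos h9
        omega
  · intro h0
    have hz : u ^ 2 - 1 = (4 : K) • (Y * X - X * Y) := by
      rw [hsq, h0]
      module
    have hz2 : (u ^ 2 - 1) ^ 2 = 0 := by
      rw [hz, pow_two]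
      simp only [mul_sub, sub_mul, smul_mul_assoc, mul_smul_comm, mul_assoc,
        hXX', hYY', hXYX, hYXY, h0]
      module
    have h1 : u ^ (2 * p) = 1 := by
      have : (u ^ 2 - 1) ^ p = 0 := by
        obtain ⟨k, hk⟩ := Nat.exists_eq_add_of_le hp.two_le
        rw [hk, pow_add, hz2, zero_mul]
      rw [hfrob] at this
      exact sub_eq_zero.1 this
    have h3 : u ^ p ≠ 1 := by
      intro h3
      have h4' : IsNilpotent (u - 1) := ⟨p, by rw [hfrob1, h3, sub_self]⟩
      have h5 : trace (u - 1) = 0 :=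
        (Matrix.isNilpotent_trace_of_isNilpotent h4').eq_zero
      have h6 : trace (u - 1) = -4 := by
        rw [hue, add_sub_cancel_left]
        simp only [trace_add, trace_smul, trX, trY, smul_eq_mul, ← ht, h0]
        ring
      rw [h6] at h5
      exact h4 (neg_eq_zero.1 h5)
    have h5 := orderOf_dvd_of_pow_eq_one h1
    have h6 : orderOf u ≠ 1 := by
      rw [Ne, orderOf_eq_one_iff]
      exact ne_one63 h2 hX hY hXY
    have h7 : orderOf u ≠ p := by
      intro h7
      apply h3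
      rw [← h7]
      exact pow_orderOf_eq_one _
    rcases (Nat.dvd_mul.1 h5) with ⟨a, b, ha, hb, hab⟩
    rcases (Nat.dvd_prime Nat.prime_two).1 ha with rfl | rfl <;>
      rcases (Nat.dvd_prime hp).1 hb with rfl | rfl
    · exact absurd hab.symm h6
    · exact absurd (by rw [← hab, one_mul]) h7
    · left; rw [← hab]
    · right; rw [← hab]

end Pool.Agent.Helper2.RO
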