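import Pool.Agent.Helper2.RO.Defs

/-!
# Block RO-OE: orders of products of two transvections in characteristic two

Let `X ≠ Y` be in `RK 0`, `t = trace (X Y)`, `u = (1 + X) (1 + Y)`, `m = u - 1 = X + Y + X Y` (characteristic two, so
`-` is `+`). One has `X X = 0`, `Y Y = 0` (`mem_cases`), `X Y X = t X`, `Y X Y = t Y` (`xyx`, `trace_mul_comm`),
`m * m = t m + X Y + Y X` and `m * (m * m) = t (m * m) + t m` (G). `u ≠ 1`, else `1 + X = 1 + Y` as `(1 + X)² = 1`.
`even_two`: if `X Y = Y X = 0` then `u² = 1 + m² = 1`. Conversely `u² = 1` gives `u = u⁻¹ = (1 + Y) (1 + X)`, so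
`X Y = Y X`, so `t X = X Y X = X X Y = 0`, `t = 0`, and one of `X Y`, `Y X` is `0` (`trace_zero_iff`), so both are.
`even_zero`: if `t = 0` then `u⁴ = 1 + (X Y + Y X)² = 1`, so the order divides `4` and is not `1`. Conversely
`u⁴ = 1` in both cases, so `m⁴ = 0` (`(1 + m)⁴ = 1 + m⁴`) and `m` is nilpotent, so its trace `t` is `0`
(`Matrix.isNilpotent_trace_of_isNilpotent`).
`even_one`: if `t = 1` then by (G) `m³ + m² + m = 0`, that is `u³ = 1`. Conversely `u³ = 1` gives
`m³ + m² + m = 0`, with (G) `(t + 1) (m² + m) = 0`; if `t ≠ 1` then `m u = m (m + 1) = 0`, and `m = 0` as `u` is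
invertible, a contradiction.
-/

set_option autoImplicit false

open Matrix

namespace Pool.Agent.Helper2.RO

variable {K : Type*} [Field K] {ι : Type*} [Fintype ι] [DecidableEq ι]

omit [Fintype ι] [DecidableEq ι] in
private theorem dbl38 [CharP K 2] (M : Matrix ι ι K) : M + M = 0 := by
  ext i j
  simp [CharTwo.add_self_eq_zero]

omit [DecidableEq ι] in
private theorem sq38 {X Y : Matrix ι ι K} {t : K} (h1 : X * X = 0) (h2 : Y * Y = 0)
    (h3 : X * Y * X = t • X) (h4 : Y * X * Y = t • Y) :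
    (X + Y + X * Y) * (X + Y + X * Y) = t • (X + Y + X * Y) + (X * Y + Y * X) := by
  have e1 : (X + Y + X * Y) * (X + Y + X * Y) = X * X + X * Y + X * X * Y + Y * X + Y * Y + Y * X * Y +
      X * Y * X + X * (Y * Y) + X * Y * X * Y := by
    noncomm_ring
  rw [e1, h1, h2, h3, h4, zero_mul, mul_zero, smul_add, smul_add, smul_mul_assoc]
  abel

omit [DecidableEq ι] in
private theorem cube38 {X Y : Matrix ι ι K} {t : K} (h1 : X * X = 0) (h2 : Y * Y = 0)
    (h3 : X * Y * X = t • X) (h4 : Y * X * Y = t • Y) :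
    (X + Y + X * Y) * ((X + Y + X * Y) * (X + Y + X * Y)) =
      t • ((X + Y + X * Y) * (X + Y + X * Y)) + t • (X + Y + X * Y) := by
  have e1 : (X + Y + X * Y) * (X * Y + Y * X) = X * X * Y + X * Y * X + Y * X * Y + Y * Y * X +
      X * Y * X * Y + X * (Y * Y) * X := by
    noncomm_ring
  have e2 : (X + Y + X * Y) * (X * Y + Y * X) = t • (X + Y + X * Y) := by
    rw [e1, h1, h2, h3, h4, zero_mul, zero_mul, mul_zero, zero_mul, smul_add, smul_add, smul_mul_assoc]
    abel
  conv_lhs => rw [sq38 h1 h2 h3 h4]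
  rw [mul_add, mul_smul_comm, e2]

omit [DecidableEq ι] in
private theorem data38 {X Y : Matrix ι ι K} (hX : X ∈ RK (0 : K)) (hY : Y ∈ RK (0 : K)) :
    X ≠ 0 ∧ X * X = 0 ∧ Y * Y = 0 ∧ X * Y * X = trace (X * Y) • X ∧ Y * X * Y = trace (X * Y) • Y ∧
      trace (X + Y + X * Y) = trace (X * Y) := by
  obtain ⟨a1, a2, a3⟩ := mem_cases hX
  obtain ⟨b1, b2, b3⟩ := mem_cases hY
  refine ⟨a1, ?_, ?_, xyx hX hY, ?_, ?_⟩
  · rw [a3, zero_smul]
  · rw [b3, zero_smul]
  · rw [trace_mul_comm X Y]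
    exact xyx hY hX
  · rw [trace_add, trace_add, a2, b2, zero_add, zero_add]

private theorem one_add38 (X Y : Matrix ι ι K) : (1 + X) * (1 + Y) = 1 + (X + Y + X * Y) := by
  noncomm_ring

private theorem ne_one38 [CharP K 2] {X Y : Matrix ι ι K} (hX : X ∈ RK (0 : K)) (hY : Y ∈ RK (0 : K))
    (hXY : X ≠ Y) : X + Y + X * Y ≠ 0 := by
  intro h
  obtain ⟨-, h1, -, -, -, -⟩ := data38 hX hY
  have e1 : X * (X + Y + X * Y) = X * X + X * Y + X * X * Y := by noncomm_ring
  rw [h, h1, mul_zero, zero_mul, zero_add, add_zero] at e1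
  rw [← e1, add_zero] at h
  apply hXY
  have h2 := dbl38 Y
  exact add_right_cancel (h.trans h2.symm)

private theorem pow_two38 [CharP K 2] (m : Matrix ι ι K) : (1 + m) ^ 2 = 1 + m * m := by
  have e : (1 + m) ^ 2 = 1 + (m + m) + m * m := by noncomm_ring
  rw [e, dbl38, add_zero]

private theorem pow_three38 [CharP K 2] (m : Matrix ι ι K) :
    (1 + m) ^ 3 = 1 + (m + m * m + m * (m * m)) := by
  have e : (1 + m) ^ 3 = 1 + (m + m * m + m * (m * m)) + ((m + m * m) + (m + m * m)) := by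
    noncomm_ring
  rw [e, dbl38, add_zero]

private theorem pow_four38 [CharP K 2] (m : Matrix ι ι K) :
    (1 + m) ^ 4 = 1 + (m * m) * (m * m) := by
  have e : (1 + m) ^ 4 = ((1 + m) ^ 2) ^ 2 := by rw [← pow_mul]
  rw [e, pow_two38, pow_two38]

theorem even_two [CharP K 2] {X Y : Matrix ι ι K} (hX : X ∈ RK (0 : K)) (hY : Y ∈ RK (0 : K))
    (hXY : X ≠ Y) : orderOf ((1 + X) * (1 + Y)) = 2 ↔ X * Y = 0 ∧ Y * X = 0 := by
  obtain ⟨hX0, h1, h2, h3, h4, h5⟩ := data38 hX hY
  have hne := ne_one38 hX hY hXY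
  have : Fact (Nat.Prime 2) := ⟨Nat.prime_two⟩
  rw [one_add38, orderOf_eq_prime_iff, pow_two38]
  have hu : (1 : Matrix ι ι K) + (X + Y + X * Y) ≠ 1 := fun h => hne (add_eq_left.1 h)
  have hsq := sq38 h1 h2 h3 h4
  constructor
  · rintro ⟨h, -⟩
    have hm : (X + Y + X * Y) * (X + Y + X * Y) = 0 := add_eq_left.1 h
    rw [hsq] at hm
    have ht : trace (X * Y) = 0 := by
      by_contra ht
      have e1 : X * (trace (X * Y) • (X + Y + X * Y) + (X * Y + Y * X)) =
          trace (X * Y) • (X * X + X * Y + X * X * Y) + (X * X * Y + X * Y * X) := by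
        rw [mul_add, mul_smul_comm]
        congr 1
        · congr 1
          noncomm_ring
        · noncomm_ring
      rw [hm, mul_zero, h1, zero_mul, zero_add, add_zero, zero_add, h3, ← smul_add] at e1
      have e2 : X * Y + X = 0 := by
        rcases smul_eq_zero.1 e1.symm with h | h
        · exact absurd h ht
        · exact h
      have e3 : (X * Y + X) * Y = X * (Y * Y) + X * Y := by noncomm_ring
      rw [e2, zero_mul, h2, mul_zero, zero_add] at e3
      rw [← e3, zero_add] at e2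
      exact hX0 e2
    rw [ht, zero_smul, zero_add] at hm
    rcases (trace_zero_iff hX hY).1 ht with h | h
    · rw [h, zero_add] at hm
      exact ⟨h, hm⟩
    · rw [h, add_zero] at hm
      exact ⟨hm, h⟩
  · rintro ⟨ha, hb⟩
    refine ⟨?_, hu⟩
    have ht : trace (X * Y) = 0 := by rw [ha, trace_zero]
    rw [hsq, ht, ha, hb, zero_smul, add_zero, add_zero, add_zero]

theorem even_zero [CharP K 2] {X Y : Matrix ι ι K} (hX : X ∈ RK (0 : K)) (hY : Y ∈ RK (0 : K))
    (hXY : X ≠ Y) : (orderOf ((1 + X) * (1 + Y)) = 2 ∨ orderOf ((1 + X) * (1 + Y)) = 4) ↔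
      trace (X * Y) = 0 := by
  obtain ⟨hX0, h1, h2, h3, h4, h5⟩ := data38 hX hY
  have hne := ne_one38 hX hY hXY
  have hu : (1 : Matrix ι ι K) + (X + Y + X * Y) ≠ 1 := fun h => hne (add_eq_left.1 h)
  have hsq := sq38 h1 h2 h3 h4
  have hcu := cube38 h1 h2 h3 h4
  rw [one_add38]
  have key : (orderOf (1 + (X + Y + X * Y)) = 2 ∨ orderOf (1 + (X + Y + X * Y)) = 4) ↔
      (1 + (X + Y + X * Y)) ^ 4 = 1 := by
    constructor
    · intro h
      apply orderOf_dvd_iff_pow_eq_one.1
      rcases h with h | h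
      · rw [h]; norm_num
      · rw [h]
    · intro h
      have hd := orderOf_dvd_iff_pow_eq_one.2 h
      have h1' : orderOf (1 + (X + Y + X * Y)) ≠ 1 := fun h' => hu (orderOf_eq_one_iff.1 h')
      have hle := Nat.le_of_dvd (by norm_num) hd
      interval_cases hn : orderOf (1 + (X + Y + X * Y))
      · omega
      · exact absurd rfl h1'
      · exact Or.inl rfl
      · omega
      · exact Or.inr rfl
  rw [key, pow_four38]
  constructor
  · intro h
    have hm : ((X + Y + X * Y) * (X + Y + X * Y)) * ((X + Y + X * Y) * (X + Y + X * Y)) = 0 :=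
      add_eq_left.1 h
    have hn : IsNilpotent (X + Y + X * Y) := ⟨4, by
      rw [← hm]
      noncomm_ring⟩
    have h6 := Matrix.isNilpotent_trace_of_isNilpotent hn
    rw [h5] at h6
    exact h6.eq_zero
  · intro ht
    rw [ht, zero_smul, zero_smul, zero_add] at hcu
    rw [mul_assoc, hcu, mul_zero, add_zero]

theorem even_one [CharP K 2] {X Y : Matrix ι ι K} (hX : X ∈ RK (0 : K)) (hY : Y ∈ RK (0 : K))
    (hXY : X ≠ Y) : orderOf ((1 + X) * (1 + Y)) = 3 ↔ trace (X * Y) = 1 := by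
  obtain ⟨hX0, h1, h2, h3, h4, h5⟩ := data38 hX hY
  have hne := ne_one38 hX hY hXY
  have hu : (1 : Matrix ι ι K) + (X + Y + X * Y) ≠ 1 := fun h => hne (add_eq_left.1 h)
  have hcu := cube38 h1 h2 h3 h4
  have : Fact (Nat.Prime 3) := ⟨Nat.prime_three⟩
  rw [one_add38, orderOf_eq_prime_iff, pow_three38]
  generalize trace (X * Y) = t at *
  generalize X + Y + X * Y = m at *
  constructor
  · rintro ⟨h, -⟩
    have hm : m + m * m + m * (m * m) = 0 := add_eq_left.1 h
    by_contra ht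
    rw [hcu] at hm
    have e1 : (t + 1) • (m + m * m) = 0 := by
      rw [← hm, add_smul, smul_add, one_smul]
      abel
    have ht1 : t + 1 ≠ 0 := by
      intro h'
      apply ht
      exact add_right_cancel (h'.trans (CharTwo.add_self_eq_zero (1 : K)).symm)
    have e2 : m + m * m = 0 := (smul_eq_zero.1 e1).resolve_left ht1
    have e3 : m * (1 + m) = 0 := by rw [mul_add, mul_one, e2]
    have e4 : (1 + m) ^ 3 = 1 := by rw [pow_three38, h]
    have e5 : m * (1 + m) ^ 3 = m * (1 + m) * (1 + m) ^ 2 := by rw [mul_assoc, ← pow_succ']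
    rw [e4, e3, mul_one, zero_mul] at e5
    exact hne e5
  · intro ht
    refine ⟨?_, hu⟩
    rw [hcu, ht, one_smul, one_smul]
    have e : m + m * m + (m * m + m) = (m + m * m) + (m + m * m) := by abel
    rw [e, dbl38, add_zero]

end Pool.Agent.Helper2.RO
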