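import Pool.Agent.Helper2.RO.Psl

/-!
# Block RO-P1: orders in `PSL(n, K)`

`mk_eq_iff`: `QuotientGroup.eq`, `Matrix.SpecialLinearGroup.mem_center_iff`.
`order_eq`: for all `m`, `(rh X rh Y)^m = 1` iff `κ^(2m) u^m` is a scalar matrix for `u = (1 + s X) (1 + s Y)`; there is
a nonzero vector `z` with `X z = Y z = 0` (`exists_perp`), so `u^m z = z`, and `u^m` is a scalar matrix only if
`u^m = 1`. Conversely `u^m = 1` gives a scalar matrix in `SL(n, K)`. So both orders are equal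
(`orderOf_eq_orderOf_iff`).
`rh_inj`: `rh X = rh Y` gives `1 + s Y = r (1 + s X)`, with `z` as above `r = 1`, so `X = Y`.
-/

set_option autoImplicit false

open Matrix

namespace Pool.Agent.Helper2.RO

variable {K : Type*} [Field K] {ι : Type*} [Fintype ι] [DecidableEq ι]

theorem mk_eq_iff (A B : SpecialLinearGroup ι K) :
    (QuotientGroup.mk A : ProjectiveSpecialLinearGroup ι K) = QuotientGroup.mk B ↔
      ∃ r : K, (B : Matrix ι ι K) = r • (A : Matrix ι ι K) := by
  have hm : ∀ U W : SpecialLinearGroup ι K, ((U * W : SpecialLinearGroup ι K) : Matrix ι ι K) =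
      (U : Matrix ι ι K) * (W : Matrix ι ι K) := fun U W => rfl
  have hI : ((A⁻¹ : SpecialLinearGroup ι K) : Matrix ι ι K) * (A : Matrix ι ι K) = 1 := by
    have h1 : A⁻¹ * A = 1 := inv_mul_cancel A
    exact congrArg Subtype.val h1
  have hI' : (A : Matrix ι ι K) * ((A⁻¹ : SpecialLinearGroup ι K) : Matrix ι ι K) = 1 := by
    have h1 : A * A⁻¹ = 1 := mul_inv_cancel A
    exact congrArg Subtype.val h1
  rw [QuotientGroup.eq]
  have hc := Matrix.SpecialLinearGroup.mem_center_iff (A := A⁻¹ * B)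
  constructor
  · intro hAB
    obtain ⟨r, -, hr⟩ := hc.1 hAB
    refine ⟨r, ?_⟩
    have h0 : scalar ι r = ((A⁻¹ : SpecialLinearGroup ι K) : Matrix ι ι K) * (B : Matrix ι ι K) := hr
    calc (B : Matrix ι ι K) = (A : Matrix ι ι K) * (((A⁻¹ : SpecialLinearGroup ι K) : Matrix ι ι K) *
          (B : Matrix ι ι K)) := by rw [← Matrix.mul_assoc, hI', Matrix.one_mul]
      _ = r • (A : Matrix ι ι K) := by
          rw [← h0, Matrix.scalar_apply, ← Matrix.smul_one_eq_diagonal, Matrix.mul_smul,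
            Matrix.mul_one]
  · rintro ⟨r, hr⟩
    refine hc.2 ⟨r, ?_, ?_⟩
    · have h1 := B.2
      have h2 : det (B : Matrix ι ι K) = r ^ Fintype.card ι * det (A : Matrix ι ι K) := by
        rw [hr, det_smul]
      rw [h1, A.2, mul_one] at h2
      exact h2.symm
    · show scalar ι r = ((A⁻¹ : SpecialLinearGroup ι K) : Matrix ι ι K) * (B : Matrix ι ι K)
      rw [hr, Matrix.mul_smul, hI, Matrix.scalar_apply, ← Matrix.smul_one_eq_diagonal]

omit [DecidableEq ι] in
private theorem kill24 {c : K} {X : Matrix ι ι K} (hX : X ∈ RK c) :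
    ∃ g : ι → K, ∀ z, g ⬝ᵥ z = 0 → X *ᵥ z = 0 := by
  obtain ⟨w, g, -, -, -, rfl⟩ := hX
  refine ⟨g, fun z hz => ?_⟩
  ext i
  have h1 : ∑ j, w i * g j * z j = w i * (g ⬝ᵥ z) := by
    rw [dotProduct, Finset.mul_sum]
    exact Finset.sum_congr rfl fun k _ => by ring
  simp only [mulVec, Pi.zero_apply]
  unfold dotProduct
  simp only [vecMulVec_apply]
  rw [h1, hz, mul_zero]

private theorem fixed24 (hn : 3 ≤ Fintype.card ι) {c : K} (s : K) {X Y : Matrix ι ι K}
    (hX : X ∈ RK c) (hY : Y ∈ RK c) :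
    ∃ z : ι → K, z ≠ 0 ∧ (1 + s • X) *ᵥ z = z ∧ (1 + s • Y) *ᵥ z = z := by
  obtain ⟨f, hf⟩ := kill24 hX
  obtain ⟨g, hg⟩ := kill24 hY
  obtain ⟨z, hz, h1, h2⟩ := exists_perp hn f g
  refine ⟨z, hz, ?_, ?_⟩
  · rw [add_mulVec, one_mulVec, smul_mulVec, hf z h1, smul_zero, add_zero]
  · rw [add_mulVec, one_mulVec, smul_mulVec, hg z h2, smul_zero, add_zero]

omit [DecidableEq ι] in
private theorem kne24 (hn : 3 ≤ Fintype.card ι) {c s κ : K} (h : Par ι c s κ) : κ ≠ 0 := by
  rintro rfl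
  have h1 := h.hdet
  rw [zero_pow (by omega), zero_mul] at h1
  exact zero_ne_one h1

private theorem powfix24 {u : Matrix ι ι K} {z : ι → K} (h : u *ᵥ z = z) (m : ℕ) :
    (u ^ m) *ᵥ z = z := by
  induction m with
  | zero => rw [pow_zero, one_mulVec]
  | succ m ih => rw [pow_succ, ← mulVec_mulVec, h, ih]

omit [Fintype ι] [DecidableEq ι] in
private theorem one24 {z : ι → K} (hz : z ≠ 0) {r : K} (h : r • z = z) : r = 1 := by
  have h1 : (r - 1) • z = 0 := by rw [sub_smul, one_smul, h, sub_self]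
  rcases smul_eq_zero.1 h1 with h2 | h2
  · exact sub_eq_zero.1 h2
  · exact absurd h2 hz

private theorem powc24 (U : SpecialLinearGroup ι K) (m : ℕ) :
    ((U ^ m : SpecialLinearGroup ι K) : Matrix ι ι K) = (U : Matrix ι ι K) ^ m := by
  induction m with
  | zero =>
    rw [pow_zero, pow_zero]
    rfl
  | succ m ih =>
    rw [pow_succ, pow_succ, ← ih]
    rfl

theorem order_eq (hn : 3 ≤ Fintype.card ι) {c s κ : K} (h : Par ι c s κ) (X Y : RK (ι := ι) c) :
    orderOf (rh h X * rh h Y) =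
      orderOf ((1 + s • (X : Matrix ι ι K)) * (1 + s • (Y : Matrix ι ι K))) := by
  rw [orderOf_eq_orderOf_iff]
  intro m
  have hκ := kne24 hn h
  obtain ⟨z, hz, hzX, hzY⟩ := fixed24 hn s X.2 Y.2
  have hu : ((1 + s • (X : Matrix ι ι K)) * (1 + s • (Y : Matrix ι ι K))) *ᵥ z = z := by
    rw [← mulVec_mulVec, hzY, hzX]
  have hc : ((((rho h X * rho h Y) ^ m : SpecialLinearGroup ι K)) : Matrix ι ι K) =
      (κ * κ) ^ m • ((1 + s • (X : Matrix ι ι K)) * (1 + s • (Y : Matrix ι ι K))) ^ m := by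
    rw [powc24]
    have e1 : ((rho h X * rho h Y : SpecialLinearGroup ι K) : Matrix ι ι K) =
        (κ * κ) • ((1 + s • (X : Matrix ι ι K)) * (1 + s • (Y : Matrix ι ι K))) := by
      show (rho h X : Matrix ι ι K) * (rho h Y : Matrix ι ι K) = _
      rw [rho_val, rho_val, smul_mul_smul_comm]
    rw [e1, smul_pow]
  have hm : ((rh h X * rh h Y) ^ m = 1) ↔
      (QuotientGroup.mk (1 : SpecialLinearGroup ι K) : ProjectiveSpecialLinearGroup ι K) =
        QuotientGroup.mk ((rho h X * rho h Y) ^ m) := by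
    constructor
    · intro h1
      exact h1.symm
    · intro h1
      exact h1.symm
  rw [hm, mk_eq_iff, hc]
  constructor
  · rintro ⟨r, hr0⟩
    have hr : (κ * κ) ^ m • ((1 + s • (X : Matrix ι ι K)) * (1 + s • (Y : Matrix ι ι K))) ^ m =
      r • (1 : Matrix ι ι K) := hr0
    have h1 : ((1 + s • (X : Matrix ι ι K)) * (1 + s • (Y : Matrix ι ι K))) ^ m =
        (((κ * κ) ^ m)⁻¹ * r) • (1 : Matrix ι ι K) := by
      rw [← smul_smul, ← hr, smul_smul, inv_mul_cancel₀ (pow_ne_zero m (mul_ne_zero hκ hκ)),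
        one_smul]
    have h2 := powfix24 hu m
    rw [h1, smul_mulVec, one_mulVec] at h2
    rw [h1, one24 hz h2, one_smul]
  · intro h1
    rw [h1]
    exact ⟨(κ * κ) ^ m, rfl⟩

theorem rh_inj (hn : 3 ≤ Fintype.card ι) {c s κ : K} (h : Par ι c s κ) :
    Function.Injective (rh h) := by
  intro X Y hXY
  have hκ := kne24 hn h
  obtain ⟨z, hz, hzX, hzY⟩ := fixed24 hn s X.2 Y.2
  obtain ⟨r, hr⟩ := (mk_eq_iff (rho h X) (rho h Y)).1 hXY
  rw [rho_val, rho_val, smul_comm r κ] at hr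
  have h1 : (1 + s • (Y : Matrix ι ι K)) = r • (1 + s • (X : Matrix ι ι K)) :=
    smul_right_injective _ hκ hr
  have h2 : r = 1 := by
    refine one24 hz ?_
    calc r • z = r • ((1 + s • (X : Matrix ι ι K)) *ᵥ z) := by rw [hzX]
      _ = (r • (1 + s • (X : Matrix ι ι K))) *ᵥ z := by rw [smul_mulVec]
      _ = z := by rw [← h1, hzY]
  rw [h2, one_smul] at h1
  have h3 : s • (Y : Matrix ι ι K) = s • (X : Matrix ι ι K) := add_left_cancel h1
  exact Subtype.ext (smul_right_injective _ h.hs h3).symm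

end Pool.Agent.Helper2.RO
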