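import Pool.Agent.Helper2.RO.PslA

/-!
# Block RO-P2: conjugation in `PSL(n, K)`

`rh_conj`: `g κ (1 + s X) g⁻¹ = κ (1 + s g X g⁻¹)`, an equation in `SL(n, K)`.
`rh_conj_rh`: the same with `g = rho h X`; the inverse of `κ (1 + s X)` is `κ⁻¹ (1 + s X)` (`sq_one`, `κ ≠ 0`).
`faithful`: let `g` be the class of `A`. By `rh_conj` and `rh_inj`, `A X A⁻¹ = X` for all `X` in `RK c`. For `i ≠ j` the
matrix `E i j = vecMulVec (Pi.single i 1) (Pi.single j 1)` is in `RK 0`, and if `c ≠ 0` then `vecMulVec (e i) (c e i)`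
and `vecMulVec (e i) (c e i + e j)` are in `RK c`, their difference is `E i j`. So `A` commutes with all `E i j`,
`i ≠ j`, and is a scalar (`Matrix.mem_range_scalar_of_commute_single`), so `g = 1` (`mk_eq_iff`).
-/

set_option autoImplicit false

open Matrix

namespace Pool.Agent.Helper2.RO

variable {K : Type*} [Field K] {ι : Type*} [Fintype ι] [DecidableEq ι]

theorem sl_conj_mem {c : K} (A : SpecialLinearGroup ι K) {X : Matrix ι ι K} (hX : X ∈ RK c) :
    (A : Matrix ι ι K) * X * ((A⁻¹ : SpecialLinearGroup ι K) : Matrix ι ι K) ∈ RK c := by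
  refine conj_mem hX ?_
  exact congrArg Subtype.val (inv_mul_cancel A)

private theorem sl_mul_inv36 (A : SpecialLinearGroup ι K) :
    (A : Matrix ι ι K) * ((A⁻¹ : SpecialLinearGroup ι K) : Matrix ι ι K) = 1 :=
  congrArg Subtype.val (mul_inv_cancel A)

private theorem sl_inv_mul36 (A : SpecialLinearGroup ι K) :
    ((A⁻¹ : SpecialLinearGroup ι K) : Matrix ι ι K) * (A : Matrix ι ι K) = 1 :=
  congrArg Subtype.val (inv_mul_cancel A)

private theorem mat_conj36 {A B X : Matrix ι ι K} (κ s : K) (h1 : A * B = 1) :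
    A * (κ • (1 + s • X)) * B = κ • (1 + s • (A * X * B)) := by
  rw [mul_smul_comm, smul_mul_assoc, mul_add, mul_one, add_mul, h1, mul_smul_comm, smul_mul_assoc]

private theorem mat_refl36 {Z Y B : Matrix ι ι K} (κ : K) (h1 : Z * Z = 1) (h2 : (κ • Z) * B = 1) :
    (κ • Z) * Y * B = Z * Y * Z := by
  have h3 : κ • B = Z := by
    have h4 : Z * ((κ • Z) * B) = κ • B := by
      rw [smul_mul_assoc, mul_smul_comm, ← mul_assoc, h1, one_mul]
    rw [← h4, h2, mul_one]
  calc (κ • Z) * Y * B = Z * Y * (κ • B) := by simp only [smul_mul_assoc, mul_smul_comm]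
    _ = Z * Y * Z := by rw [h3]

private theorem rho_conj36 {c s κ : K} (h : Par ι c s κ) (A : SpecialLinearGroup ι K)
    (X : RK (ι := ι) c) :
    A * rho h X * A⁻¹ = rho h ⟨_, sl_conj_mem A X.2⟩ := by
  apply Subtype.ext
  rw [rho_val]
  have e : ((A * rho h X * A⁻¹ : SpecialLinearGroup ι K) : Matrix ι ι K) =
      (A : Matrix ι ι K) * (rho h X : Matrix ι ι K) *
        ((A⁻¹ : SpecialLinearGroup ι K) : Matrix ι ι K) := rfl
  refine e.trans ?_
  rw [rho_val]
  exact mat_conj36 κ s (sl_mul_inv36 A)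

theorem rh_conj {c s κ : K} (h : Par ι c s κ) (A : SpecialLinearGroup ι K) (X : RK (ι := ι) c) :
    (QuotientGroup.mk A : ProjectiveSpecialLinearGroup ι K) * rh h X * (QuotientGroup.mk A)⁻¹ =
      rh h ⟨_, sl_conj_mem A X.2⟩ := by
  rw [rh, rh, ← rho_conj36 h A X]
  rfl

theorem rh_conj_rh {c s κ : K} (h : Par ι c s κ) (X Y : RK (ι := ι) c) :
    rh h X * rh h Y * (rh h X)⁻¹ = rh h ⟨_, refl_conj_mem h X.2 Y.2⟩ := by
  have h1 := rh_conj h (rho h X) Y
  refine h1.trans ?_
  congr 1
  apply Subtype.ext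
  change (rho h X : Matrix ι ι K) * (Y : Matrix ι ι K) *
    (((rho h X)⁻¹ : SpecialLinearGroup ι K) : Matrix ι ι K) = _
  have h2 := sl_mul_inv36 (rho h X)
  rw [rho_val] at h2 ⊢
  exact mat_refl36 κ (sq_one h X.2) h2

theorem faithful (hn : 3 ≤ Fintype.card ι) {c s κ : K} (h : Par ι c s κ)
    (g : ProjectiveSpecialLinearGroup ι K) (hg : ∀ X, g * rh h X * g⁻¹ = rh h X) : g = 1 := by
  obtain ⟨A, rfl⟩ := QuotientGroup.mk_surjective g
  have key : ∀ X ∈ RK (ι := ι) c, (A : Matrix ι ι K) * X = X * (A : Matrix ι ι K) := by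
    intro X hX
    have h1 := (rh_conj h A ⟨X, hX⟩).symm.trans (hg ⟨X, hX⟩)
    have h2 := rh_inj hn h h1
    have h3 : (A : Matrix ι ι K) * X * ((A⁻¹ : SpecialLinearGroup ι K) : Matrix ι ι K) = X :=
      congrArg Subtype.val h2
    have h4 := sl_inv_mul36 A
    calc (A : Matrix ι ι K) * X = (A : Matrix ι ι K) * X *
          (((A⁻¹ : SpecialLinearGroup ι K) : Matrix ι ι K) * (A : Matrix ι ι K)) := by
            rw [h4, mul_one]
      _ = ((A : Matrix ι ι K) * X * ((A⁻¹ : SpecialLinearGroup ι K) : Matrix ι ι K)) *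
          (A : Matrix ι ι K) := by rw [mul_assoc, mul_assoc, mul_assoc]
      _ = X * (A : Matrix ι ι K) := by rw [h3]
  have hE : ∀ i j : ι, i ≠ j → (A : Matrix ι ι K) * vecMulVec (Pi.single i 1) (Pi.single j 1) =
      vecMulVec (Pi.single i 1) (Pi.single j 1) * (A : Matrix ι ι K) := by
    intro i j hij
    have hji : (Pi.single j (1 : K) : ι → K) ⬝ᵥ Pi.single i 1 = 0 := by
      rw [single_dotProduct, one_mul, Pi.single_eq_of_ne hij.symm]
    have hii : (Pi.single i (1 : K) : ι → K) ⬝ᵥ Pi.single i 1 = 1 := by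
      rw [single_dotProduct, one_mul, Pi.single_eq_same]
    have hi0 : (Pi.single i (1 : K) : ι → K) ≠ 0 := by
      intro h0
      have := congrFun h0 i
      rw [Pi.single_eq_same, Pi.zero_apply] at this
      exact one_ne_zero this
    have hj0 : (Pi.single j (1 : K) : ι → K) ≠ 0 := by
      intro h0
      have := congrFun h0 j
      rw [Pi.single_eq_same, Pi.zero_apply] at this
      exact one_ne_zero this
    by_cases hc : c = 0
    · apply key
      exact mk_mem hi0 hj0 (by rw [hji, hc])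
    · have hc1 : c • (Pi.single i (1 : K) : ι → K) ≠ 0 := smul_ne_zero hc hi0
      have m1 : vecMulVec (Pi.single i 1) (c • Pi.single i 1) ∈ RK (ι := ι) c := by
        refine mk_mem hi0 hc1 ?_
        rw [smul_dotProduct, hii, smul_eq_mul, mul_one]
      have m2 : vecMulVec (Pi.single i 1) (c • Pi.single i 1 + Pi.single j 1) ∈ RK (ι := ι) c := by
        refine mk_mem hi0 ?_ ?_
        · intro h0
          have h5 := congrFun h0 i
          rw [Pi.add_apply, Pi.smul_apply, Pi.single_eq_same, Pi.single_eq_of_ne hij,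
            Pi.zero_apply, smul_eq_mul, mul_one, add_zero] at h5
          exact hc h5
        · rw [add_dotProduct, smul_dotProduct, hii, hji, smul_eq_mul, mul_one, add_zero]
      have h6 : vecMulVec (Pi.single i (1 : K) : ι → K) (Pi.single j 1) =
          vecMulVec (Pi.single i 1) (c • Pi.single i 1 + Pi.single j 1) -
            vecMulVec (Pi.single i 1) (c • Pi.single i 1) := by
        rw [vecMulVec_add, add_sub_cancel_left]
      rw [h6, mul_sub, sub_mul, key _ m1, key _ m2]
  have hsc : (A : Matrix ι ι K) ∈ Set.range (Matrix.scalar ι) := by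
    apply Matrix.mem_range_scalar_of_commute_single
    intro i j hij
    have h7 : Matrix.single i j (1 : K) = vecMulVec (Pi.single i 1) (Pi.single j 1) := by
      rw [Matrix.single_eq_single_vecMulVec_single]
    rw [h7]
    exact (hE i j hij).symm
  obtain ⟨r, hr⟩ := hsc
  have h8 : (QuotientGroup.mk (1 : SpecialLinearGroup ι K) : ProjectiveSpecialLinearGroup ι K) =
      QuotientGroup.mk A := by
    rw [mk_eq_iff]
    refine ⟨r, ?_⟩
    change (A : Matrix ι ι K) = r • (1 : Matrix ι ι K)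
    rw [← hr, Matrix.scalar_apply, Matrix.smul_one_eq_diagonal]
  exact h8.symm

end Pool.Agent.Helper2.RO
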