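import Pool.Agent.Helper2.RO.PslB

/-!
# Block RO-T: `SL(n, K)` is transitive on `RK c`

`T = tv u k hk` is the transvection `1 + u kᵀ`, `k · u = 0`, with inverse `1 - u kᵀ`, so
`T (w gᵀ) T⁻¹ = (w + (k · w) u) (g - (g · u) k)ᵀ` (`tv_conj`).
`trans_one` (`c = 1`): let `X = w gᵀ`, `Y = w' g'ᵀ`. With `u = w`, `k = g - g'`: `w gᵀ` is conjugate to `w g'ᵀ` if
`g · w = g' · w = 1`; with `u = w' - w`, `k = g`: `w gᵀ` is conjugate to `w' gᵀ` if `g · w = g · w' = 1`. If `w' = s w`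
then `Y = w (s g')ᵀ`. Otherwise there is a `g2` with `g2 · w = g2 · w' = 1` (`sep` twice), and
`w gᵀ ~ w g2ᵀ ~ w' g2ᵀ ~ w' g'ᵀ`.
`trans_zero` (`c = 0`): (1) `w gᵀ ~ w' gᵀ` if `g · w = g · w' = 0`, `w`, `w'` linearly independent: `u = w' - w`, `k` with
`k · w = 1`, `k · w' = 1` (so `k · u = 0`). (2) the same for `w' = s w`: there is a `w2` with `g · w2 = 0`, not in the span
of `w` (`exists_perp` with `g` and a `k` with `k · w = 1`); use (1) twice. (3) the transposed statement.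
(4) `exists_perp`: `w2 ≠ 0` with `g · w2 = g' · w2 = 0`; `w gᵀ ~ w2 gᵀ ~ w2 g'ᵀ ~ w' g'ᵀ`.
-/

set_option autoImplicit false

open Matrix

namespace Pool.Agent.Helper2.RO

variable {K : Type*} [Field K] {ι : Type*} [Fintype ι] [DecidableEq ι]

/-- The transvection `1 + u kᵀ`. -/
def tv (u k : ι → K) (h : k ⬝ᵥ u = 0) : SpecialLinearGroup ι K :=
  ⟨1 + vecMulVec u k, by
    have h1 : vecMulVec u k = replicateCol (Fin 1) u * replicateRow (Fin 1) k := by
      ext i j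
      simp [vecMulVec_apply, mul_apply]
    rw [h1, det_one_add_mul_comm, det_fin_one, Matrix.add_apply, Matrix.one_apply_eq,
      replicateRow_mul_replicateCol_apply, h, add_zero]⟩

private theorem tv_inv53 (u k : ι → K) (h : k ⬝ᵥ u = 0) :
    (((tv u k h)⁻¹ : SpecialLinearGroup ι K) : Matrix ι ι K) = 1 - vecMulVec u k := by
  have h' : k ⬝ᵥ (-u) = 0 := by rw [dotProduct_neg, h, neg_zero]
  have hval : ((tv (-u) k h' : SpecialLinearGroup ι K) : Matrix ι ι K) = 1 - vecMulVec u k := by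
    change 1 + vecMulVec (-u) k = 1 - vecMulVec u k
    ext i j
    simp only [Matrix.add_apply, Matrix.sub_apply, vecMulVec_apply, Pi.neg_apply]
    ring
  have hmul : tv u k h * tv (-u) k h' = 1 := by
    apply Subtype.ext
    change (tv u k h : Matrix ι ι K) * ((tv (-u) k h' : SpecialLinearGroup ι K) : Matrix ι ι K) = 1
    rw [hval]
    change (1 + vecMulVec u k) * (1 - vecMulVec u k) = 1
    rw [add_mul, one_mul, mul_sub, mul_one, mul_eq, h, zero_smul, sub_zero, sub_add_cancel]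
  rw [inv_eq_of_mul_eq_one_right hmul, hval]

theorem tv_conj (u k : ι → K) (h : k ⬝ᵥ u = 0) (w g : ι → K) :
    (tv u k h : Matrix ι ι K) * vecMulVec w g *
      (((tv u k h)⁻¹ : SpecialLinearGroup ι K) : Matrix ι ι K) =
      vecMulVec (w + (k ⬝ᵥ w) • u) (g - (g ⬝ᵥ u) • k) := by
  rw [tv_inv53]
  change (1 + vecMulVec u k) * vecMulVec w g * (1 - vecMulVec u k) = _
  have e1 : (1 + vecMulVec u k) * vecMulVec w g = vecMulVec (w + (k ⬝ᵥ w) • u) g := by
    rw [add_mul, one_mul, mul_eq]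
    ext i j
    simp only [Matrix.add_apply, Matrix.smul_apply, vecMulVec_apply, Pi.add_apply, Pi.smul_apply,
      smul_eq_mul]
    ring
  rw [e1, mul_sub, mul_one, mul_eq]
  ext i j
  simp only [Matrix.sub_apply, Matrix.smul_apply, vecMulVec_apply, Pi.sub_apply, Pi.smul_apply,
    smul_eq_mul]
  ring

private theorem conj_trans53 {X Y Z : Matrix ι ι K}
    (h1 : ∃ A : SpecialLinearGroup ι K,
      (A : Matrix ι ι K) * X * ((A⁻¹ : SpecialLinearGroup ι K) : Matrix ι ι K) = Y)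
    (h2 : ∃ A : SpecialLinearGroup ι K,
      (A : Matrix ι ι K) * Y * ((A⁻¹ : SpecialLinearGroup ι K) : Matrix ι ι K) = Z) :
    ∃ A : SpecialLinearGroup ι K,
      (A : Matrix ι ι K) * X * ((A⁻¹ : SpecialLinearGroup ι K) : Matrix ι ι K) = Z := by
  obtain ⟨A, rfl⟩ := h1
  obtain ⟨B, rfl⟩ := h2
  refine ⟨B * A, ?_⟩
  rw [_root_.mul_inv_rev]
  change ((B : Matrix ι ι K) * (A : Matrix ι ι K)) * X *
    (((A⁻¹ : SpecialLinearGroup ι K) : Matrix ι ι K) *
      ((B⁻¹ : SpecialLinearGroup ι K) : Matrix ι ι K)) = _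
  simp only [mul_assoc]

/-- A functional with value one on two independent vectors. -/
private theorem both53 {w w' : ι → K} (hw : w ≠ 0) (h : w' ∉ Submodule.span K {w}) :
    ∃ k : ι → K, k ⬝ᵥ w = 1 ∧ k ⬝ᵥ w' = 1 := by
  have h' : w ∉ Submodule.span K {w'} := by
    intro hm
    obtain ⟨c, hc⟩ := Submodule.mem_span_singleton.1 hm
    have hc0 : c ≠ 0 := by
      rintro rfl
      exact hw (by rw [← hc, zero_smul])
    refine h (Submodule.mem_span_singleton.2 ⟨c⁻¹, ?_⟩)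
    rw [← hc, smul_smul, inv_mul_cancel₀ hc0, one_smul]
  obtain ⟨h1, h1w, h1w'⟩ := sep _ h
  obtain ⟨h2, h2w', h2w⟩ := sep _ h'
  refine ⟨h1 + h2, ?_, ?_⟩
  · rw [add_dotProduct, h1w w (Submodule.mem_span_singleton_self w), h2w, zero_add]
  · rw [add_dotProduct, h1w', h2w' w' (Submodule.mem_span_singleton_self w'), add_zero]

private theorem one_a53 {w g g' : ι → K} (h : g ⬝ᵥ w = 1) (h' : g' ⬝ᵥ w = 1) :
    ∃ A : SpecialLinearGroup ι K, (A : Matrix ι ι K) * vecMulVec w g *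
      ((A⁻¹ : SpecialLinearGroup ι K) : Matrix ι ι K) = vecMulVec w g' := by
  have hk : (g - g') ⬝ᵥ w = 0 := by rw [sub_dotProduct, h, h', sub_self]
  refine ⟨tv w (g - g') hk, ?_⟩
  rw [tv_conj, hk, h, zero_smul, add_zero, one_smul, sub_sub_cancel]

private theorem one_b53 {w w' g : ι → K} (h : g ⬝ᵥ w = 1) (h' : g ⬝ᵥ w' = 1) :
    ∃ A : SpecialLinearGroup ι K, (A : Matrix ι ι K) * vecMulVec w g *
      ((A⁻¹ : SpecialLinearGroup ι K) : Matrix ι ι K) = vecMulVec w' g := by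
  have hk : g ⬝ᵥ (w' - w) = 0 := by rw [dotProduct_sub, h, h', sub_self]
  refine ⟨tv (w' - w) g hk, ?_⟩
  rw [tv_conj, hk, h, one_smul, zero_smul, sub_zero, add_sub_cancel]

/-- (1) -/
private theorem zero_a53 {w w' g : ι → K} (hw : w ≠ 0) (hi : w' ∉ Submodule.span K {w})
    (h : g ⬝ᵥ w = 0) (h' : g ⬝ᵥ w' = 0) :
    ∃ A : SpecialLinearGroup ι K, (A : Matrix ι ι K) * vecMulVec w g *
      ((A⁻¹ : SpecialLinearGroup ι K) : Matrix ι ι K) = vecMulVec w' g := by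
  obtain ⟨k, k1, k2⟩ := both53 hw hi
  have hk : k ⬝ᵥ (w' - w) = 0 := by rw [dotProduct_sub, k1, k2, sub_self]
  have hg : g ⬝ᵥ (w' - w) = 0 := by rw [dotProduct_sub, h, h', sub_self]
  refine ⟨tv (w' - w) k hk, ?_⟩
  rw [tv_conj, k1, hg, one_smul, zero_smul, sub_zero, add_sub_cancel]

/-- (1) and (2) -/
private theorem zero_b53 (hn : 3 ≤ Fintype.card ι) {w w' g : ι → K} (hw : w ≠ 0) (hw' : w' ≠ 0)
    (h : g ⬝ᵥ w = 0) (h' : g ⬝ᵥ w' = 0) :
    ∃ A : SpecialLinearGroup ι K, (A : Matrix ι ι K) * vecMulVec w g *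
      ((A⁻¹ : SpecialLinearGroup ι K) : Matrix ι ι K) = vecMulVec w' g := by
  by_cases hi : w' ∈ Submodule.span K {w}
  · obtain ⟨s, rfl⟩ := Submodule.mem_span_singleton.1 hi
    obtain ⟨k, -, hk⟩ := sep (⊥ : Submodule K (ι → K)) (u := w)
      (by rw [Submodule.mem_bot]; exact hw)
    obtain ⟨w2, hw20, hg2, hk2⟩ := exists_perp hn g k
    have i1 : w2 ∉ Submodule.span K {w} := by
      intro hm
      obtain ⟨c, rfl⟩ := Submodule.mem_span_singleton.1 hm
      rw [dotProduct_smul, hk, smul_eq_mul, mul_one] at hk2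
      exact hw20 (by rw [hk2, zero_smul])
    have i2 : s • w ∉ Submodule.span K {w2} := by
      intro hm
      obtain ⟨c, hc⟩ := Submodule.mem_span_singleton.1 hm
      have h2 : k ⬝ᵥ (c • w2) = k ⬝ᵥ (s • w) := by rw [hc]
      rw [dotProduct_smul, dotProduct_smul, hk, hk2, smul_zero, smul_eq_mul, mul_one] at h2
      exact hw' (by rw [← h2, zero_smul])
    exact conj_trans53 (zero_a53 hw i1 h hg2) (zero_a53 hw20 i2 hg2 h')
  · exact zero_a53 hw hi h h'

omit [Fintype ι] [DecidableEq ι] in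
private theorem tr53 (w g : ι → K) : (vecMulVec w g)ᵀ = vecMulVec g w := by
  ext i j
  simp only [transpose_apply, vecMulVec_apply]
  ring

/-- (3) -/
private theorem zero_c53 (hn : 3 ≤ Fintype.card ι) {w g g' : ι → K} (hg : g ≠ 0) (hg' : g' ≠ 0)
    (h : g ⬝ᵥ w = 0) (h' : g' ⬝ᵥ w = 0) :
    ∃ A : SpecialLinearGroup ι K, (A : Matrix ι ι K) * vecMulVec w g *
      ((A⁻¹ : SpecialLinearGroup ι K) : Matrix ι ι K) = vecMulVec w g' := by
  rw [dotProduct_comm] at h h'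
  obtain ⟨A, hA⟩ := zero_b53 hn hg hg' h h'
  have hinv : (A⁻¹).transpose * A.transpose = 1 := by
    apply Subtype.ext
    change ((A⁻¹ : SpecialLinearGroup ι K) : Matrix ι ι K)ᵀ * (A : Matrix ι ι K)ᵀ = 1
    have h1 : (A : Matrix ι ι K) * ((A⁻¹ : SpecialLinearGroup ι K) : Matrix ι ι K) = 1 :=
      congrArg Subtype.val (mul_inv_cancel A)
    rw [← transpose_mul]
    exact (congrArg transpose h1).trans transpose_one
  refine ⟨(A⁻¹).transpose, ?_⟩
  rw [inv_eq_of_mul_eq_one_right hinv]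
  change ((A⁻¹ : SpecialLinearGroup ι K) : Matrix ι ι K)ᵀ * vecMulVec w g *
    (A : Matrix ι ι K)ᵀ = vecMulVec w g'
  rw [← tr53 g w, ← transpose_mul, ← transpose_mul, ← mul_assoc, hA, tr53]

theorem trans_one {X Y : Matrix ι ι K} (hX : X ∈ RK (1 : K)) (hY : Y ∈ RK (1 : K)) :
    ∃ A : SpecialLinearGroup ι K,
      (A : Matrix ι ι K) * X * ((A⁻¹ : SpecialLinearGroup ι K) : Matrix ι ι K) = Y := by
  obtain ⟨w, g, hw, hg, h, rfl⟩ := hX
  obtain ⟨w', g', hw', hg', h', rfl⟩ := hY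
  by_cases hi : w' ∈ Submodule.span K {w}
  · obtain ⟨s, rfl⟩ := Submodule.mem_span_singleton.1 hi
    have e : vecMulVec (s • w) g' = vecMulVec w (s • g') := by
      ext i j
      simp only [vecMulVec_apply, Pi.smul_apply, smul_eq_mul]
      ring
    rw [e]
    refine one_a53 h ?_
    rw [smul_dotProduct, ← dotProduct_smul, h']
  · obtain ⟨g2, k1, k2⟩ := both53 hw hi
    exact conj_trans53 (conj_trans53 (one_a53 h k1) (one_b53 k1 k2)) (one_a53 k2 h')

theorem trans_zero (hn : 3 ≤ Fintype.card ι) {X Y : Matrix ι ι K} (hX : X ∈ RK (0 : K))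
    (hY : Y ∈ RK (0 : K)) : ∃ A : SpecialLinearGroup ι K,
      (A : Matrix ι ι K) * X * ((A⁻¹ : SpecialLinearGroup ι K) : Matrix ι ι K) = Y := by
  obtain ⟨w, g, hw, hg, h, rfl⟩ := hX
  obtain ⟨w', g', hw', hg', h', rfl⟩ := hY
  obtain ⟨w2, hw2, h2, h2'⟩ := exists_perp hn g g'
  exact conj_trans53 (conj_trans53 (zero_b53 hn hw hw2 h h2) (zero_c53 hn hg hg' h2 h2'))
    (zero_b53 hn hw2 hw' h2' h')

end Pool.Agent.Helper2.RO
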