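import Pool.Agent.Helper2.RO.One2

/-!
# Block RO-Z1: maps which fix the square zero rank one matrices commuting with `a`, step 1

Here `2 = 0`, `a = v fᵀ`, `f · v = 0`, `v ≠ 0`, `f ≠ 0`; `P a = a` and `P` fixes the `Y = w' g'ᵀ` in `RK 0` with
`f · w' = 0`, `g' · v = 0`. Let `X = w gᵀ`, `g · w = 0`, `P X = w1 g1ᵀ`, `g1 · w1 = 0`.
`left_zero`, the case `f · w ≠ 0`: (1) `g` is not in the span of `f`, so there is a `u` with `f · u = 0`,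
`g · u = 1` (`sep`). `Y = ((f · w)⁻¹ u) fᵀ` has `trace (X Y) = 1`, so `(g1 · u) (f · w1) = f · w`, in particular
`f · w1 ≠ 0`. (2) For all `x` with `f · x = 0`: `(f · w) (g · x) = (f · w1) (g1 · x)`: if `s = (f · w) (g · x) ≠ 0` use
`Y = (s⁻¹ x) fᵀ` (`Pres.one`); if `s = 0` use `Y = ((f · w)⁻¹ u + x) fᵀ`. (3) So `(f · w1) g1 - (f · w) g` vanishes on
the kernel of `f` and is a multiple of `f` (`span_of` with `g = f`). Scale `w1`, `g1` so that `f · w1 = f · w`; then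
`g1 = g + γ f`. So `g1 · v = g · v`.
(4) If `g · v ≠ 0` then, for `g'` with `g' · v = 0`, `Y = v g'ᵀ` gives in the same way `(g · v) (g' · w) =
(g1 · v) (g' · w1)`, so `g' · w1 = g' · w`; if `g · v = 0` then `Pres.comm` with `Y = v g'ᵀ`, `g' · v = 0`, `g' ≠ 0`, gives
`g' · w = 0 ↔ g' · w1 = 0`. In both cases (`span_of` for vectors: if `g' · v = g' · w = 0` then `g' · w1 = 0`)
`w1 = β v + c w`, and `c = 1` from `f · w1 = f · w`.
(5) `0 = g1 · w1 = β (g · v) + γ (f · w)`, so `γ = λ (g · v)` and `β = λ (f · w)` for `λ = β / (f · w)` (`-1 = 1`).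
-/

set_option autoImplicit false

open Matrix

namespace Pool.Agent.Helper2.RO

variable {K : Type*} [Field K] {ι : Type*} [Fintype ι] [DecidableEq ι]

omit [DecidableEq ι] in
private theorem lin56 {s p q x0 : ι → K} (h : ∀ x : ι → K, s ⬝ᵥ x = 0 → (q ⬝ᵥ x = 1 ↔ p ⬝ᵥ x = 1))
    (h0 : s ⬝ᵥ x0 = 0) (h1 : p ⬝ᵥ x0 ≠ 0) : ∀ x : ι → K, s ⬝ᵥ x = 0 → q ⬝ᵥ x = p ⬝ᵥ x := by
  have e1 : s ⬝ᵥ ((p ⬝ᵥ x0)⁻¹ • x0) = 0 := by rw [dotProduct_smul, h0, smul_zero]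
  have e2 : p ⬝ᵥ ((p ⬝ᵥ x0)⁻¹ • x0) = 1 := by rw [dotProduct_smul, smul_eq_mul, inv_mul_cancel₀ h1]
  have e3 : q ⬝ᵥ ((p ⬝ᵥ x0)⁻¹ • x0) = 1 := (h _ e1).2 e2
  intro x hx
  by_cases h2 : p ⬝ᵥ x = 0
  · have e4 : q ⬝ᵥ ((p ⬝ᵥ x0)⁻¹ • x0 + x) = 1 :=
      (h _ (by rw [dotProduct_add, e1, hx, add_zero])).2 (by rw [dotProduct_add, e2, h2, add_zero])
    rw [dotProduct_add, e3] at e4
    rw [h2]
    exact left_eq_add.1 e4.symm
  · have e4 : q ⬝ᵥ ((p ⬝ᵥ x)⁻¹ • x) = 1 :=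
      (h _ (by rw [dotProduct_smul, hx, smul_zero])).2 (by rw [dotProduct_smul, smul_eq_mul, inv_mul_cancel₀ h2])
    rw [dotProduct_smul, smul_eq_mul] at e4
    have e5 : (p ⬝ᵥ x) * ((p ⬝ᵥ x)⁻¹ * (q ⬝ᵥ x)) = p ⬝ᵥ x := by rw [e4, mul_one]
    rw [← mul_assoc, mul_inv_cancel₀ h2, one_mul] at e5
    exact e5

theorem left_zero [CharP K 2] {P : Matrix ι ι K → Matrix ι ι K} (hP : Pres 0 P)
    {v f : ι → K} (hv : v ≠ 0) (hf : f ≠ 0) (hvf : f ⬝ᵥ v = 0)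
    (hfix : ∀ Y ∈ RK (0 : K), vecMulVec v f * Y = 0 → Y * vecMulVec v f = 0 → P Y = Y)
    {w g : ι → K} (hw : w ≠ 0) (hg : g ≠ 0) (hwg : g ⬝ᵥ w = 0) (hfw : f ⬝ᵥ w ≠ 0) :
    ∃ l : K, P (vecMulVec w g) =
      vecMulVec (w + (l * (f ⬝ᵥ w)) • v) (g + (l * (g ⬝ᵥ v)) • f) := by
  have hX : vecMulVec w g ∈ RK (0 : K) := mk_mem hw hg hwg
  obtain ⟨w0, g0, hw0, hg0, hwg0, hPX⟩ := hP.mem _ hX
  have fixY : ∀ w' g' : ι → K, w' ≠ 0 → g' ≠ 0 → g' ⬝ᵥ w' = 0 → f ⬝ᵥ w' = 0 → g' ⬝ᵥ v = 0 →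
      vecMulVec w' g' ∈ RK (0 : K) ∧ P (vecMulVec w' g') = vecMulVec w' g' := by
    intro w' g' h1 h2 h3 h4 h5
    have h6 := mk_mem (K := K) h1 h2 h3
    exact ⟨h6, hfix _ h6 ((mul_eq_zero_iff hv h2).2 h4) ((mul_eq_zero_iff h1 hf).2 h5)⟩
  -- (1)
  have hgf : g ∉ Submodule.span K {f} := by
    intro h
    obtain ⟨c, hc⟩ := Submodule.mem_span_singleton.1 h
    have h1 : c * (f ⬝ᵥ w) = 0 := by rw [← smul_eq_mul, ← smul_dotProduct, hc, hwg]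
    rcases mul_eq_zero.1 h1 with h2 | h2
    · apply hg
      rw [← hc, h2, zero_smul]
    · exact hfw h2
  obtain ⟨u, hu1, hu2⟩ := sep (Submodule.span K {f}) hgf
  have hfu : f ⬝ᵥ u = 0 := by
    rw [dotProduct_comm]
    exact hu1 f (Submodule.mem_span_singleton_self f)
  have hgu : g ⬝ᵥ u = 1 := by rw [dotProduct_comm]; exact hu2
  -- (2)
  have hone : ∀ x : ι → K, f ⬝ᵥ x = 0 →
      (((f ⬝ᵥ w0) • g0) ⬝ᵥ x = 1 ↔ ((f ⬝ᵥ w) • g) ⬝ᵥ x = 1) := by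
    intro x hx
    by_cases h0 : x = 0
    · rw [h0]
      simp
    · obtain ⟨m1, m2⟩ := fixY x f h0 hf hx hx hvf
      have h1 := hP.one _ hX _ m1
      rw [m2, hPX, trace_mul_eq, trace_mul_eq] at h1
      rw [smul_dotProduct, smul_dotProduct, smul_eq_mul, smul_eq_mul, mul_comm, h1, mul_comm]
  have hlin := lin56 hone hfu (by
    rw [smul_dotProduct, hgu, smul_eq_mul, mul_one]
    exact hfw)
  have hfw0 : f ⬝ᵥ w0 ≠ 0 := by
    intro h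
    have h1 := hlin u hfu
    rw [h, zero_smul, zero_dotProduct, smul_dotProduct, hgu, smul_eq_mul, mul_one] at h1
    exact hfw h1.symm
  -- (3)
  obtain ⟨x, y, hxy⟩ := span_of (f := f) (g := f) (g1 := (f ⬝ᵥ w0) • g0 - (f ⬝ᵥ w) • g) (by
    intro u hu _
    rw [sub_dotProduct, hlin u hu, sub_self])
  obtain ⟨w1, hw1⟩ : ∃ w1 : ι → K, w1 = ((f ⬝ᵥ w) / (f ⬝ᵥ w0)) • w0 := ⟨_, rfl⟩
  obtain ⟨g1, hg1⟩ : ∃ g1 : ι → K, g1 = ((f ⬝ᵥ w0) / (f ⬝ᵥ w)) • g0 := ⟨_, rfl⟩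
  obtain ⟨γ, hγ⟩ : ∃ γ : K, γ = (x + y) / (f ⬝ᵥ w) := ⟨_, rfl⟩
  have hPX1 : P (vecMulVec w g) = vecMulVec w1 g1 := by
    rw [hPX, hw1, hg1]
    ext i j
    simp only [vecMulVec_apply, Pi.smul_apply, smul_eq_mul]
    field_simp
  have hfw1 : f ⬝ᵥ w1 = f ⬝ᵥ w := by
    rw [hw1, dotProduct_smul, smul_eq_mul, div_mul_cancel₀ _ hfw0]
  have hg1' : g1 = g + γ • f := by
    have h1 : (f ⬝ᵥ w) • g1 = (f ⬝ᵥ w) • g + (x + y) • f := by
      rw [hg1, smul_smul, mul_div_cancel₀ _ hfw, add_smul, ← hxy]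
      abel
    have h2 : g1 = (f ⬝ᵥ w)⁻¹ • ((f ⬝ᵥ w) • g1) := by
      rw [smul_smul, inv_mul_cancel₀ hfw, one_smul]
    rw [h2, h1, smul_add, smul_smul, smul_smul, inv_mul_cancel₀ hfw, one_smul, hγ, div_eq_inv_mul]
  have hwg1 : g1 ⬝ᵥ w1 = 0 := by
    rw [hw1, hg1, dotProduct_smul, smul_dotProduct, hwg0, smul_zero, smul_zero]
  have hw1n : w1 ≠ 0 := by
    intro h
    rw [h, dotProduct_zero] at hfw1
    exact hfw hfw1.symm
  have hg1n : g1 ≠ 0 := by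
    rw [hg1]
    exact smul_ne_zero (div_ne_zero hfw0 hfw) hg0
  have hgv : g1 ⬝ᵥ v = g ⬝ᵥ v := by
    rw [hg1', add_dotProduct, smul_dotProduct, hvf, smul_zero, add_zero]
  -- (4)
  have hperp : ∀ g' : ι → K, v ⬝ᵥ g' = 0 → w ⬝ᵥ g' = 0 → w1 ⬝ᵥ g' = 0 := by
    intro g' h1 h2
    by_cases h0 : g' = 0
    · rw [h0, dotProduct_zero]
    have h1' : g' ⬝ᵥ v = 0 := by rw [dotProduct_comm]; exact h1
    have h2' : g' ⬝ᵥ w = 0 := by rw [dotProduct_comm]; exact h2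
    by_cases h3 : g ⬝ᵥ v = 0
    · obtain ⟨m1, m2⟩ := fixY v g' hv h0 h1' hvf h1'
      have h4 := hP.comm _ hX _ m1
      rw [m2, hPX1] at h4
      have h5 := h4.2 ⟨(mul_eq_zero_iff hw h0).2 h3, (mul_eq_zero_iff hv hg).2 h2'⟩
      rw [dotProduct_comm]
      exact (mul_eq_zero_iff hv hg1n).1 h5.2
    · have hone' : ∀ x : ι → K, v ⬝ᵥ x = 0 →
          (((g ⬝ᵥ v) • w1) ⬝ᵥ x = 1 ↔ ((g ⬝ᵥ v) • w) ⬝ᵥ x = 1) := by
        intro x hx
        by_cases h0 : x = 0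
        · rw [h0]
          simp
        · have hx' : x ⬝ᵥ v = 0 := by rw [dotProduct_comm]; exact hx
          obtain ⟨m1, m2⟩ := fixY v x hv h0 hx' hvf hx'
          have h1 := hP.one _ hX _ m1
          rw [m2, hPX1, trace_mul_eq, trace_mul_eq, hgv] at h1
          rw [smul_dotProduct, smul_dotProduct, smul_eq_mul, smul_eq_mul, dotProduct_comm w1,
            dotProduct_comm w]
          exact h1
      have h5 := lin56 hone' (x0 := f) (by rw [dotProduct_comm]; exact hvf) (by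
        rw [smul_dotProduct, smul_eq_mul, dotProduct_comm w]
        exact mul_ne_zero h3 hfw) g' h1
      rw [smul_dotProduct, smul_dotProduct, h2, smul_zero, smul_eq_mul] at h5
      exact (mul_eq_zero.1 h5).resolve_left h3
  obtain ⟨β, c, hβ⟩ := span_of hperp
  have hc : c = 1 := by
    have h1 := hfw1
    rw [hβ, dotProduct_add, dotProduct_smul, dotProduct_smul, hvf, smul_zero, zero_add, smul_eq_mul] at h1
    exact mul_right_cancel₀ hfw (by rw [h1, one_mul])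
  have hw1' : w1 = w + β • v := by rw [hβ, hc, one_smul, add_comm]
  -- (5)
  have h5 : β * (g ⬝ᵥ v) + γ * (f ⬝ᵥ w) = 0 := by
    have h1 := hwg1
    rw [hg1', hw1', dotProduct_add, add_dotProduct, add_dotProduct, dotProduct_smul, dotProduct_smul,
      smul_dotProduct, smul_dotProduct, hwg, hvf] at h1
    simp only [smul_eq_mul, mul_zero, add_zero, zero_add] at h1
    rw [add_comm]
    exact h1
  refine ⟨β / (f ⬝ᵥ w), ?_⟩
  have e1 : β / (f ⬝ᵥ w) * (f ⬝ᵥ w) = β := div_mul_cancel₀ _ hfw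
  have e2 : β / (f ⬝ᵥ w) * (g ⬝ᵥ v) = γ := by
    rw [div_mul_eq_mul_div, div_eq_iff hfw]
    have h6 : β * (g ⬝ᵥ v) = -(γ * (f ⬝ᵥ w)) := eq_neg_of_add_eq_zero_left h5
    rw [h6]
    exact CharTwo.neg_eq _
  rw [e1, e2, ← hw1', ← hg1', hPX1]

end Pool.Agent.Helper2.RO
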